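import Pool.Agent.LSN.Basic

/-!
# SXG: definitions for the theorem on graphs of growth `2 ^ (k / 22 ^ (log* k))`

Port of `Pool/Agent/LSN` (log* theorem) with ONE random coordinate; see ideas row 2581 and
`Targets.lean`.  The notions `W` (walks), `Base`, `PW`, `Rch`, `sel`, `lf`, `reg`, `GC`, `Rt`, `tw`
are those of `Pool.Agent.LSN`.
-/

set_option autoImplicit false

namespace Pool.Agent.SXG

open Pool.Agent.LSN (W Base Rch PW sel lf reg GC Rt tw)

/-- coloured relational structures: relation, base colour, colour, wild points -/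
structure Str (K M : ℕ) (N : Type) where
  r : N → N → Prop
  col : N → Fin K
  c : N → Fin M
  w : N → Prop

/-- the base graph with a colouring and the wild set `U` -/
def gs {V : Type} {b K M : ℕ} (G : Base V b K) (c : V → Fin M) (U : Set V) : Str K M V :=
  ⟨G.r, G.col, c, fun v => v ∈ U⟩

/-- `A` is admissible: symmetric, its base part embeds into the base graph, and no two different
adjacent points are wild -/
def Adm {V N : Type} {b K M : ℕ} (G : Base V b K) (A : Str K M N) : Prop :=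
  (∀ x y, A.r x y → A.r y x) ∧ (∃ f : N → V, Function.Injective f ∧
    (∀ x y, A.r x y → G.r (f x) (f y)) ∧ ∀ x, A.col x = G.col (f x)) ∧
  ∀ x y, A.r x y → A.w x → A.w y → x = y

/-- matching: equal base colours and equal colours, unless one of the points is wild -/
def Mt {K M : ℕ} {N N' : Type} (A : Str K M N) (B : Str K M N') (x : N) (y : N') : Prop :=
  A.col x = B.col y ∧ (A.w x ∨ B.w y ∨ A.c x = B.c y)

/-- base colours are injective at distance `≤ 42` -/
def Q42 {V : Type} {b K : ℕ} (G : Base V b K) : Prop :=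
  ∀ x y, W G.r 42 x y → G.col x = G.col y → x = y

/-- parameters: numbers of windows `m i`, bounds `ph k` for the balls of radius `k` -/
structure Par where
  m : ℕ → ℕ
  ph : ℕ → ℕ

def Par.Ok (P : Par) : Prop :=
  (∀ i, 2 ≤ P.m i) ∧ (∀ k, 1 ≤ P.ph k) ∧ (∀ j k, P.ph (j + k) ≤ P.ph j * P.ph k) ∧
    ∀ j k, j ≤ k → P.ph j ≤ P.ph k

/-- `ph` bounds the balls of the base graph -/
def Bal {V : Type} {b K : ℕ} (P : Par) (G : Base V b K) : Prop :=
  ∀ k v, {u | W G.r k v u}.ncard ≤ P.ph k

/-- radius of the windows of level `i` -/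
def Par.rho (P : Par) : ℕ → ℕ
  | 0 => 1
  | i + 1 => P.m i * (10 * P.rho i + 1)

/-- number of erased vertices of a window of level `i` -/
def Par.g (P : Par) : ℕ → ℕ
  | 0 => 1
  | i + 1 => P.m i * P.g i

/-- size of the structures of level `i` -/
def Par.xi (P : Par) (i : ℕ) : ℕ := P.m i * P.ph (10 * P.rho i)

/-- number of windows of an event of the first kind -/
def Par.Nn (P : Par) (i : ℕ) : ℕ := P.xi i ^ 3

/-- bound for the number of partners at level `i` -/
def Par.Xi (P : Par) (i : ℕ) : ℕ := P.Nn i * P.ph (28 * P.rho i)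

/-- table of the first `n + 1` centres of a chain code (index of an older centre, index in the
ball of radius `k` around it) -/
noncomputable def tab {V : Type} [Finite V] {m p : ℕ} (r : V → V → Prop) (k : ℕ)
    (ch : Fin m → Fin m × Fin p) (x : V) : ℕ → ℕ → V
  | 0 => fun _ => x
  | n + 1 => Function.update (tab r k ch x n) (n + 1)
      (if h : n + 1 < m then
        sel (tab r k ch x n (ch ⟨n + 1, h⟩).1) (ch ⟨n + 1, h⟩).2.val
          {u | W r k (tab r k ch x n (ch ⟨n + 1, h⟩).1) u}
      else x)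

/-- the `l`-th centre of a chain code -/
noncomputable def ctr {V : Type} [Finite V] {m p : ℕ} (r : V → V → Prop) (k : ℕ)
    (ch : Fin m → Fin m × Fin p) (x : V) (l : ℕ) : V := tab r k ch x l l

/-- skeletons of windows of level `i` -/
def Sk (P : Par) (b : ℕ) : ℕ → Type
  | 0 => Fin b
  | i + 1 => (Fin (P.m i) → Fin (P.m i) × Fin (P.ph (10 * P.rho i + 1))) ×
      (Fin (P.m i) → Sk P b i)

/-- pointers of windows of level `i` -/
def Pt (P : Par) : ℕ → Type
  | 0 => Unit
  | i + 1 => Fin (P.m i) → Fin (P.Xi i) × Pt P i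

/-- indices of the erased vertices of a window of level `i` -/
def Ix (P : Par) : ℕ → Type
  | 0 => Unit
  | i + 1 => Fin (P.m i) × Ix P i

noncomputable instance instSk (P : Par) (b : ℕ) : (i : ℕ) → Fintype (Sk P b i)
  | 0 => inferInstanceAs (Fintype (Fin b))
  | i + 1 =>
    letI := instSk P b i
    inferInstanceAs (Fintype ((Fin (P.m i) → Fin (P.m i) × Fin (P.ph (10 * P.rho i + 1))) ×
      (Fin (P.m i) → Sk P b i)))

noncomputable instance instPt (P : Par) : (i : ℕ) → Fintype (Pt P i)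
  | 0 => inferInstanceAs (Fintype Unit)
  | i + 1 =>
    letI := instPt P i
    inferInstanceAs (Fintype (Fin (P.m i) → Fin (P.Xi i) × Pt P i))

noncomputable instance instIx (P : Par) : (i : ℕ) → Fintype (Ix P i)
  | 0 => inferInstanceAs (Fintype Unit)
  | i + 1 =>
    letI := instIx P i
    inferInstanceAs (Fintype (Fin (P.m i) × Ix P i))

/-- erased vertices of the window with centre `x` and skeleton `s` -/
noncomputable def er {V : Type} [Finite V] {b K : ℕ} (P : Par) (G : Base V b K) :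
    (i : ℕ) → Sk P b i → V → Ix P i → V
  | 0, a, x, _ => G.nb x a
  | i + 1, s, x, q =>
      er P G i (s.2 q.1) (ctr G.r (10 * P.rho i + 1) s.1 x q.1.val) q.2

/-- well formed skeletons: sub-centres are far from each other -/
def WF {V : Type} [Finite V] {b K : ℕ} (P : Par) (G : Base V b K) :
    (i : ℕ) → Sk P b i → V → Prop
  | 0, _, _ => True
  | i + 1, s, x =>
      (∀ l l' : Fin (P.m i), l ≠ l' → ¬ W G.r (10 * P.rho i)
        (ctr G.r (10 * P.rho i + 1) s.1 x l.val) (ctr G.r (10 * P.rho i + 1) s.1 x l'.val)) ∧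
      ∀ l : Fin (P.m i), WF P G i (s.2 l) (ctr G.r (10 * P.rho i + 1) s.1 x l.val)

/-- a family of windows of level `i` with centres `z k` far from each other, well formed -/
def Fam {V κ : Type} [Finite V] {b K : ℕ} (P : Par) (G : Base V b K) (i : ℕ) (z : κ → V)
    (s : κ → Sk P b i) : Prop :=
  (∀ k k', k ≠ k' → ¬ W G.r (10 * P.rho i) (z k) (z k')) ∧ ∀ k, WF P G i (s k) (z k)

/-- `U` is separated at scale `j` -/
def Sep {V : Type} {b K : ℕ} (P : Par) (G : Base V b K) (j : ℕ) (U : Set V) : Prop :=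
  ∃ Z : Set V, (∀ z ∈ Z, ∀ z' ∈ Z, z ≠ z' → ¬ W G.r (10 * P.rho j) z z') ∧
    ∀ u ∈ U, ∃ z ∈ Z, W G.r (P.rho j) z u

/-- no two different points of `U` are adjacent -/
def AF {V : Type} {b K : ℕ} (G : Base V b K) (U : Set V) : Prop :=
  ∀ u ∈ U, ∀ u' ∈ U, G.r u u' → u = u'

/-- allowed pairs in the region `R × Bs` -/
def Al {K M : ℕ} {N N' : Type} (A : Str K M N) (B : Str K M N') (R : Set N) (Bs : Set N')
    (u : N) (v : N') : Prop := u ∈ R ∧ v ∈ Bs ∧ Mt A B u v

/-- partners of `u` reachable from `(x, y)` -/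
def Prt {K M : ℕ} {N N' : Type} (A : Str K M N) (B : Str K M N') (R : Set N) (Bs : Set N')
    (x : N) (y : N') (u : N) : Set N' :=
  {v | Rch A.r B.r (Al A B R Bs) (x, y) (u, v)}

/-- partners (in the structure `B`, inside `Bs`) of the erased vertices of a window; the decoder
treats the set `U` as wild -/
noncomputable def pa {V N : Type} {b K M : ℕ} [Finite V] [Finite N] (P : Par) (G : Base V b K)
    (c : V → Fin M) (U : Set V) (B : Str K M N) (Bs : Set N) :
    (i : ℕ) → Sk P b i → Pt P i → V → N → Ix P i → N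
  | 0, a, _, x, y, _ => lf B.r B.col (fun _ => G.col (G.nb x a)) y 1
  | i + 1, s, p, x, y, q =>
      pa P G c U B Bs i (s.2 q.1) (p q.1).2 (ctr G.r (10 * P.rho i + 1) s.1 x q.1.val)
        (sel y (p q.1).1.val (Prt (gs G c U) B
          (reg G.r (ctr G.r (10 * P.rho i + 1) s.1 x) (P.m i) (10 * P.rho i)) Bs x y
          (ctr G.r (10 * P.rho i + 1) s.1 x q.1.val))) q.2

/-- `Gd i n A`: the structure `A` on `Fin n` satisfies the bounds of all levels `< i` -/
def Gd {V : Type} {b K M : ℕ} (P : Par) (G : Base V b K) :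
    ℕ → (n : ℕ) → Str K M (Fin n) → Prop
  | 0, _, _ => True
  | i + 1, n, A => Gd P G i n A ∧ ∀ n' ≤ P.xi i, ∀ A' : Str K M (Fin n'), Adm G A' →
      Gd P G i n' A' → ∀ (x : Fin n') (y : Fin n),
        {v | ∃ u, Rch A'.r A.r (Mt A' A) (x, y) (u, v)}.ncard < P.Xi i

/-- the bound of level `i` for a structure: for every good structure `A'` on at most `xi i`
points, every component of pairs has less than `Xi i` second coordinates -/
def Bd {V N : Type} {b K M : ℕ} (P : Par) (G : Base V b K) (i : ℕ) (A : Str K M N) : Prop :=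
  ∀ n' ≤ P.xi i, ∀ A' : Str K M (Fin n'), Adm G A' →
      Gd P G i n' A' → ∀ (x : Fin n') (y : N),
        {v | ∃ u, Rch A'.r A.r (Mt A' A) (x, y) (u, v)}.ncard < P.Xi i

/-- the claim of level `i`: every wild set which is separated at scale `i` is harmless -/
def Cl {V : Type} {b K M : ℕ} (P : Par) (G : Base V b K) (c : V → Fin M) (i : ℕ) : Prop :=
  ∀ U : Set V, Sep P G i U → Bd P G i (gs G c U)

/-- window lemma of level `i` -/
def WL {V : Type} {b K M : ℕ} [Finite V] (P : Par) (G : Base V b K) (c : V → Fin M) (i : ℕ) :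
    Prop :=
  ∀ (N : Type) [Finite N] (B : Str K M N) (Bs : Set N), Adm G B → (∀ j < i, Bd P G j B) →
  ∀ (X : ℕ → V) (Y : ℕ → N) (T : ℕ),
    PW G.r B.r (Al (gs G c ∅) B Set.univ Bs) X Y T → (∃ t ≤ T, ¬ W G.r (P.rho i) (X 0) (X t)) →
    ∃ (s : Sk P b i) (tm : Ix P i → ℕ), WF P G i s (X 0) ∧
      (∀ q, tm q ≤ T ∧ er P G i s (X 0) q = X (tm q) ∧ ¬ B.w (Y (tm q))) ∧
      ∀ U : Set V, AF G U → (∀ j, j + 1 < i → Bd P G j (gs G c U)) →
        ∃ p : Pt P i, ∀ q, pa P G c U B Bs i s p (X 0) (Y 0) q = Y (tm q)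

/-! ### Events -/

open Finset

/-- data of a structure on `Fin n` -/
abbrev Dat (K M n : ℕ) : Type :=
  (Fin n → Fin n → Bool) × (Fin n → Fin K) × (Fin n → Fin M) × (Fin n → Bool)

/-- the structure with given data -/
def sD {K M n : ℕ} (d : Dat K M n) : Str K M (Fin n) :=
  ⟨fun x y => d.1 x y = true, d.2.1, d.2.2.1, fun x => d.2.2.2 x = true⟩

/-- events of the first kind (level `i`, structures on `n` points): root, structure, chain of
`Nn i` centres, elements of the structure, skeletons -/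
abbrev EG (P : Par) (V : Type) (b K M i n : ℕ) : Type :=
  V × Dat K M n × (Fin (P.Nn i) → Fin (P.Nn i) × Fin (P.ph (50 * P.rho i))) ×
    (Fin (P.Nn i) → Fin n) × (Fin (P.Nn i) → Sk P b i)

/-- centres -/
noncomputable def zG {V : Type} [Finite V] {b K M i n : ℕ} (P : Par) (G : Base V b K)
    (e : EG P V b K M i n) (l : ℕ) : V := ctr G.r (50 * P.rho i) e.2.2.1 e.1 l

/-- erased vertices -/
noncomputable def eG {V : Type} [Finite V] {b K M i n : ℕ} (P : Par) (G : Base V b K)
    (e : EG P V b K M i n) (q : Fin (P.Nn i) × Ix P i) : V :=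
  er P G i (e.2.2.2.2 q.1) (zG P G e q.1.val) q.2

open Classical in
noncomputable def UG {V : Type} [Finite V] {b K M i n : ℕ} (P : Par) (G : Base V b K)
    (e : EG P V b K M i n) : Finset V := univ.image (eG P G e)

open Classical in
noncomputable def DG {V : Type} [Fintype V] {b K M i n : ℕ} (P : Par) (G : Base V b K)
    (e : EG P V b K M i n) : Finset V :=
  univ.filter (fun x => W G.r (P.Nn i * (50 * P.rho i) + P.rho i) e.1 x)

/-- partners -/
noncomputable def pG {V : Type} [Finite V] {b K M i n : ℕ} (P : Par) (G : Base V b K)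
    (c : V → Fin M) (e : EG P V b K M i n) (p : Fin (P.Nn i) → Pt P i)
    (q : Fin (P.Nn i) × Ix P i) : Fin n :=
  pa P G c (Set.range (eG P G e)) (sD e.2.1) Set.univ i (e.2.2.2.2 q.1) (p q.1)
    (zG P G e q.1.val) (e.2.2.2.1 q.1) q.2

def badG {V : Type} [Finite V] {b K M i n : ℕ} (P : Par) (G : Base V b K)
    (e : EG P V b K M i n) (z : V → Fin M) : Prop :=
  Adm G (sD e.2.1) ∧ Gd P G i n (sD e.2.1) ∧
    Fam P G i (fun k : Fin (P.Nn i) => zG P G e k.val) e.2.2.2.2 ∧
    ∃ p : Fin (P.Nn i) → Pt P i, ∀ q : Fin (P.Nn i) × Ix P i,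
      z (eG P G e q) = (sD e.2.1).c (pG P G z e p q)

/-- events of the second kind: roots `x`, `y`, chain of `m` centres, skeletons -/
abbrev EC (P : Par) (V : Type) (b i m : ℕ) : Type :=
  V × V × (Fin m → Fin m × Fin (P.ph (10 * P.rho i + 1))) × (Fin m → Sk P b i)

/-- centres -/
noncomputable def zC {V : Type} [Finite V] {b K i m : ℕ} (P : Par) (G : Base V b K)
    (e : EC P V b i m) (l : ℕ) : V := ctr G.r (10 * P.rho i + 1) e.2.2.1 e.1 l

/-- erased vertices -/
noncomputable def eC {V : Type} [Finite V] {b K i m : ℕ} (P : Par) (G : Base V b K)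
    (e : EC P V b i m) (q : Fin m × Ix P i) : V :=
  er P G i (e.2.2.2 q.1) (zC P G e q.1.val) q.2

/-- their partners; `U` is the wild set of the decoder -/
noncomputable def pC {V : Type} [Finite V] {b K M i m : ℕ} (P : Par) (G : Base V b K)
    (c : V → Fin M) (rad : ℕ) (e : EC P V b i m)
    (p : Fin m → Fin (P.Xi i) × Pt P i) (q : Fin m × Ix P i) : V :=
  pa P G c (Set.range (eC P G e)) (gs G c ∅) {v | W G.r rad e.2.1 v} i (e.2.2.2 q.1) (p q.1).2
    (zC P G e q.1.val)
    (sel e.2.1 (p q.1).1.val (Prt (gs G c (Set.range (eC P G e))) (gs G c ∅)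
      (reg G.r (zC P G e) m (10 * P.rho i)) {v | W G.r rad e.2.1 v} e.1 e.2.1
      (zC P G e q.1.val))) q.2

open Classical in
noncomputable def UC {V : Type} [Finite V] {b K i m : ℕ} (P : Par) (G : Base V b K)
    (e : EC P V b i m) : Finset V := univ.image (eC P G e)

open Classical in
/-- the two balls of radius `rad` -/
noncomputable def D2 {V : Type} [Fintype V] {b K : ℕ} (G : Base V b K) (rad : ℕ) (x y : V) :
    Finset V := univ.filter (fun u => W G.r rad x u ∨ W G.r rad y u)

def badC {V : Type} [Finite V] {b K M i m : ℕ} (P : Par) (G : Base V b K)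
    (R rad : ℕ) (e : EC P V b i m) (z : V → Fin M) : Prop :=
  Rt G R rad e.1 e.2.1 ∧ Fam P G i (fun k : Fin m => zC P G e k.val) e.2.2.2 ∧
    ∃ p : Fin m → Fin (P.Xi i) × Pt P i, ∀ q : Fin m × Ix P i,
      W G.r rad e.2.1 (pC P G z rad e p q) ∧ z (eC P G e q) = z (pC P G z rad e p q)

/-! ### Numbers -/

/-- number of erased vertices and radius of the windows for the actual parameters -/
def gr : ℕ → ℕ × ℕ
  | 0 => (1, 1)
  | i + 1 => (2 ^ ((gr i).1 / 2 ^ i + 1) * (gr i).1,
      2 ^ ((gr i).1 / 2 ^ i + 1) * (10 * (gr i).2 + 1))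

/-- the actual parameters -/
def tP (ph : ℕ → ℕ) : Par where
  m := fun i => 2 ^ ((gr i).1 / 2 ^ i + 1)
  ph := ph

/-- growth condition with constant `C`: `log2 ph (50 rho_i) ≤ C g_i / 2 ^ i` -/
def Gro (ph : ℕ → ℕ) (C : ℕ) : Prop :=
  ∀ i, ph (50 * (gr i).2) ^ (2 ^ i) ≤ 2 ^ (C * (gr i).1)

/-- `log2` of half of the number of colours -/
def mu (b K C : ℕ) : ℕ := 100 * (C + K + b + 1)

/-- number of colours -/
def Mm (b K C : ℕ) : ℕ := 2 ^ (mu b K C + 1)

end Pool.Agent.SXG
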