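import Pool.Agent.SXG.Defs
import Pool.Agent.LSN.J05
/-!
# SXG: T02, T03 and T04 (regions, chain codes)
-/

set_option autoImplicit false

namespace Pool.Agent.SXG

open Pool.Agent.LSN (W Base Rch PW sel lf reg GC Rt tw)

/-- T02. Regions have at most `m * ph k` points. -/
theorem T02 {V : Type} [Finite V] {b K : ℕ} (P : Par) (G : Base V b K) (hbal : Bal P G)
    (z : ℕ → V) (m k : ℕ) : (reg G.r z m k).ncard ≤ m * P.ph k := by
  induction m with
  | zero =>
    have h : reg G.r z 0 k = ∅ := by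
      ext u
      simp [reg]
    rw [h]
    simp
  | succ m ih =>
    have h : reg G.r z (m + 1) k = reg G.r z m k ∪ {u | W G.r k (z m) u} := by
      ext u
      constructor
      · rintro ⟨l, hl, hu⟩
        rcases Nat.lt_or_ge l m with h1 | h1
        · exact Or.inl ⟨l, h1, hu⟩
        · have : l = m := by omega
          subst this
          exact Or.inr hu
      · rintro (⟨l, hl, hu⟩ | hu)
        · exact ⟨l, by omega, hu⟩
        · exact ⟨m, by omega, hu⟩
    rw [h]
    refine (Set.ncard_union_le _ _).trans ?_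
    rw [Nat.add_mul, Nat.one_mul]
    exact Nat.add_le_add ih (hbal k (z m))

/-- the selected element is in the set, if the default is -/
theorem T03_sel {N : Type} [Finite N] (d : N) (j : ℕ) (A : Set N) (hd : d ∈ A) :
    sel d j A ∈ A := by
  unfold sel
  rcases Nat.lt_or_ge j (Set.toFinite A).toFinset.toList.length with h | h
  · rw [List.getD_eq_getElem _ _ h]
    have h1 := List.getElem_mem h
    rw [Finset.mem_toList, Set.Finite.mem_toFinset] at h1
    exact h1
  · rw [List.getD_eq_default _ _ h]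
    exact hd

/-- beyond the filled part the table still has its initial value -/
theorem T03_out {V : Type} [Finite V] {m p : ℕ} (r : V → V → Prop) (k : ℕ)
    (ch : Fin m → Fin m × Fin p) (x : V) (n l : ℕ) (h : n < l) :
    tab r k ch x n l = x := by
  induction n with
  | zero => rfl
  | succ n ih =>
    simp only [tab]
    rw [Function.update_of_ne (by omega)]
    exact ih (by omega)

theorem T03_tab {V : Type} [Finite V] {m p : ℕ} (r : V → V → Prop) (k : ℕ)
    (ch : Fin m → Fin m × Fin p) (x : V) (n l : ℕ) (h : l ≤ n) :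
    tab r k ch x n l = ctr r k ch x l := by
  induction n with
  | zero =>
    have : l = 0 := by omega
    subst this
    rfl
  | succ n ih =>
    rcases Nat.lt_or_ge l (n + 1) with h1 | h1
    · simp only [tab]
      rw [Function.update_of_ne (by omega)]
      exact ih (by omega)
    · have : l = n + 1 := by omega
      subst this
      rfl

theorem T03_zero {V : Type} [Finite V] {m p : ℕ} (r : V → V → Prop) (k : ℕ)
    (ch : Fin m → Fin m × Fin p) (x : V) : ctr r k ch x 0 = x := rfl

theorem T03_succ {V : Type} [Finite V] {m p : ℕ} (r : V → V → Prop) (k : ℕ)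
    (ch : Fin m → Fin m × Fin p) (x : V) (l : ℕ) (h : l + 1 < m) :
    ctr r k ch x (l + 1) =
      sel (tab r k ch x l (ch ⟨l + 1, h⟩).1) (ch ⟨l + 1, h⟩).2.val
        {u | W r k (tab r k ch x l (ch ⟨l + 1, h⟩).1) u} := by
  simp only [ctr, tab, Function.update_self, dif_pos h]

theorem T03_ge {V : Type} [Finite V] {m p : ℕ} (r : V → V → Prop) (k : ℕ)
    (ch : Fin m → Fin m × Fin p) (x : V) (l : ℕ) (h : ¬ l + 1 < m) :
    ctr r k ch x (l + 1) = x := by
  simp only [ctr, tab, Function.update_self, dif_neg h]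

/-- T03. Elementary facts on `tab` and `ctr`. -/
theorem T03 {V : Type} [Finite V] {b K m p k : ℕ} (G : Base V b K) (ch : Fin m → Fin m × Fin p)
    (x : V) :
    (∀ n l, l ≤ n → tab G.r k ch x n l = ctr G.r k ch x l) ∧ ctr G.r k ch x 0 = x ∧
    ∀ l, W G.r (k * l) x (ctr G.r k ch x l) := by
  refine ⟨fun n l h => T03_tab G.r k ch x n l h, T03_zero G.r k ch x, ?_⟩
  intro l
  induction l using Nat.strong_induction_on with
  | _ l ih =>
    rcases Nat.eq_zero_or_pos l with h0 | h0
    · subst h0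
      rw [T03_zero]
      exact Pool.Agent.LSN.W_refl G.refl _ _
    · obtain ⟨l, rfl⟩ : ∃ j, l = j + 1 := ⟨l - 1, by omega⟩
      by_cases h : l + 1 < m
      · rw [T03_succ G.r k ch x l h]
        have h1 : W G.r (k * l) x (tab G.r k ch x l (ch ⟨l + 1, h⟩).1) := by
          rcases Nat.lt_or_ge l ((ch ⟨l + 1, h⟩).1 : ℕ) with h2 | h2
          · rw [T03_out G.r k ch x l _ h2]
            exact Pool.Agent.LSN.W_refl G.refl _ _
          · rw [T03_tab G.r k ch x l _ h2]
            exact Pool.Agent.LSN.W_mono G.refl (Nat.mul_le_mul_left k h2) (ih _ (by omega))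
        have h2 := T03_sel (tab G.r k ch x l (ch ⟨l + 1, h⟩).1) (ch ⟨l + 1, h⟩).2.val
          {u | W G.r k (tab G.r k ch x l (ch ⟨l + 1, h⟩).1) u}
          (Pool.Agent.LSN.W_refl G.refl _ _)
        exact Pool.Agent.LSN.W_add h1 h2
      · rw [T03_ge G.r k ch x l h]
        exact Pool.Agent.LSN.W_refl G.refl _ _

/-- T04. Chains have codes. -/
theorem T04 {V : Type} [Finite V] {b K : ℕ} (G : Base V b K) (z : ℕ → V) (m k p : ℕ)
    (hp : ∀ v, {u | W G.r k v u}.ncard ≤ p)
    (hz : ∀ l, 1 ≤ l → l < m → ∃ a < l, W G.r k (z a) (z l)) :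
    ∃ ch : Fin m → Fin m × Fin p, ∀ l < m, ctr G.r k ch (z 0) l = z l := by
  have h0 : ∀ v u, W G.r k v u → ∃ j : Fin p, sel v j.val {w | W G.r k v w} = u := by
    intro v u h
    obtain ⟨j, hj, hj2⟩ := Pool.Agent.LSN.T06 v {w | W G.r k v w} u h
    exact ⟨⟨j, lt_of_lt_of_le hj (hp v)⟩, hj2⟩
  have h1 : ∀ l : Fin m, ∃ c : Fin m × Fin p,
      1 ≤ (l : ℕ) → ((c.1 : ℕ) < l ∧
        sel (z c.1) c.2.val {w | W G.r k (z c.1) w} = z l) := by
    intro l
    by_cases hl : 1 ≤ (l : ℕ)
    · obtain ⟨a, ha, hW⟩ := hz l hl l.2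
      obtain ⟨f, hf⟩ := h0 _ _ hW
      exact ⟨(⟨a, lt_trans ha l.2⟩, f), fun _ => ⟨ha, hf⟩⟩
    · obtain ⟨f, hf⟩ := h0 _ _ (Pool.Agent.LSN.W_refl G.refl k (z 0))
      exact ⟨(l, f), fun h => absurd h hl⟩
  choose ch hch using h1
  refine ⟨ch, ?_⟩
  intro l
  induction l using Nat.strong_induction_on with
  | _ l ih =>
    intro hl
    rcases Nat.eq_zero_or_pos l with h0 | h0
    · subst h0
      rfl
    · obtain ⟨l, rfl⟩ : ∃ j, l = j + 1 := ⟨l - 1, by omega⟩
      obtain ⟨h2, h3⟩ := hch ⟨l + 1, hl⟩ (by simp)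
      simp only at h2 h3
      rw [T03_succ G.r k ch (z 0) l hl, T03_tab G.r k ch (z 0) l _ (by omega),
        ih _ (by omega) (by omega)]
      exact h3

end Pool.Agent.SXG
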