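import Pool.Agent.SXG.Defs
import Pool.Agent.SXG.J02
/-!
# SXG: T05 and T07 (windows are local)
-/

set_option autoImplicit false

namespace Pool.Agent.SXG

open Pool.Agent.LSN (W Base Rch PW sel lf reg GC Rt tw)
open Pool.Agent.LSN (W_mono W_add W_one W_refl)

/-- Erased vertices are near the centre. -/
theorem T05 {V : Type} [Finite V] {b K : ℕ} (P : Par) (G : Base V b K) (i : ℕ) (s : Sk P b i)
    (x : V) (q : Ix P i) : W G.r (P.rho i) x (er P G i s x q) := by
  induction i generalizing x with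
  | zero =>
    show W G.r 1 x (G.nb x s)
    rw [W_one, G.nb_r]
    exact ⟨s, rfl⟩
  | succ i ih =>
    obtain ⟨s1, s2⟩ := s
    obtain ⟨l, q⟩ := q
    have h1 := (T03 (k := 10 * P.rho i + 1) G s1 x).2.2 l.val
    have h2 := ih (s2 l) (ctr G.r (10 * P.rho i + 1) s1 x l.val) q
    have h3 : (10 * P.rho i + 1) * l.val + P.rho i ≤ P.rho (i + 1) := by
      have hl : l.val + 1 ≤ P.m i := l.is_lt
      calc (10 * P.rho i + 1) * l.val + P.rho i ≤ (10 * P.rho i + 1) * (l.val + 1) := by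
            rw [Nat.mul_add]; omega
        _ ≤ (10 * P.rho i + 1) * P.m i := Nat.mul_le_mul_left _ hl
        _ = P.rho (i + 1) := Nat.mul_comm _ _
    exact W_mono G.refl h3 (W_add h1 h2)

theorem T07 {V N : Type} {b K M : ℕ} [Finite V] [Finite N] (P : Par) (G : Base V b K)
    (c c' : V → Fin M) (U : Set V) (r' : N → N → Prop) (col' : N → Fin K) (d d' : N → Fin M)
    (w : N → Prop) (Bs : Set N) (i : ℕ) (s : Sk P b i) (p : Pt P i) (x : V) (y : N)
    (q : Ix P i) (hc : ∀ v, W G.r (P.rho i) x v → v ∉ U → c v = c' v)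
    (hd : ∀ v ∈ Bs, d v = d' v) :
    pa P G c U ⟨r', col', d, w⟩ Bs i s p x y q = pa P G c' U ⟨r', col', d', w⟩ Bs i s p x y q := by
  induction i generalizing x y with
  | zero => rfl
  | succ i ih =>
    have hrho : P.rho (i + 1) = P.m i * (10 * P.rho i + 1) := rfl
    have hctr : ∀ l, W G.r ((10 * P.rho i + 1) * l) x (ctr G.r (10 * P.rho i + 1) s.1 x l) :=
      (T03 G s.1 x).2.2
    have hreg : ∀ u ∈ reg G.r (ctr G.r (10 * P.rho i + 1) s.1 x) (P.m i) (10 * P.rho i),
        W G.r (P.rho (i + 1)) x u := by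
      rintro u ⟨l, hl, hu⟩
      refine W_mono G.refl ?_ (W_add (hctr l) hu)
      rw [hrho]
      have h1 : (10 * P.rho i + 1) * (l + 1) ≤ (10 * P.rho i + 1) * P.m i :=
        Nat.mul_le_mul_left _ hl
      rw [mul_comm (P.m i)]
      refine le_trans ?_ h1
      rw [Nat.mul_add]
      omega
    have hAl : Al (gs G c U) (⟨r', col', d, w⟩ : Str K M N)
        (reg G.r (ctr G.r (10 * P.rho i + 1) s.1 x) (P.m i) (10 * P.rho i)) Bs =
        Al (gs G c' U) (⟨r', col', d', w⟩ : Str K M N)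
        (reg G.r (ctr G.r (10 * P.rho i + 1) s.1 x) (P.m i) (10 * P.rho i)) Bs := by
      funext u v
      unfold Al Mt
      refine propext (and_congr_right fun hu => and_congr_right fun hv =>
        and_congr_right fun _ => ?_)
      show (u ∈ U ∨ w v ∨ c u = d v) ↔ (u ∈ U ∨ w v ∨ c' u = d' v)
      by_cases h : u ∈ U
      · simp [h]
      · rw [hc u (hreg u hu) h, hd v hv]
    have hPrt : ∀ u, Prt (gs G c U) (⟨r', col', d, w⟩ : Str K M N)
        (reg G.r (ctr G.r (10 * P.rho i + 1) s.1 x) (P.m i) (10 * P.rho i)) Bs x y u =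
        Prt (gs G c' U) (⟨r', col', d', w⟩ : Str K M N)
        (reg G.r (ctr G.r (10 * P.rho i + 1) s.1 x) (P.m i) (10 * P.rho i)) Bs x y u := by
      intro u
      unfold Prt
      rw [hAl]
      rfl
    show pa P G c U ⟨r', col', d, w⟩ Bs i (s.2 q.1) (p q.1).2
      (ctr G.r (10 * P.rho i + 1) s.1 x q.1.val)
      (sel y (p q.1).1.val (Prt (gs G c U) (⟨r', col', d, w⟩ : Str K M N)
        (reg G.r (ctr G.r (10 * P.rho i + 1) s.1 x) (P.m i) (10 * P.rho i)) Bs x y
        (ctr G.r (10 * P.rho i + 1) s.1 x q.1.val))) q.2 =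
      pa P G c' U ⟨r', col', d', w⟩ Bs i (s.2 q.1) (p q.1).2
      (ctr G.r (10 * P.rho i + 1) s.1 x q.1.val)
      (sel y (p q.1).1.val (Prt (gs G c' U) (⟨r', col', d', w⟩ : Str K M N)
        (reg G.r (ctr G.r (10 * P.rho i + 1) s.1 x) (P.m i) (10 * P.rho i)) Bs x y
        (ctr G.r (10 * P.rho i + 1) s.1 x q.1.val))) q.2
    rw [hPrt]
    refine ih _ _ _ _ _ ?_
    intro v hv hU
    refine hc v (W_mono G.refl ?_ (W_add (hctr q.1.val) hv)) hU
    rw [hrho]
    have h1 : (10 * P.rho i + 1) * (q.1.val + 1) ≤ (10 * P.rho i + 1) * P.m i :=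
      Nat.mul_le_mul_left _ q.1.isLt
    rw [mul_comm (P.m i)]
    refine le_trans ?_ h1
    rw [Nat.mul_add]
    omega

end Pool.Agent.SXG
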