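import Pool.Agent.SXG.J02
import Pool.Agent.SXG.J05
import Pool.Agent.SXG.Defs
import Pool.Agent.LSN.Basic

/-!
# SXG: T15 (sizes), T50, T51 (separation of erased vertices)
-/

set_option autoImplicit false

namespace Pool.Agent.SXG

open Pool.Agent.LSN (W Base Rch PW sel lf reg GC Rt tw)

lemma T15_step (P : Par) (hP : P.Ok) (i : ℕ) : 20 * P.rho i + 2 ≤ P.rho (i + 1) := by
  have h := hP.1 i
  have h1 : P.rho (i + 1) = P.m i * (10 * P.rho i + 1) := rfl
  rw [h1]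
  calc 20 * P.rho i + 2 = 2 * (10 * P.rho i + 1) := by ring
    _ ≤ P.m i * (10 * P.rho i + 1) := Nat.mul_le_mul_right _ h

lemma T15_mono (P : Par) (hP : P.Ok) : Monotone P.rho :=
  monotone_nat_of_le_succ (fun i => by have := T15_step P hP i; omega)

/-- T15 -/
theorem T15 (P : Par) (hP : P.Ok) :
    (∀ i, 1 ≤ P.rho i) ∧ (∀ j i, j ≤ i → P.rho j ≤ P.rho i) ∧
    (∀ j i, j < i → 20 * P.rho j ≤ P.rho i) ∧ (∀ i, 2 ≤ P.xi i) ∧ (∀ i, 2 ≤ P.Nn i) ∧
    ∀ i, 0 < P.Xi i := by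
  have hm := T15_mono P hP
  have h1 : ∀ i, 1 ≤ P.rho i := fun i => by
    have h0 : P.rho 0 = 1 := rfl
    have := hm (Nat.zero_le i)
    omega
  have hxi : ∀ i, 2 ≤ P.xi i := fun i => by
    have ha := hP.1 i
    have hb := hP.2.1 (10 * P.rho i)
    calc 2 = 2 * 1 := rfl
      _ ≤ P.m i * P.ph (10 * P.rho i) := Nat.mul_le_mul ha hb
  have hNn : ∀ i, 2 ≤ P.Nn i := fun i => by
    calc 2 ≤ P.xi i := hxi i
      _ = P.xi i ^ 1 := (pow_one _).symm
      _ ≤ P.xi i ^ 3 := Nat.pow_le_pow_right (by have := hxi i; omega) (by norm_num)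
  refine ⟨h1, fun j i h => hm h, fun j i h => ?_, hxi, hNn, fun i => ?_⟩
  · have h2 := T15_step P hP j
    have h3 : P.rho (j + 1) ≤ P.rho i := hm h
    omega
  · exact Nat.mul_pos (by have := hNn i; omega) (hP.2.1 _)

/-- the family version, from the version for one window -/
lemma T50_fam {V κ : Type} [Finite V] {b K : ℕ} (P : Par) (hP : P.Ok) (G : Base V b K) (i : ℕ)
    (h50 : ∀ (s : Sk P b i) (x : V), WF P G i s x →
      (∀ q q' : Ix P i, G.r (er P G i s x q) (er P G i s x q') → q = q') ∧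
      ∀ j ≤ i, ∃ Z : Set V, (∀ z ∈ Z, W G.r (P.rho i) x z) ∧
        (∀ z ∈ Z, ∀ z' ∈ Z, z ≠ z' → ¬ W G.r (10 * P.rho j) z z') ∧
        ∀ q, ∃ z ∈ Z, W G.r (P.rho j) z (er P G i s x q))
    (z : κ → V) (s : κ → Sk P b i) (h : Fam P G i z s) :
    (∀ a a' : κ × Ix P i, G.r (er P G i (s a.1) (z a.1) a.2) (er P G i (s a'.1) (z a'.1) a'.2) →
      a = a') ∧
    ∀ j ≤ i, ∃ Z : Set V, (∀ y ∈ Z, ∃ k, W G.r (P.rho i) (z k) y) ∧
      (∀ y ∈ Z, ∀ y' ∈ Z, y ≠ y' → ¬ W G.r (10 * P.rho j) y y') ∧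
      ∀ a : κ × Ix P i, ∃ y ∈ Z, W G.r (P.rho j) y (er P G i (s a.1) (z a.1) a.2) := by
  obtain ⟨hr1, hrm, hr20, -, -, -⟩ := T15 P hP
  have h1i := hr1 i
  refine ⟨?_, ?_⟩
  · rintro ⟨k, q⟩ ⟨k', q'⟩ hadj
    by_cases hk : k = k'
    · subst hk
      have := (h50 (s k) (z k) (h.2 k)).1 q q' hadj
      rw [this]
    · exfalso
      apply h.1 k k' hk
      have h1 : W G.r (P.rho i) (z k) (er P G i (s k) (z k) q) := T05 P G i (s k) (z k) q
      have h2 : W G.r (P.rho i) (z k') (er P G i (s k') (z k') q') :=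
        T05 P G i (s k') (z k') q'
      have h3 := LSN.W_add (LSN.W_add h1 (LSN.W_one.2 hadj)) (LSN.W_symm G.symm h2)
      exact LSN.W_mono G.refl (by omega) h3
  · intro j hj
    rcases Nat.lt_or_ge j i with hji | hji
    · have hex : ∀ k, ∃ Z : Set V, (∀ y ∈ Z, W G.r (P.rho i) (z k) y) ∧
          (∀ y ∈ Z, ∀ y' ∈ Z, y ≠ y' → ¬ W G.r (10 * P.rho j) y y') ∧
          ∀ q, ∃ y ∈ Z, W G.r (P.rho j) y (er P G i (s k) (z k) q) :=
        fun k => (h50 (s k) (z k) (h.2 k)).2 j hj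
      choose Z hZ1 hZ2 hZ3 using hex
      refine ⟨⋃ k, Z k, ?_, ?_, ?_⟩
      · intro y hy
        obtain ⟨k, hk⟩ := Set.mem_iUnion.1 hy
        exact ⟨k, hZ1 k y hk⟩
      · intro y hy y' hy' hne hW
        obtain ⟨k, hk⟩ := Set.mem_iUnion.1 hy
        obtain ⟨k', hk'⟩ := Set.mem_iUnion.1 hy'
        by_cases hkk : k = k'
        · subst hkk
          exact hZ2 k y hk y' hk' hne hW
        · apply h.1 k k' hkk
          have h3 := LSN.W_add (LSN.W_add (hZ1 k y hk) hW) (LSN.W_symm G.symm (hZ1 k' y' hk'))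
          have h4 := hr20 j i hji
          exact LSN.W_mono G.refl (by omega) h3
      · rintro ⟨k, q⟩
        obtain ⟨y, hy, hW⟩ := hZ3 k q
        exact ⟨y, Set.mem_iUnion.2 ⟨k, hy⟩, hW⟩
    · have hij : j = i := le_antisymm hj hji
      subst hij
      refine ⟨Set.range z, ?_, ?_, ?_⟩
      · rintro y ⟨k, rfl⟩
        exact ⟨k, LSN.W_refl G.refl _ _⟩
      · rintro y ⟨k, rfl⟩ y' ⟨k', rfl⟩ hne
        exact h.1 k k' (fun hkk => hne (by rw [hkk]))
      · rintro ⟨k, q⟩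
        exact ⟨z k, ⟨k, rfl⟩, T05 P G j (s k) (z k) q⟩

/-- T50 -/
theorem T50 {V : Type} [Finite V] {b K : ℕ} (P : Par) (hP : P.Ok) (G : Base V b K) (i : ℕ)
    (s : Sk P b i) (x : V) (h : WF P G i s x) :
    (∀ q q' : Ix P i, G.r (er P G i s x q) (er P G i s x q') → q = q') ∧
    ∀ j ≤ i, ∃ Z : Set V, (∀ z ∈ Z, W G.r (P.rho i) x z) ∧
      (∀ z ∈ Z, ∀ z' ∈ Z, z ≠ z' → ¬ W G.r (10 * P.rho j) z z') ∧
      ∀ q, ∃ z ∈ Z, W G.r (P.rho j) z (er P G i s x q) := by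
  induction i generalizing x with
  | zero =>
    refine ⟨fun q q' _ => Subsingleton.elim (α := Unit) q q', fun j hj => ?_⟩
    have hj0 : j = 0 := by omega
    subst hj0
    refine ⟨{x}, ?_, ?_, ?_⟩
    · intro z hz
      rw [Set.mem_singleton_iff] at hz
      rw [hz]
      exact LSN.W_refl G.refl _ _
    · intro z hz z' hz' hne
      rw [Set.mem_singleton_iff] at hz hz'
      exact absurd (hz.trans hz'.symm) hne
    · intro q
      exact ⟨x, rfl, T05 P G 0 s x q⟩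
  | succ i ih =>
    obtain ⟨hr1, hrm, hr20, -, -, -⟩ := T15 P hP
    have hfam : Fam P G i
        (fun l : Fin (P.m i) => ctr G.r (10 * P.rho i + 1) s.1 x l.val) s.2 := h
    obtain ⟨hA, hB⟩ := T50_fam P hP G i (fun s x hs => ih s x hs) _ _ hfam
    refine ⟨?_, ?_⟩
    · intro q q' hadj
      exact hA q q' hadj
    · intro j hj
      rcases Nat.lt_or_ge i j with hji | hji
      · have hj1 : j = i + 1 := by omega
        subst hj1
        refine ⟨{x}, ?_, ?_, ?_⟩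
        · intro z hz
          rw [Set.mem_singleton_iff] at hz
          rw [hz]
          exact LSN.W_refl G.refl _ _
        · intro z hz z' hz' hne
          rw [Set.mem_singleton_iff] at hz hz'
          exact absurd (hz.trans hz'.symm) hne
        · intro q
          exact ⟨x, rfl, T05 P G (i + 1) s x q⟩
      · obtain ⟨Z, hZ1, hZ2, hZ3⟩ := hB j hji
        refine ⟨Z, ?_, hZ2, fun q => hZ3 q⟩
        intro y hy
        obtain ⟨l, hl⟩ := hZ1 y hy
        have h3 := (T03 G s.1 x (k := 10 * P.rho i + 1)).2.2 l.val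
        have h4 := LSN.W_add h3 hl
        refine LSN.W_mono G.refl ?_ h4
        have hlm : l.val + 1 ≤ P.m i := l.isLt
        have h5 : P.rho (i + 1) = P.m i * (10 * P.rho i + 1) := rfl
        rw [h5]
        calc (10 * P.rho i + 1) * l.val + P.rho i
            ≤ (10 * P.rho i + 1) * l.val + (10 * P.rho i + 1) := by omega
          _ = (l.val + 1) * (10 * P.rho i + 1) := by ring
          _ ≤ P.m i * (10 * P.rho i + 1) := Nat.mul_le_mul_right _ hlm

/-- T51 -/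
theorem T51 {V κ : Type} [Finite V] {b K : ℕ} (P : Par) (hP : P.Ok) (G : Base V b K) (i : ℕ)
    (z : κ → V) (s : κ → Sk P b i) (h : Fam P G i z s) :
    (∀ a a' : κ × Ix P i, G.r (er P G i (s a.1) (z a.1) a.2) (er P G i (s a'.1) (z a'.1) a'.2) →
      a = a') ∧
    (∀ j ≤ i, Sep P G j (Set.range (fun a : κ × Ix P i => er P G i (s a.1) (z a.1) a.2))) ∧
    AF G (Set.range (fun a : κ × Ix P i => er P G i (s a.1) (z a.1) a.2)) := by
  obtain ⟨hA, hB⟩ := T50_fam P hP G i (fun s x hs => T50 P hP G i s x hs) z s h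
  refine ⟨hA, ?_, ?_⟩
  · intro j hj
    obtain ⟨Z, -, hZ2, hZ3⟩ := hB j hj
    refine ⟨Z, hZ2, ?_⟩
    rintro u ⟨a, rfl⟩
    exact hZ3 a
  · rintro u ⟨a, rfl⟩ u' ⟨a', rfl⟩ hadj
    have := hA a a' hadj
    rw [this]

end Pool.Agent.SXG
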