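import Pool.Agent.SXG.Defs

set_option autoImplicit false

namespace Pool.Agent.SXG

open Pool.Agent.LSN (W Base Rch PW sel lf reg GC Rt tw)

theorem T16 {V N : Type} {b K M : ℕ} (G : Base V b K) (B : Str K M N) (hB : Adm G B)
    (y y' : N) (h : y' = y ∨ B.r y y') (k : Fin K) (hk : B.col y' = k) :
    lf B.r B.col (fun _ => k) y 1 = y' := by
  obtain ⟨-, ⟨f, hf, hfr, hfc⟩, -⟩ := hB
  by_cases h2 : ∃ w, B.r (lf B.r B.col (fun _ => k) y 0) w ∧ B.col w = k
  · have h1 : lf B.r B.col (fun _ => k) y (0 + 1) = h2.choose := by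
      unfold lf
      exact dif_pos h2
    have h3 : B.r y (lf B.r B.col (fun _ => k) y (0 + 1)) ∧
        B.col (lf B.r B.col (fun _ => k) y (0 + 1)) = k := by
      rw [h1]
      exact h2.choose_spec
    apply hf
    rcases h with h | h
    · subst h
      refine G.loc (f y') _ _ (hfr _ _ h3.1) (G.refl _) ?_
      rw [← hfc, ← hfc, h3.2, hk]
    · refine G.loc (f y) _ _ (hfr _ _ h3.1) (hfr _ _ h) ?_
      rw [← hfc, ← hfc, h3.2, hk]
  · have h1 : lf B.r B.col (fun _ => k) y (0 + 1) = y := by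
      unfold lf
      exact dif_neg h2
    rcases h with h | h
    · rw [h]; exact h1
    · exact absurd ⟨y', h, hk⟩ h2

theorem T17 {V : Type} {b K M : ℕ} [Finite V] (P : Par) (G : Base V b K)
    (c : V → Fin M) : WL P G c 0 := by
  classical
  intro N _ B Bs hB _ X Y T hW hfar
  have hB' := hB
  obtain ⟨-, ⟨f, hf, hfr, hfc⟩, hwild⟩ := hB'
  have hex : ∃ t, t ≤ T ∧ X t ≠ X 0 := by
    obtain ⟨t, ht, hn⟩ := hfar
    refine ⟨t, ht, fun h => hn ?_⟩
    rw [h]
    exact LSN.W_refl G.refl _ _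
  have hcol : ∀ t ≤ T, G.col (X t) = B.col (Y t) := fun t ht => (hW.2 t ht).2.2.1
  obtain ⟨t0, ht0⟩ : ∃ t0, Nat.find hex = t0 + 1 := by
    refine Nat.exists_eq_succ_of_ne_zero fun h => ?_
    have h2 := (Nat.find_spec hex).2
    rw [h] at h2
    exact h2 rfl
  have hsp := Nat.find_spec hex
  rw [ht0] at hsp
  have hmin : ∀ t ≤ t0, X t = X 0 := by
    intro t ht
    by_contra hne
    exact Nat.find_min hex (m := t) (by omega) ⟨by omega, hne⟩
  have hY0 : ∀ t ≤ t0, Y t = Y 0 := by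
    intro t
    induction t with
    | zero => intro _; rfl
    | succ t ih =>
      intro ht
      rw [← ih (by omega)]
      apply hf
      refine G.loc (f (Y t)) _ _ (hfr _ _ (hW.1 t (by omega)).2) (G.refl _) ?_
      rw [← hfc, ← hfc, ← hcol _ (by omega), ← hcol _ (by omega), hmin _ ht,
        hmin t (by omega)]
  have hX1 : G.r (X 0) (X (t0 + 1)) := by
    have h1 := (hW.1 t0 (by omega)).1
    rwa [hmin t0 le_rfl] at h1
  have hY1 : B.r (Y 0) (Y (t0 + 1)) := by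
    have h1 := (hW.1 t0 (by omega)).2
    rwa [hY0 t0 le_rfl] at h1
  have hne : Y 0 ≠ Y (t0 + 1) := by
    intro h
    apply hsp.2
    refine G.loc (X 0) _ _ hX1 (G.refl _) ?_
    rw [hcol _ hsp.1, ← h, hcol 0 (by omega)]
  have hnw : ¬ B.w (Y 0) ∨ ¬ B.w (Y (t0 + 1)) := by
    by_contra hcon
    push Not at hcon
    exact hne (hwild _ _ hY1 hcon.1 hcon.2)
  rcases hnw with hnw | hnw
  · obtain ⟨a, ha⟩ := (G.nb_r (X 0) (X 0)).1 (G.refl _)
    refine ⟨a, fun _ => 0, trivial, fun q => ⟨Nat.zero_le T, ha, hnw⟩, fun U _ _ => ⟨(), fun q => ?_⟩⟩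
    change lf B.r B.col (fun _ => G.col (G.nb (X 0) a)) (Y 0) 1 = Y 0
    refine T16 G B hB _ _ (Or.inl rfl) _ ?_
    rw [ha, hcol 0 (by omega)]
  · obtain ⟨a, ha⟩ := (G.nb_r (X 0) (X (t0 + 1))).1 hX1
    refine ⟨a, fun _ => t0 + 1, trivial, fun q => ⟨hsp.1, ha, hnw⟩,
      fun U _ _ => ⟨(), fun q => ?_⟩⟩
    change lf B.r B.col (fun _ => G.col (G.nb (X 0) a)) (Y 0) 1 = Y (t0 + 1)
    refine T16 G B hB _ _ (Or.inr hY1) _ ?_
    rw [ha, hcol _ hsp.1]

end Pool.Agent.SXG
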