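import Pool.Agent.SXG.J02
import Pool.Agent.SXG.J05
import Pool.Agent.SXG.J08
import Pool.Agent.SXG.J15
import Pool.Agent.SXG.J16
import Pool.Agent.LSN.J12
import Pool.Agent.LSN.J18
/-!
# SXG: T18 and T19 (window lemma)
-/

set_option autoImplicit false

namespace Pool.Agent.SXG

open Pool.Agent.LSN (W Base Rch PW sel lf reg GC Rt tw)
open Pool.Agent.LSN (W_mono W_add W_one W_refl PW_shift PW_rev PW_Rch T12 T13 T06 T18_mono T18_far)

/-- the window of level `i` around a visited centre -/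
theorem T18_win {V : Type} [Finite V] {b K M : ℕ} (P : Par) (G : Base V b K) (c : V → Fin M)
    (i : ℕ) (h : WL P G c i) (N : Type) [Finite N]
    (B : Str K M N) (Bs : Set N) (hA : Adm G B) (hB : ∀ j < i, Bd P G j B)
    (X : ℕ → V) (Y : ℕ → N) (T : ℕ) (hW : PW G.r B.r (Al (gs G c ∅) B Set.univ Bs) X Y T)
    (a a' : ℕ) (ha : a ≤ T) (ha' : a' ≤ T) (hfar : ¬ W G.r (P.rho i) (X a) (X a')) :
    ∃ (s : Sk P b i) (tm : Ix P i → ℕ), WF P G i s (X a) ∧
      (∀ q, tm q ≤ T ∧ er P G i s (X a) q = X (tm q) ∧ ¬ B.w (Y (tm q))) ∧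
      ∀ U : Set V, AF G U → (∀ j, j + 1 < i → Bd P G j (gs G c U)) →
        ∃ p : Pt P i, ∀ q, pa P G c U B Bs i s p (X a) (Y a) q = Y (tm q) := by
  rcases Nat.le_total a a' with h1 | h1
  · have h2 := PW_shift hW ha
    obtain ⟨s, tm, hs, hq, hU⟩ := h N B Bs hA hB _ _ _ h2
      ⟨a' - a, by omega, by
        show ¬ W G.r (P.rho i) (X (a + 0)) (X (a + (a' - a)))
        rw [Nat.add_sub_cancel' h1]
        exact hfar⟩
    refine ⟨s, fun q => a + tm q, hs, fun q => ?_, fun U h3 h4 => ?_⟩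
    · obtain ⟨ht, h3, h4⟩ := hq q
      exact ⟨show a + tm q ≤ T by omega, h3, h4⟩
    · exact hU U h3 h4
  · have h2 := PW_rev G.symm hA.1 hW ha
    have h2' : PW G.r B.r (Al (gs G c ∅) B Set.univ Bs) (fun t => X (a - t))
        (fun t => Y (a - t)) (a - a') :=
      ⟨fun t ht => h2.1 t (by omega), fun t ht => h2.2 t (by omega)⟩
    obtain ⟨s, tm, hs, hq, hU⟩ := h N B Bs hA hB _ _ _ h2'
      ⟨a - a', by omega, by
        show ¬ W G.r (P.rho i) (X (a - 0)) (X (a - (a - a')))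
        rw [Nat.sub_sub_self h1]
        exact hfar⟩
    refine ⟨s, fun q => a - tm q, hs, fun q => ?_, fun U h3 h4 => ?_⟩
    · obtain ⟨ht, h3, h4⟩ := hq q
      exact ⟨show a - tm q ≤ T by omega, h3, h4⟩
    · exact hU U h3 h4

/-- T18. Window lemma, step `i → i + 1`. -/
theorem T18 {V : Type} {b K M : ℕ} [Finite V] (P : Par) (hP : P.Ok)
    (G : Base V b K) (hbal : Bal P G) (c : V → Fin M) (i : ℕ) (h : WL P G c i) :
    WL P G c (i + 1) := by
  intro N _ B Bs hA hB X Y T hW hfar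
  have hm2 : 2 ≤ P.m i := hP.1 i
  have hrho : P.rho (i + 1) = P.m i * (10 * P.rho i + 1) := rfl
  obtain ⟨tau, hGC, hT⟩ : ∃ tau, GC G.r X (10 * P.rho i) (P.m i) tau ∧ tau (P.m i - 1) ≤ T := by
    rcases T12 G.r G.refl X T (10 * P.rho i) (P.m i) (by omega)
      (fun t ht => (hW.1 t ht).1) with h1 | h1
    · exact h1
    · exfalso
      obtain ⟨m', hm1, hm', tau, hGC, _, hcov⟩ := h1
      obtain ⟨t, ht, hfar⟩ := hfar
      obtain ⟨l, hl, hWl⟩ := hcov t ht
      apply hfar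
      refine W_mono G.refl ?_ ((T13 G.r G.refl X _ m' tau hGC).2 (X t) l hl hWl)
      rw [hrho]
      have h2 : (10 * P.rho i + 1) * m' ≤ (10 * P.rho i + 1) * P.m i :=
        Nat.mul_le_mul_left _ hm'.le
      rw [mul_comm (P.m i)]
      omega
  have hmono := T18_mono hGC
  have hlT : ∀ l < P.m i, tau l ≤ T := fun l hl =>
    (hmono (P.m i - 1) l (by omega) (by omega)).trans hT
  have htau0 : tau 0 = 0 := hGC.1
  obtain ⟨ch, hch0⟩ := T04 G (fun l => X (tau l)) (P.m i) (10 * P.rho i + 1)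
    (P.ph (10 * P.rho i + 1)) (fun v => hbal _ v) hGC.2.2.2.1
  have hch : ∀ l < P.m i, ctr G.r (10 * P.rho i + 1) ch (X 0) l = X (tau l) := by
    intro l hl
    have h1 := hch0 l hl
    simp only [htau0] at h1
    exact h1
  -- the windows around the centres
  have hwin : ∀ l : Fin (P.m i), ∃ (s : Sk P b i) (tm : Ix P i → ℕ),
      WF P G i s (X (tau l)) ∧
      (∀ q, tm q ≤ T ∧ er P G i s (X (tau l)) q = X (tm q) ∧ ¬ B.w (Y (tm q))) ∧
      ∀ U : Set V, AF G U → (∀ j, j + 1 < i → Bd P G j (gs G c U)) →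
        ∃ p : Pt P i, ∀ q, pa P G c U B Bs i s p (X (tau l)) (Y (tau l)) q = Y (tm q) := by
    intro l
    obtain ⟨l', hl', hne⟩ : ∃ l' < P.m i, (l : ℕ) ≠ l' := by
      by_cases h0 : (l : ℕ) = 0
      · exact ⟨1, by omega, by omega⟩
      · exact ⟨0, by omega, h0⟩
    refine T18_win P G c i h N B Bs hA (fun j hj => hB j (by omega))
      X Y T hW (tau l) (tau l') (hlT l l.2) (hlT l' hl') ?_
    intro h1
    exact T18_far G.symm hGC l l' hne l.2 hl' (W_mono G.refl (by omega) h1)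
  choose s tm hwf htm hptU using hwin
  let S : Sk P b (i + 1) := (ch, s)
  refine ⟨S, fun q => tm q.1 q.2, ⟨?_, ?_⟩, ?_, ?_⟩
  · intro l l' hne
    rw [hch _ l.2, hch _ l'.2]
    exact T18_far G.symm hGC l l' (fun h4 => hne (Fin.ext h4)) l.2 l'.2
  · intro l
    show WF P G i (s l) (ctr G.r (10 * P.rho i + 1) ch (X 0) l.val)
    rw [hch _ l.2]
    exact hwf l
  · rintro (q : Fin (P.m i) × Ix P i)
    obtain ⟨h1, h2, h3⟩ := htm q.1 q.2
    refine ⟨h1, ?_, h3⟩
    show er P G i (s q.1) (ctr G.r (10 * P.rho i + 1) ch (X 0) q.1.val) q.2 = _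
    rw [hch _ q.1.2]
    exact h2
  intro U hAF hUB
  have hp : ∀ l : Fin (P.m i), ∃ p : Pt P i, ∀ q,
      pa P G c U B Bs i (s l) p (X (tau l)) (Y (tau l)) q = Y (tm l q) :=
    fun l => hptU l U hAF (fun j hj => hUB j (by omega))
  choose p hp using hp
  -- the pointers to the partners of the centres
  set R : Set V := reg G.r (ctr G.r (10 * P.rho i + 1) ch (X 0)) (P.m i) (10 * P.rho i) with hR
  have hPW : PW G.r B.r (Al (gs G c U) B R Bs) X Y (tau (P.m i - 1)) := by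
    refine ⟨fun t ht => hW.1 t (by omega), fun t ht => ?_⟩
    obtain ⟨_, h2, h3, h3'⟩ := hW.2 t (by omega)
    refine ⟨?_, h2, h3, ?_⟩
    · obtain ⟨l, hl, _, h4⟩ := hGC.2.2.2.2 t ht
      refine ⟨l, hl, ?_⟩
      rw [hch l hl]
      exact h4
    · rcases h3' with h4 | h4
      · exact h4.elim
      · exact Or.inr h4
  have hXi : 0 < P.Xi i := (T15 P hP).2.2.2.2.2 i
  have hptr : ∀ l : Fin (P.m i), ∃ k : Fin (P.Xi i),
      sel (Y 0) k.val (Prt (gs G c U) B R Bs (X 0) (Y 0) (X (tau l))) = Y (tau l) := by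
    intro l
    have h1 : Y (tau l) ∈ Prt (gs G c U) B R Bs (X 0) (Y 0) (X (tau l)) :=
      PW_Rch hPW (Nat.zero_le _) (hmono (P.m i - 1) l (by omega) (by omega))
    have h2 : (Prt (gs G c U) B R Bs (X 0) (Y 0) (X (tau l))).ncard < P.Xi i :=
      T11 P G c U hAF i (fun j hj => hUB j (by omega)) B (hB i (by omega)) Bs R
        (T02 P G hbal _ _ _) hXi _ _ _
    obtain ⟨k, hk, hsel⟩ := T06 (Y 0) _ _ h1
    exact ⟨⟨k, by omega⟩, hsel⟩
  choose k hk using hptr
  refine ⟨(fun l => (k l, p l) : Pt P (i + 1)), ?_⟩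
  rintro (q : Fin (P.m i) × Ix P i)
  show pa P G c U B Bs i (s q.1) (p q.1) (ctr G.r (10 * P.rho i + 1) ch (X 0) q.1.val)
    (sel (Y 0) (k q.1).val (Prt (gs G c U) B R Bs (X 0) (Y 0)
      (ctr G.r (10 * P.rho i + 1) ch (X 0) q.1.val))) q.2 = _
  rw [hch _ q.1.2, hk]
  exact hp q.1 q.2

/-- T19. All window lemmas: induction, T17, T18. -/
theorem T19 {V : Type} {b K M : ℕ} [Finite V] (P : Par) (hP : P.Ok)
    (G : Base V b K) (hbal : Bal P G) (c : V → Fin M) (i : ℕ) : WL P G c i := by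
  induction i with
  | zero => exact T17 P G c
  | succ i ih => exact T18 P hP G hbal c i ih

end Pool.Agent.SXG
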