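import Pool.Agent.SXG.Defs
/-!
# SXG: T21a (cleaning a centre)
-/

set_option autoImplicit false

namespace Pool.Agent.SXG

open Pool.Agent.LSN (W Base Rch PW sel lf reg GC Rt tw)

/-- a walk which starts in a ball and never makes a first step out of it stays in the ball -/
theorem T21a_stay {V : Type} (r : V → V → Prop) (hs : ∀ u v, r u v → r v u) (z : V) (k : ℕ)
    (X : ℕ → V) (T : ℕ) (hX : ∀ t < T, r (X t) (X (t + 1))) (t0 : ℕ) (h0 : t0 ≤ T)
    (hz : W r k z (X t0)) (hno : ∀ t ≤ T, W r (k + 1) z (X t) → W r k z (X t)) :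
    ∀ t ≤ T, W r k z (X t) := by
  have up : ∀ j, t0 + j ≤ T → W r k z (X (t0 + j)) := by
    intro j
    induction j with
    | zero => intro _; exact hz
    | succ j ih =>
      intro hj
      refine hno _ hj ⟨X (t0 + j), ih (by omega), ?_⟩
      exact hX (t0 + j) (by omega)
  have down : ∀ j, j ≤ t0 → W r k z (X (t0 - j)) := by
    intro j
    induction j with
    | zero => intro _; exact hz
    | succ j ih =>
      intro hj
      refine hno _ (by omega) ⟨X (t0 - j), ih (by omega), ?_⟩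
      have h := hX (t0 - (j + 1)) (by omega)
      rw [show t0 - (j + 1) + 1 = t0 - j by omega] at h
      exact hs _ _ h
  intro t ht
  rcases Nat.le_total t0 t with h | h
  · have := up (t - t0) (by omega)
    rwa [show t0 + (t - t0) = t by omega] at this
  · have := down (t0 - t) (by omega)
    rwa [show t0 - (t0 - t) = t by omega] at this

/-- T21a. Cleaning a centre. -/
theorem T21a {V : Type} {b K : ℕ} (P : Par) (G : Base V b K) (i : ℕ) (hrho : 1 ≤ P.rho i)
    (U : Set V) (hU : Sep P G i U) (X : ℕ → V) (T : ℕ) (hX : ∀ t < T, G.r (X t) (X (t + 1)))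
    (t0 t1 : ℕ) (h0 : t0 ≤ T) (h1 : t1 ≤ T) (hfar : ¬ W G.r (28 * P.rho i) (X t0) (X t1)) :
    ∃ t ≤ T, W G.r (9 * P.rho i) (X t0) (X t) ∧ ∀ v, W G.r (3 * P.rho i) (X t) v → v ∉ U := by
  by_cases hc : ∀ v, W G.r (3 * P.rho i) (X t0) v → v ∉ U
  · exact ⟨t0, h0, Pool.Agent.LSN.W_refl G.refl _ _, hc⟩
  · have hc' : ∃ v, W G.r (3 * P.rho i) (X t0) v ∧ v ∈ U := by
      by_contra hcon
      exact hc fun v hv hvU => hcon ⟨v, hv, hvU⟩
    obtain ⟨v, hv, hvU⟩ := hc'
    obtain ⟨Z, hZ1, hZ2⟩ := hU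
    obtain ⟨z, hz, hzv⟩ := hZ2 v hvU
    have hz0 : W G.r (4 * P.rho i) z (X t0) := by
      have := Pool.Agent.LSN.W_add hzv (Pool.Agent.LSN.W_symm G.symm hv)
      exact Pool.Agent.LSN.W_mono G.refl (by omega) this
    have hex : ∃ t ≤ T, W G.r (4 * P.rho i + 1) z (X t) ∧ ¬ W G.r (4 * P.rho i) z (X t) := by
      by_contra hcon
      have hno : ∀ t ≤ T, W G.r (4 * P.rho i + 1) z (X t) → W G.r (4 * P.rho i) z (X t) := by
        intro t ht h
        by_contra h'
        exact hcon ⟨t, ht, h, h'⟩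
      have h2 := T21a_stay G.r G.symm z (4 * P.rho i) X T hX t0 h0 hz0 hno t1 h1
      have h3 := Pool.Agent.LSN.W_add (Pool.Agent.LSN.W_symm G.symm hz0) h2
      exact hfar (Pool.Agent.LSN.W_mono G.refl (by omega) h3)
    obtain ⟨t, ht, hta, htb⟩ := hex
    refine ⟨t, ht, ?_, ?_⟩
    · have h3 := Pool.Agent.LSN.W_add (Pool.Agent.LSN.W_symm G.symm hz0) hta
      exact Pool.Agent.LSN.W_mono G.refl (by omega) h3
    · intro v' hv' hvU'
      obtain ⟨z', hz', hzv'⟩ := hZ2 v' hvU'
      have h4 : W G.r (4 * P.rho i) z' (X t) := by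
        have := Pool.Agent.LSN.W_add hzv' (Pool.Agent.LSN.W_symm G.symm hv')
        exact Pool.Agent.LSN.W_mono G.refl (by omega) this
      have hne : z ≠ z' := by
        rintro rfl
        exact htb h4
      refine hZ1 z hz z' hz' hne ?_
      have h5 := Pool.Agent.LSN.W_add hta (Pool.Agent.LSN.W_symm G.symm h4)
      exact Pool.Agent.LSN.W_mono G.refl (by omega) h5

end Pool.Agent.SXG
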