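import Pool.Agent.SXG.Defs
import Pool.Agent.LSN.Basic

/-!
# SXG: target T21b, a window at a clean place (helper18)
-/

set_option autoImplicit false

namespace Pool.Agent.SXG

open Finset
open Pool.Agent.LSN (W Base Rch PW sel lf reg GC Rt tw)

/-- forwards: the walk leaves the ball of radius `rho` around its first vertex -/
theorem T21b_core {V N : Type} {b K M : ℕ} [Finite V] [Finite N] (P : Par) (G : Base V b K)
    (c : V → Fin M) (i : ℕ) (hrho : 1 ≤ P.rho i) (h : WL P G c i) (B : Str K M N)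
    (hB : Adm G B) (hBd : ∀ j < i, Bd P G j B) (U : Set V) (X : ℕ → V) (Y : ℕ → N) (T : ℕ)
    (hW : PW G.r B.r (Mt (gs G c U) B) X Y T)
    (hclean : ∀ v, W G.r (3 * P.rho i) (X 0) v → v ∉ U)
    (hfar : ∃ t ≤ T, ¬ W G.r (P.rho i) (X 0) (X t)) :
    ∃ (s : Sk P b i) (tm : Ix P i → ℕ), WF P G i s (X 0) ∧
      (∀ q, c (er P G i s (X 0) q) = B.c (Y (tm q))) ∧
      ∀ U' : Set V, AF G U' → (∀ j, j + 1 < i → Bd P G j (gs G c U')) →
        ∃ p : Pt P i, ∀ q, pa P G c U' B Set.univ i s p (X 0) (Y 0) q = Y (tm q) := by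
  classical
  have hex : ∃ t, t ≤ T ∧ ¬ W G.r (P.rho i) (X 0) (X t) := by
    obtain ⟨t, ht, h'⟩ := hfar
    exact ⟨t, ht, h'⟩
  obtain ⟨s0, ⟨hs0T, hs0far⟩, hs0min⟩ :
      ∃ s0, (s0 ≤ T ∧ ¬ W G.r (P.rho i) (X 0) (X s0)) ∧
        ∀ t < s0, W G.r (P.rho i) (X 0) (X t) := by
    refine ⟨Nat.find hex, Nat.find_spec hex, fun t ht => ?_⟩
    by_contra hcon
    have hle : t ≤ T := by
      have := (Nat.find_spec hex).1
      omega
    exact Nat.find_min hex ht ⟨hle, hcon⟩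
  -- all times up to `s0` are near
  have hnear : ∀ t ≤ s0, W G.r (3 * P.rho i) (X 0) (X t) := by
    intro t ht
    rcases Nat.lt_or_ge t s0 with h1 | h1
    · exact LSN.W_mono G.refl (by omega) (hs0min t h1)
    · have h2 : t = s0 := by omega
      subst h2
      cases t with
      | zero => exact LSN.W_refl G.refl _ _
      | succ t =>
        have h3 : W G.r (P.rho i) (X 0) (X t) := hs0min t (by omega)
        have h4 : W G.r 1 (X t) (X (t + 1)) := LSN.W_one.2 (hW.1 t (by omega)).1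
        exact LSN.W_mono G.refl (by omega) (LSN.W_add h3 h4)
  have hPW : PW G.r B.r (Al (gs G c ∅) B Set.univ Set.univ) X Y s0 := by
    refine ⟨fun t ht => hW.1 t (by omega), fun t ht => ?_⟩
    refine ⟨Set.mem_univ _, Set.mem_univ _, ?_⟩
    have h1 := hW.2 t (by omega)
    refine ⟨h1.1, ?_⟩
    rcases h1.2 with h2 | h2
    · exact absurd h2 (hclean _ (hnear t ht))
    · exact Or.inr h2
  obtain ⟨s, tm, hWF, hq, hp⟩ := h N B Set.univ hB hBd X Y s0 hPW ⟨s0, le_refl _, hs0far⟩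
  refine ⟨s, tm, hWF, fun q => ?_, hp⟩
  obtain ⟨h1, h2, h3⟩ := hq q
  have h4 := (hPW.2 (tm q) h1).2.2
  rcases h4.2 with h5 | h5 | h5
  · exact absurd h5 (by simp [gs])
  · exact absurd h5 h3
  · rw [h2]
    exact h5

/-- T21b. Window at a clean place. -/
theorem T21b {V N : Type} {b K M : ℕ} [Finite V] [Finite N] (P : Par) (G : Base V b K)
    (c : V → Fin M) (i : ℕ) (hrho : 1 ≤ P.rho i) (h : WL P G c i) (B : Str K M N)
    (hB : Adm G B) (hBd : ∀ j < i, Bd P G j B) (U : Set V) (X : ℕ → V) (Y : ℕ → N) (T : ℕ)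
    (hW : PW G.r B.r (Mt (gs G c U) B) X Y T) (t0 t1 : ℕ) (h0 : t0 ≤ T) (h1 : t1 ≤ T)
    (hclean : ∀ v, W G.r (3 * P.rho i) (X t0) v → v ∉ U)
    (hfar : ¬ W G.r (P.rho i) (X t0) (X t1)) :
    ∃ (s : Sk P b i) (tm : Ix P i → ℕ), WF P G i s (X t0) ∧
      (∀ q, c (er P G i s (X t0) q) = B.c (Y (tm q))) ∧
      ∀ U' : Set V, AF G U' → (∀ j, j + 1 < i → Bd P G j (gs G c U')) →
        ∃ p : Pt P i, ∀ q, pa P G c U' B Set.univ i s p (X t0) (Y t0) q = Y (tm q) := by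
  rcases Nat.le_total t0 t1 with h2 | h2
  · have h3 := LSN.PW_shift hW h0
    obtain ⟨s, tm, hWF, hq, hp⟩ := T21b_core P G c i hrho h B hB hBd U _ _ _ h3 hclean
      ⟨t1 - t0, by omega, by
        show ¬ W G.r (P.rho i) (X (t0 + 0)) (X (t0 + (t1 - t0)))
        rw [Nat.add_sub_cancel' h2]
        exact hfar⟩
    exact ⟨s, fun q => t0 + tm q, hWF, hq, hp⟩
  · have h3 := LSN.PW_rev (r := G.r) (r' := B.r) G.symm hB.1 hW h0
    obtain ⟨s, tm, hWF, hq, hp⟩ := T21b_core P G c i hrho h B hB hBd U _ _ _ h3 hclean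
      ⟨t0 - t1, by omega, by
        show ¬ W G.r (P.rho i) (X (t0 - 0)) (X (t0 - (t0 - t1)))
        rw [Nat.sub_sub_self h2]
        exact hfar⟩
    exact ⟨s, fun q => t0 - tm q, hWF, hq, hp⟩

end Pool.Agent.SXG
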