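import Pool.Agent.SXG.J02
import Pool.Agent.SXG.J15
import Pool.Agent.SXG.Defs
import Pool.Agent.LSN.J21
set_option autoImplicit false

namespace Pool.Agent.SXG

open Finset
open Pool.Agent.LSN (W Base Rch PW sel lf reg GC Rt tw)

/-- T21c -/
theorem T21c {V : Type} {b K M : ℕ} [Finite V] (P : Par) (hP : P.Ok)
    (G : Base V b K) (hbal : Bal P G) (c : V → Fin M) (i : ℕ) (U : Set V)
    (hnot : ¬ Bd P G i (gs G c U)) :
    ∃ n ≤ P.xi i, ∃ A : Str K M (Fin n), Adm G A ∧ Gd P G i n A ∧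
      ∃ (X : ℕ → V) (Y : ℕ → Fin n) (T : ℕ), PW G.r A.r (Mt (gs G c U) A) X Y T ∧
        ∃ tau, GC G.r X (28 * P.rho i) (P.Nn i) tau ∧ tau (P.Nn i - 1) ≤ T := by
  classical
  unfold Bd at hnot
  push Not at hnot
  obtain ⟨n, hn, A, hA, hGd, a0, v0, hcard⟩ := hnot
  refine ⟨n, hn, A, hA, hGd, ?_⟩
  obtain ⟨-, -, -, -, hNn, hXi⟩ := T15 P hP
  have hNn := hNn i
  have hXi := hXi i
  set ρ := P.rho i with hρ
  obtain ⟨v1, hv1⟩ : ({v | ∃ u, Rch A.r (gs G c U).r (Mt A (gs G c U)) (a0, v0)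
      (u, v)} : Set V).Nonempty := by
    rw [← Set.ncard_pos (Set.toFinite _)]
    omega
  obtain ⟨u1, hu1⟩ := hv1
  have hmt : ∀ (u : Fin n) (v : V), Mt A (gs G c U) u v → Mt (gs G c U) A v u := by
    intro u v h
    refine ⟨h.1.symm, ?_⟩
    rcases h.2 with h1 | h1 | h1
    · exact Or.inr (Or.inl h1)
    · exact Or.inl h1
    · exact Or.inr (Or.inr h1.symm)
  have hstart : Mt (gs G c U) A v0 a0 := hmt _ _ hu1.1
  set F : Finset V := (Set.toFinite {v | ∃ u, Rch A.r (gs G c U).r (Mt A (gs G c U))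
      (a0, v0) (u, v)}).toFinset with hF
  obtain ⟨X, Y, T, hW, hX0, hY0, htour⟩ := Pool.Agent.LSN.T21_tour (r := G.r) (r' := A.r)
    (S := Mt (gs G c U) A) G.symm hA.1 v0 a0 hstart F (by
      intro v hv
      rw [hF, Set.Finite.mem_toFinset] at hv
      obtain ⟨u, hu⟩ := hv
      exact ⟨u, Pool.Agent.LSN.T21_swap hmt hu⟩)
  refine ⟨X, Y, T, hW, ?_⟩
  have hXr : ∀ t < T, G.r (X t) (X (t + 1)) := fun t ht => (hW.1 t ht).1
  rcases Pool.Agent.LSN.T12 G.r G.refl X T (28 * ρ) (P.Nn i) (by omega) hXr with h | h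
  · exact h
  · exfalso
    obtain ⟨m', h1, h2, tau, h3, h4, h5⟩ := h
    have h6 := T02 P G hbal (fun l => X (tau l)) m' (28 * ρ)
    have h7 : {v | ∃ u, Rch A.r (gs G c U).r (Mt A (gs G c U)) (a0, v0) (u, v)} ⊆
        reg G.r (fun l => X (tau l)) m' (28 * ρ) := by
      intro v hv
      obtain ⟨t, ht, rfl⟩ := htour v (by rw [hF, Set.Finite.mem_toFinset]; exact hv)
      obtain ⟨l, hl, hl2⟩ := h5 t ht
      exact ⟨l, hl, hl2⟩
    have h8 := Set.ncard_le_ncard h7 (Set.toFinite _)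
    have h9 : m' * P.ph (28 * ρ) < P.Nn i * P.ph (28 * ρ) :=
      Nat.mul_lt_mul_of_pos_right h2 (hP.2.1 _)
    have h10 : P.Xi i = P.Nn i * P.ph (28 * ρ) := rfl
    omega

end Pool.Agent.SXG
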