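import Pool.Agent.SXG.J02
import Pool.Agent.SXG.J08
import Pool.Agent.SXG.J15
import Pool.Agent.SXG.J18
import Pool.Agent.SXG.J21a
import Pool.Agent.SXG.J21b
import Pool.Agent.SXG.J21c
import Pool.Agent.SXG.Defs
import Pool.Agent.LSN.J18
set_option autoImplicit false

/-!
# SXG: target T21, a violated claim gives an event of the first kind
-/

namespace Pool.Agent.SXG

open Finset
open Pool.Agent.LSN (W Base Rch PW sel lf reg GC Rt tw)

/-- a structure on `Fin n` is the structure of its data -/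
theorem T21_sD {K M n : ℕ} (A : Str K M (Fin n)) : ∃ d : Dat K M n, sD d = A := by
  classical
  obtain ⟨r, col, c, w⟩ := A
  refine ⟨(fun x y => decide (r x y), col, c, fun x => decide (w x)), ?_⟩
  unfold sD
  simp only [decide_eq_true_eq]

/-- T21 -/
theorem T21 {V : Type} {b K M : ℕ} [Finite V] (P : Par) (hP : P.Ok)
    (G : Base V b K) (hbal : Bal P G) (c : V → Fin M) (i : ℕ)
    (hlow : ∀ j < i, Cl P G c j) (hnot : ¬ Cl P G c i) :
    ∃ n ≤ P.xi i, ∃ e : EG P V b K M i n, badG P G e c := by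
  classical
  unfold Cl at hnot
  push Not at hnot
  obtain ⟨U, hU, hnot⟩ := hnot
  obtain ⟨n, hn, A, hA, hGd, X, Y, T, hW, tau, hGC, hT⟩ :=
    T21c P hP G hbal c i U hnot
  obtain ⟨d, rfl⟩ := T21_sD A
  obtain ⟨hrho, -, -, -, hNn, -⟩ := T15 P hP
  have hrho := hrho i
  have hNn := hNn i
  have hXr : ∀ t < T, G.r (X t) (X (t + 1)) := fun t ht => (hW.1 t ht).1
  have htauT : ∀ l, l < P.Nn i → tau l ≤ T := fun l hl =>
    (Pool.Agent.LSN.T18_mono hGC (P.Nn i - 1) l (by omega) (by omega)).trans hT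
  have hfar : ∀ l l', l ≠ l' → l < P.Nn i → l' < P.Nn i →
      ¬ W G.r (28 * P.rho i) (X (tau l)) (X (tau l')) := fun l l' h1 h2 h3 =>
    Pool.Agent.LSN.T18_far G.symm hGC l l' h1 h2 h3
  have hoth : ∀ l, l < P.Nn i → ∃ l', l ≠ l' ∧ l' < P.Nn i := by
    intro l hl
    by_cases h : l = 0
    · exact ⟨1, by omega, by omega⟩
    · exact ⟨0, h, by omega⟩
  -- clean places
  have hclean : ∀ l, ∃ t, l < P.Nn i → t ≤ T ∧ W G.r (9 * P.rho i) (X (tau l)) (X t) ∧
      ∀ v, W G.r (3 * P.rho i) (X t) v → v ∉ U := by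
    intro l
    by_cases hl : l < P.Nn i
    · obtain ⟨l', h1, h2⟩ := hoth l hl
      obtain ⟨t, ht, h3, h4⟩ := T21a P G i hrho U hU X T hXr (tau l) (tau l')
        (htauT l hl) (htauT l' h2) (hfar l l' h1 hl h2)
      exact ⟨t, fun _ => ⟨ht, h3, h4⟩⟩
    · exact ⟨0, fun h => absurd h hl⟩
  choose tc htc using hclean
  have hsep : ∀ l l', l ≠ l' → l < P.Nn i → l' < P.Nn i →
      ¬ W G.r (10 * P.rho i) (X (tc l)) (X (tc l')) := by
    intro l l' h1 h2 h3 h4
    have h5 := (htc l h2).2.1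
    have h6 := Pool.Agent.LSN.W_symm G.symm (htc l' h3).2.1
    apply hfar l l' h1 h2 h3
    have h7 := Pool.Agent.LSN.W_add (Pool.Agent.LSN.W_add h5 h4) h6
    rwa [show 9 * P.rho i + 10 * P.rho i + 9 * P.rho i = 28 * P.rho i by omega] at h7
  obtain ⟨ch, hch⟩ := T04 G (fun l => X (tc l)) (P.Nn i) (50 * P.rho i)
    (P.ph (50 * P.rho i)) (hbal _) (by
      intro l h1 h2
      obtain ⟨a, h3, h4⟩ := hGC.2.2.2.1 l h1 h2
      refine ⟨a, h3, ?_⟩
      have h5 := Pool.Agent.LSN.W_symm G.symm (htc a (by omega)).2.1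
      have h6 := (htc l h2).2.1
      have h7 := Pool.Agent.LSN.W_add (Pool.Agent.LSN.W_add h5 h4) h6
      exact Pool.Agent.LSN.W_mono G.refl (by omega) h7)
  have hWL : WL P G c i := T19 P hP G hbal c i
  have hAB : ∀ j < i, Bd P G j (sD d) := (T08 P G i n (sD d)).1 hGd
  -- windows
  have hwin : ∀ l : Fin (P.Nn i), ∃ (s : Sk P b i) (tm : Ix P i → ℕ), WF P G i s (X (tc l)) ∧
      (∀ q, c (er P G i s (X (tc l)) q) = (sD d).c (Y (tm q))) ∧
      ∀ U' : Set V, AF G U' → (∀ j, j + 1 < i → Bd P G j (gs G c U')) →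
        ∃ p : Pt P i, ∀ q, pa P G c U' (sD d) Set.univ i s p (X (tc l)) (Y (tc l)) q =
          Y (tm q) := by
    intro l
    obtain ⟨l', h1, h2⟩ := hoth l.val l.2
    refine T21b P G c i hrho hWL (sD d) hA hAB U X Y T hW (tc l) (tau l')
      (htc l l.2).1 (htauT l' h2) (htc l l.2).2.2 ?_
    intro h3
    apply hfar l.val l' h1 l.2 h2
    have h4 := Pool.Agent.LSN.W_add (htc l l.2).2.1 h3
    exact Pool.Agent.LSN.W_mono G.refl (by omega) h4
  choose sk tm hWF hcol hpt using hwin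
  have hch' : ∀ l : Fin (P.Nn i), ctr G.r (50 * P.rho i) ch (X (tc 0)) l.val = X (tc l.val) :=
    fun l => hch l.val l.2
  set e : EG P V b K M i n := (X (tc 0), d, ch, fun l => Y (tc l.val), sk) with he
  have hz : ∀ l : Fin (P.Nn i), zG P G e l.val = X (tc l.val) := fun l => hch' l
  have hFam : Fam P G i (fun k : Fin (P.Nn i) => zG P G e k.val) sk := by
    refine ⟨?_, ?_⟩
    · intro k k' hkk
      simp only [hz]
      exact hsep k.val k'.val (fun h => hkk (Fin.ext h)) k.2 k'.2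
    · intro k
      simp only [hz]
      exact hWF k
  obtain ⟨-, hSep, hAF⟩ := T51 P hP G i _ _ hFam
  have hrange : (Set.range (fun a : Fin (P.Nn i) × Ix P i =>
      er P G i (sk a.1) (zG P G e a.1.val) a.2)) = Set.range (eG P G e) := rfl
  rw [hrange] at hSep hAF
  have hBd : ∀ j, j + 1 < i → Bd P G j (gs G c (Set.range (eG P G e))) := fun j hj =>
    hlow j (by omega) _ (hSep j (by omega))
  have hpt' : ∀ l : Fin (P.Nn i), ∃ p : Pt P i, ∀ q,
      pa P G c (Set.range (eG P G e)) (sD d) Set.univ i (sk l) p (X (tc l)) (Y (tc l)) q =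
        Y (tm l q) := fun l => hpt l _ hAF hBd
  choose p hp using hpt'
  refine ⟨n, hn, e, hA, hGd, hFam, p, ?_⟩
  rintro ⟨l, q⟩
  have h1 : eG P G e (l, q) = er P G i (sk l) (zG P G e l.val) q := rfl
  have h2 : pG P G c e p (l, q) = pa P G c (Set.range (eG P G e)) (sD d) Set.univ i (sk l) (p l)
      (zG P G e l.val) (Y (tc l.val)) q := rfl
  rw [h2, hz, hp, h1, hz]
  exact hcol l q

end Pool.Agent.SXG
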