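import Pool.Agent.SXG.Defs
import Pool.Agent.SXG.J02
import Pool.Agent.SXG.J08
import Pool.Agent.SXG.J15
import Pool.Agent.SXG.J18
import Pool.Agent.LSN.J05
import Pool.Agent.LSN.J18
/-!
# SXG: crossing, one-sided (target T23; helper25)
-/

set_option autoImplicit false

namespace Pool.Agent.SXG

open Pool.Agent.LSN (W Base Rch PW sel lf reg GC Rt tw)

/-- the window of level `i` around a visited centre, forwards or backwards -/
theorem T23_win {V : Type} {b K M : ℕ} [Finite V] (P : Par) (G : Base V b K) (c : V → Fin M)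
    (i : ℕ) (h : WL P G c i) (N : Type) [Finite N] (B : Str K M N) (Bs : Set N)
    (hA : Adm G B) (hB : ∀ j < i, Bd P G j B) (X : ℕ → V) (Y : ℕ → N) (T : ℕ)
    (hW : PW G.r B.r (Al (gs G c ∅) B Set.univ Bs) X Y T)
    (a a' : ℕ) (ha : a ≤ T) (ha' : a' ≤ T) (hfar : ¬ W G.r (P.rho i) (X a) (X a')) :
    ∃ (s : Sk P b i) (tm : Ix P i → ℕ), WF P G i s (X a) ∧
      (∀ q, tm q ≤ T ∧ er P G i s (X a) q = X (tm q)) ∧
      ∀ U : Set V, AF G U → (∀ j, j + 1 < i → Bd P G j (gs G c U)) →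
        ∃ p : Pt P i, ∀ q, pa P G c U B Bs i s p (X a) (Y a) q = Y (tm q) := by
  rcases Nat.le_total a a' with h1 | h1
  · have h2 := Pool.Agent.LSN.PW_shift hW ha
    obtain ⟨s, tm, hs, hq, hU⟩ := h N B Bs hA hB _ _ _ h2
      ⟨a' - a, by omega, by
        show ¬ W G.r (P.rho i) (X (a + 0)) (X (a + (a' - a)))
        rw [Nat.add_sub_cancel' h1]
        exact hfar⟩
    refine ⟨s, fun q => a + tm q, hs, fun q => ⟨?_, ?_⟩, fun U hAF hBU => ?_⟩
    · have := (hq q).1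
      show a + tm q ≤ T
      omega
    · exact (hq q).2.1
    · exact hU U hAF hBU
  · have h2 := Pool.Agent.LSN.PW_rev (r := G.r) (r' := B.r) G.symm hA.1 hW ha
    obtain ⟨s, tm, hs, hq, hU⟩ := h N B Bs hA hB _ _ _ h2
      ⟨a - a', by omega, by
        show ¬ W G.r (P.rho i) (X (a - 0)) (X (a - (a - a')))
        rw [Nat.sub_sub_self h1]
        exact hfar⟩
    refine ⟨s, fun q => a - tm q, hs, fun q => ⟨?_, ?_⟩, fun U hAF hBU => ?_⟩
    · show a - tm q ≤ T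
      omega
    · exact (hq q).2.1
    · exact hU U hAF hBU

/-- T23. Crossing, one-sided. -/
theorem T23 {V : Type} {b K M : ℕ} [Finite V] (P : Par) (hP : P.Ok)
    (G : Base V b K) (hbal : Bal P G) (c : V → Fin M) (i m rad : ℕ) (hm : 2 ≤ m)
    (hmi : m ≤ P.m i) (hCl : ∀ j ≤ i, Cl P G c j) (X Y : ℕ → V) (T : ℕ)
    (hW : PW G.r G.r (Mt (gs G c ∅) (gs G c ∅)) X Y T) (tau : ℕ → ℕ)
    (hGC : GC G.r X (10 * P.rho i) m tau) (hT : tau (m - 1) ≤ T)
    (hY : ∀ t ≤ tau (m - 1), W G.r rad (Y 0) (Y t)) :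
    ∃ ev : EC P V b i m, ev.1 = X 0 ∧ ev.2.1 = Y 0 ∧
      Fam P G i (fun k : Fin m => zC P G ev k.val) ev.2.2.2 ∧
      ∃ p : Fin m → Fin (P.Xi i) × Pt P i, ∀ q : Fin m × Ix P i,
        ∃ t ≤ tau (m - 1), eC P G ev q = X t ∧ pC P G c rad ev p q = Y t := by
  set Bs : Set V := {v | W G.r rad (Y 0) v} with hBs
  have hA : Adm G (gs G c ∅) :=
    ⟨G.symm, ⟨id, Function.injective_id, fun _ _ h => h, fun _ => rfl⟩,
      fun x y _ hx _ => absurd hx (Set.notMem_empty x)⟩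
  have hSep0 : ∀ j, Sep P G j (∅ : Set V) := fun j =>
    ⟨∅, fun z hz => absurd hz (Set.notMem_empty z), fun u hu => absurd hu (Set.notMem_empty u)⟩
  have hBd0 : ∀ j ≤ i, Bd P G j (gs G c ∅) := fun j hj => hCl j hj ∅ (hSep0 j)
  have hWL : WL P G c i := T19 P hP G hbal c i
  have hmono := Pool.Agent.LSN.T18_mono hGC
  have hlT : ∀ l < m, tau l ≤ tau (m - 1) := fun l hl => hmono (m - 1) l (by omega) (by omega)
  have htau0 : tau 0 = 0 := hGC.1
  -- the walk up to the last centre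
  have hW1 : PW G.r (gs G c ∅).r (Al (gs G c ∅) (gs G c ∅) Set.univ Bs) X Y (tau (m - 1)) :=
    ⟨fun t ht => hW.1 t (by omega), fun t ht => ⟨Set.mem_univ _, hY t ht, hW.2 t (by omega)⟩⟩
  obtain ⟨ch, hch0⟩ := T04 G (fun l => X (tau l)) m (10 * P.rho i + 1)
    (P.ph (10 * P.rho i + 1)) (fun v => hbal _ v) hGC.2.2.2.1
  have hch : ∀ l < m, ctr G.r (10 * P.rho i + 1) ch (X 0) l = X (tau l) := by
    intro l hl
    have h1 := hch0 l hl
    simp only [htau0] at h1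
    exact h1
  -- the windows around the centres
  have hwin : ∀ l : Fin m, ∃ (s : Sk P b i) (tm : Ix P i → ℕ), WF P G i s (X (tau l)) ∧
      (∀ q, tm q ≤ tau (m - 1) ∧ er P G i s (X (tau l)) q = X (tm q)) ∧
      ∀ U : Set V, AF G U → (∀ j, j + 1 < i → Bd P G j (gs G c U)) →
        ∃ p : Pt P i, ∀ q, pa P G c U (gs G c ∅) Bs i s p (X (tau l)) (Y (tau l)) q =
          Y (tm q) := by
    intro l
    obtain ⟨l', hl', hne⟩ : ∃ l' < m, (l : ℕ) ≠ l' := by
      by_cases h0 : (l : ℕ) = 0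
      · exact ⟨1, by omega, by omega⟩
      · exact ⟨0, by omega, h0⟩
    refine T23_win P G c i hWL V (gs G c ∅) Bs hA (fun j hj => hBd0 j (by omega)) X Y _ hW1
      (tau l) (tau l') (hlT l l.2) (hlT l' hl') ?_
    intro h1
    exact Pool.Agent.LSN.T18_far G.symm hGC l l' hne l.2 hl'
      (Pool.Agent.LSN.W_mono G.refl (by omega) h1)
  choose s tm hWF hvis hptr using hwin
  -- the event
  let ev : EC P V b i m := (X 0, Y 0, ch, s)
  have hz : ∀ l : Fin m, zC P G ev l.val = X (tau l) := fun l => hch l l.2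
  have her : ∀ q : Fin m × Ix P i, eC P G ev q = er P G i (s q.1) (X (tau q.1)) q.2 := by
    intro q
    show er P G i (s q.1) (ctr G.r (10 * P.rho i + 1) ch (X 0) q.1.val) q.2 = _
    rw [hch _ q.1.2]
  have hFam : Fam P G i (fun k : Fin m => zC P G ev k.val) ev.2.2.2 := by
    refine ⟨fun k k' hk => ?_, fun k => ?_⟩
    · show ¬ W G.r (10 * P.rho i) (zC P G ev k.val) (zC P G ev k'.val)
      rw [hz, hz]
      exact Pool.Agent.LSN.T18_far G.symm hGC k k' (fun h => hk (Fin.ext h)) k.2 k'.2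
    · show WF P G i (s k) (zC P G ev k.val)
      rw [hz]
      exact hWF k
  obtain ⟨-, hSep, hAF⟩ := T51 P hP G i (fun k : Fin m => zC P G ev k.val) ev.2.2.2 hFam
  have hrange : Set.range (fun a : Fin m × Ix P i =>
      er P G i (ev.2.2.2 a.1) ((fun k : Fin m => zC P G ev k.val) a.1) a.2) =
      Set.range (eC P G ev) := rfl
  rw [hrange] at hSep hAF
  set U : Set V := Set.range (eC P G ev) with hU
  have hBdU : ∀ j ≤ i, Bd P G j (gs G c U) := fun j hj => hCl j hj U (hSep j hj)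
  have hpw : ∀ l : Fin m, ∃ p : Pt P i, ∀ q,
      pa P G c U (gs G c ∅) Bs i (s l) p (X (tau l)) (Y (tau l)) q = Y (tm l q) := fun l =>
    hptr l U hAF (fun j hj => hBdU j (by omega))
  choose p hp using hpw
  -- the pointers to the partners of the centres
  set R : Set V := reg G.r (ctr G.r (10 * P.rho i + 1) ch (X 0)) m (10 * P.rho i) with hR'
  have hPW : PW G.r (gs G c ∅).r (Al (gs G c U) (gs G c ∅) R Bs) X Y (tau (m - 1)) := by
    refine ⟨fun t ht => hW1.1 t ht, fun t ht => ?_⟩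
    obtain ⟨_, h2, h3⟩ := hW1.2 t ht
    refine ⟨?_, h2, h3.1, ?_⟩
    · obtain ⟨l, hl, _, h4⟩ := hGC.2.2.2.2 t ht
      refine ⟨l, hl, ?_⟩
      rw [hch l hl]
      exact h4
    · rcases h3.2 with h5 | h5 | h5
      · exact absurd h5 (Set.notMem_empty _)
      · exact Or.inr (Or.inl h5)
      · exact Or.inr (Or.inr h5)
  have hXi : 0 < P.Xi i := (T15 P hP).2.2.2.2.2 i
  have hRc : R.ncard ≤ P.xi i :=
    (T02 P G hbal _ _ _).trans (Nat.mul_le_mul_right _ hmi)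
  have hptr : ∀ l : Fin m, ∃ k : Fin (P.Xi i),
      sel (Y 0) k.val (Prt (gs G c U) (gs G c ∅) R Bs (X 0) (Y 0) (X (tau l))) =
        Y (tau l) := by
    intro l
    have h1 : Y (tau l) ∈ Prt (gs G c U) (gs G c ∅) R Bs (X 0) (Y 0) (X (tau l)) :=
      Pool.Agent.LSN.PW_Rch hPW (Nat.zero_le _) (hlT l l.2)
    have h2 : (Prt (gs G c U) (gs G c ∅) R Bs (X 0) (Y 0) (X (tau l))).ncard < P.Xi i :=
      T11 P G c U hAF i (fun j hj => hBdU j (by omega)) (gs G c ∅) (hBd0 i le_rfl) Bs R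
        hRc hXi _ _ _
    obtain ⟨k, hk, hsel⟩ := Pool.Agent.LSN.T06 (Y 0) _ _ h1
    exact ⟨⟨k, by omega⟩, hsel⟩
  choose k hk using hptr
  have hpa : ∀ q : Fin m × Ix P i, pC P G c rad ev (fun l => (k l, p l)) q =
      pa P G c U (gs G c ∅) Bs i (s q.1) (p q.1) (X (tau q.1)) (Y (tau q.1)) q.2 := by
    intro q
    show pa P G c U (gs G c ∅) Bs i (s q.1) (p q.1)
      (ctr G.r (10 * P.rho i + 1) ch (X 0) q.1.val)
      (sel (Y 0) (k q.1).val (Prt (gs G c U) (gs G c ∅) R Bs (X 0) (Y 0)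
        (ctr G.r (10 * P.rho i + 1) ch (X 0) q.1.val))) q.2 = _
    rw [hch _ q.1.2, hk]
  refine ⟨ev, rfl, rfl, hFam, fun l => (k l, p l), fun q => ⟨tm q.1 q.2, (hvis q.1 q.2).1, ?_, ?_⟩⟩
  · rw [her, (hvis q.1 q.2).2]
  · rw [hpa, hp]

end Pool.Agent.SXG
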