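import Pool.Agent.SXG.J23
import Pool.Agent.LSN.J14
import Pool.Agent.SXG.Defs
set_option autoImplicit false

namespace Pool.Agent.SXG

open Pool.Agent.LSN (W Base Rch PW sel lf reg GC Rt tw)

/-- without wild points matching is equality of base colours and of colours -/
theorem T24_mt {V : Type} {b K M : ℕ} (G : Base V b K) (z : V → Fin M) (x y : V)
    (h : Mt (gs G z ∅) (gs G z ∅) x y) : G.col x = G.col y ∧ z x = z y := by
  refine ⟨h.1, ?_⟩
  rcases h.2 with h1 | h1 | h1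
  · exact absurd h1 (Set.notMem_empty x)
  · exact absurd h1 (Set.notMem_empty y)
  · exact h1

/-- matching of the base graph with itself is symmetric -/
theorem T24_symm {V : Type} {b K M : ℕ} (G : Base V b K) (z : V → Fin M) (x y : V)
    (h : Mt (gs G z ∅) (gs G z ∅) x y) : Mt (gs G z ∅) (gs G z ∅) y x :=
  ⟨(T24_mt G z x y h).1.symm, Or.inr (Or.inr (T24_mt G z x y h).2.symm)⟩

/-- one-sided form -/
theorem T24_side {V : Type} {b K M : ℕ} [Finite V] (P : Par) (hP : P.Ok)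
    (G : Base V b K) (hbal : Bal P G) (z : V → Fin M) (i m R rad : ℕ)
    (hm : 2 ≤ m) (hmi : m ≤ P.m i)
    (hCl : ∀ j ≤ i, Cl P G z j) (X Y : ℕ → V) (T : ℕ)
    (hW : PW G.r G.r (Mt (gs G z ∅) (gs G z ∅)) X Y T) (hRt : Rt G R rad (X 0) (Y 0))
    (tau : ℕ → ℕ) (hGC : GC G.r X (10 * P.rho i) m tau) (hT : tau (m - 1) ≤ T)
    (hY : ∀ t ≤ tau (m - 1), W G.r rad (Y 0) (Y t)) :
    ∃ ev : EC P V b i m, badC P G R rad ev z := by
  obtain ⟨ev, h1, h2, h3, p, hp⟩ := T23 P hP G hbal z i m rad hm hmi hCl X Y T hW tau hGC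
    hT hY
  refine ⟨ev, ?_, h3, p, fun q => ?_⟩
  · rw [h1, h2]; exact hRt
  · obtain ⟨t, ht, h4, h5⟩ := hp q
    rw [h4, h5, h2]
    exact ⟨hY t ht, (T24_mt G z _ _ (hW.2 t (le_trans ht hT))).2⟩

theorem T24 {V : Type} {b K M : ℕ} [Finite V] (P : Par) (hP : P.Ok)
    (G : Base V b K) (hbal : Bal P G) (z : V → Fin M) (i m R rad : ℕ)
    (hm : 2 ≤ m) (hmi : m ≤ P.m i) (hrad : (10 * P.rho i + 1) * m ≤ rad + 1)
    (hCl : ∀ j ≤ i, Cl P G z j) (X Y : ℕ → V) (T : ℕ)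
    (hW : PW G.r G.r (Mt (gs G z ∅) (gs G z ∅)) X Y T) (hRt : Rt G R rad (X 0) (Y 0))
    (hfar : ∃ t ≤ T, ¬ W G.r ((10 * P.rho i + 1) * (m - 1) - 1) (X 0) (X t)) :
    ∃ ev : EC P V b i m, badC P G R rad ev z := by
  have hle : (10 * P.rho i + 1) * m - 1 ≤ rad := by omega
  rcases Pool.Agent.LSN.T14 G.r G.refl X Y T (10 * P.rho i) m hm (fun t ht => (hW.1 t ht).1)
    (fun t ht => (hW.1 t ht).2) hfar with ⟨tau, hGC, hT, hY⟩ | ⟨tau, hGC, hT, hX⟩
  · exact T24_side P hP G hbal z i m R rad hm hmi hCl X Y T hW hRt tau hGC hT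
      (fun t ht => Pool.Agent.LSN.W_mono G.refl hle (hY t ht))
  · refine T24_side P hP G hbal z i m R rad hm hmi hCl Y X T ?_ ?_ tau hGC hT
      (fun t ht => Pool.Agent.LSN.W_mono G.refl hle (hX t ht))
    · exact ⟨fun t ht => ⟨(hW.1 t ht).2, (hW.1 t ht).1⟩, fun t ht => T24_symm G z _ _ (hW.2 t ht)⟩
    · exact ⟨fun h => hRt.1 (Pool.Agent.LSN.W_symm G.symm h),
        fun h => Pool.Agent.LSN.W_symm G.symm (hRt.2 h)⟩

end Pool.Agent.SXG
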