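import Pool.Agent.SXG.J02
import Pool.Agent.SXG.J05
import Pool.Agent.SXG.J15
import Pool.Agent.SXG.Defs

/-!
# SXG: T26, T27 (cardinalities; first kind: erased vertices)
-/

set_option autoImplicit false

namespace Pool.Agent.SXG

open Finset
open Pool.Agent.LSN (W Base Rch PW sel lf reg GC Rt tw)

/-- T26. `Fintype.card (Ix P i) = P.g i`; `Sk`, `Pt` recursions. -/
theorem T26 (P : Par) (b : ℕ) :
    (∀ i, Fintype.card (Ix P i) = P.g i) ∧
    Fintype.card (Sk P b 0) = b ∧ Fintype.card (Pt P 0) = 1 ∧
    (∀ i, Fintype.card (Sk P b (i + 1)) =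
      (P.m i * P.ph (10 * P.rho i + 1)) ^ P.m i * Fintype.card (Sk P b i) ^ P.m i) ∧
    ∀ i, Fintype.card (Pt P (i + 1)) = (P.Xi i * Fintype.card (Pt P i)) ^ P.m i := by
  refine ⟨?_, ?_, ?_, ?_, ?_⟩
  · intro i
    induction i with
    | zero =>
      have h : Fintype.card (Ix P 0) = Fintype.card Unit :=
        Fintype.card_congr (Equiv.refl _)
      rw [h, Fintype.card_unit]
      rfl
    | succ i ih =>
      have h : Fintype.card (Ix P (i + 1)) = Fintype.card (Fin (P.m i) × Ix P i) :=
        Fintype.card_congr (Equiv.refl _)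
      rw [h, Fintype.card_prod, Fintype.card_fin, ih]
      rfl
  · have h : Fintype.card (Sk P b 0) = Fintype.card (Fin b) :=
      Fintype.card_congr (Equiv.refl _)
    rw [h, Fintype.card_fin]
  · have h : Fintype.card (Pt P 0) = Fintype.card Unit :=
      Fintype.card_congr (Equiv.refl _)
    rw [h, Fintype.card_unit]
  · intro i
    have h : Fintype.card (Sk P b (i + 1)) =
        Fintype.card ((Fin (P.m i) → Fin (P.m i) × Fin (P.ph (10 * P.rho i + 1))) ×
          (Fin (P.m i) → Sk P b i)) :=
      Fintype.card_congr (Equiv.refl _)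
    rw [h, Fintype.card_prod, Fintype.card_fun, Fintype.card_fun, Fintype.card_prod,
      Fintype.card_fin, Fintype.card_fin]
  · intro i
    have h : Fintype.card (Pt P (i + 1)) =
        Fintype.card (Fin (P.m i) → Fin (P.Xi i) × Pt P i) :=
      Fintype.card_congr (Equiv.refl _)
    rw [h, Fintype.card_fun, Fintype.card_prod, Fintype.card_fin, Fintype.card_fin]

/-- T27. First kind: erased vertices lie in `DG`, and their number. -/
theorem T27 {V : Type} [Fintype V] {b K M i n : ℕ} (P : Par) (hP : P.Ok) (G : Base V b K)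
    (e : EG P V b K M i n) :
    UG P G e ⊆ DG P G e ∧
    ∀ z : V → Fin M, badG P G e z → (UG P G e).card = P.Nn i * P.g i := by
  classical
  constructor
  · intro x hx
    unfold UG at hx
    rw [Finset.mem_image] at hx
    obtain ⟨q, _, rfl⟩ := hx
    unfold DG
    rw [Finset.mem_filter]
    refine ⟨Finset.mem_univ _, ?_⟩
    have h1 : W G.r (50 * P.rho i * q.1.val) e.1 (zG P G e q.1.val) :=
      (T03 G e.2.2.1 e.1).2.2 q.1.val
    have h2 : W G.r (P.rho i) (zG P G e q.1.val) (eG P G e q) :=
      T05 P G i (e.2.2.2.2 q.1) (zG P G e q.1.val) q.2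
    have h3 := Pool.Agent.LSN.W_add h1 h2
    refine Pool.Agent.LSN.W_mono G.refl ?_ h3
    have h4 : q.1.val ≤ P.Nn i := q.1.isLt.le
    calc 50 * P.rho i * q.1.val + P.rho i
        ≤ 50 * P.rho i * P.Nn i + P.rho i :=
          Nat.add_le_add_right (Nat.mul_le_mul_left _ h4) _
      _ = P.Nn i * (50 * P.rho i) + P.rho i := by rw [Nat.mul_comm]
  · intro z hz
    have h51 := (T51 P hP G i (fun k : Fin (P.Nn i) => zG P G e k.val) e.2.2.2.2
      hz.2.2.1).1
    unfold UG
    rw [Finset.card_image_of_injective]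
    · rw [Finset.card_univ, Fintype.card_prod, Fintype.card_fin, (T26 P b).1 i]
    · intro q q' hq
      refine h51 q q' ?_
      have hq' : er P G i (e.2.2.2.2 q.1) (zG P G e q.1.val) q.2 =
          er P G i (e.2.2.2.2 q'.1) (zG P G e q'.1.val) q'.2 := hq
      rw [hq']
      exact G.refl _

end Pool.Agent.SXG
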