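import Pool.Agent.SXG.J02
import Pool.Agent.SXG.J05
import Pool.Agent.SXG.Defs

set_option autoImplicit false

namespace Pool.Agent.SXG

open Pool.Agent.LSN (W Base Rch PW sel lf reg GC Rt tw)

theorem T28 {V : Type} [Fintype V] {b K M i n : ℕ} (P : Par) (G : Base V b K)
    (e : EG P V b K M i n) (z z' : V → Fin M)
    (h : ∀ x ∈ DG P G e, z x = z' x) (hz : badG P G e z) : badG P G e z' := by
  obtain ⟨h1, h2, h3, p, hp⟩ := hz
  have hctr : ∀ l, W G.r (50 * P.rho i * l) e.1 (zG P G e l) := fun l =>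
    (T03 G e.2.2.1 e.1).2.2 l
  have hle : ∀ l : Fin (P.Nn i), 50 * P.rho i * l.val + P.rho i ≤
      P.Nn i * (50 * P.rho i) + P.rho i := by
    intro l
    have h4 : 50 * P.rho i * l.val ≤ 50 * P.rho i * P.Nn i :=
      Nat.mul_le_mul_left _ (le_of_lt l.isLt)
    rw [mul_comm (P.Nn i)]
    exact Nat.add_le_add_right h4 _
  have hball : ∀ (l : Fin (P.Nn i)) (v : V), W G.r (P.rho i) (zG P G e l.val) v →
      z v = z' v := by
    intro l v hv
    refine h _ ?_
    simp only [DG, Finset.mem_filter, Finset.mem_univ, true_and]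
    exact Pool.Agent.LSN.W_mono G.refl (hle l) (Pool.Agent.LSN.W_add (hctr l.val) hv)
  refine ⟨h1, h2, h3, p, fun q => ?_⟩
  have h5 := hp q
  have h6 : z (eG P G e q) = z' (eG P G e q) :=
    hball q.1 _ (T05 P G i (e.2.2.2.2 q.1) (zG P G e q.1.val) q.2)
  have h7 : pG P G z e p q = pG P G z' e p q :=
    T07 P G z z' (Set.range (eG P G e)) (sD e.2.1).r (sD e.2.1).col (sD e.2.1).c
      (sD e.2.1).c (sD e.2.1).w Set.univ i (e.2.2.2.2 q.1) (p q.1) (zG P G e q.1.val)
      (e.2.2.2.1 q.1) q.2 (fun v hv _ => hball q.1 v hv) (fun _ _ => rfl)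
  rw [← h6, ← h7]
  exact h5

end Pool.Agent.SXG
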