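import Pool.Agent.SXG.Defs
/-!
# SXG: target T29 (first kind: weight)
-/

set_option autoImplicit false

namespace Pool.Agent.SXG

open Pool.Agent.LSN (W Base Rch PW sel lf reg GC Rt tw)
open Finset

/-- the partners depend only on the colours outside the wild set `U` -/
lemma T29_pa {V N : Type} {b K M : ℕ} [Finite V] [Finite N] (P : Par) (G : Base V b K)
    (c c' : V → Fin M) (U : Set V) (B : Str K M N) (Bs : Set N)
    (hc : ∀ v, v ∉ U → c v = c' v) :
    ∀ (i : ℕ) (s : Sk P b i) (p : Pt P i) (x : V) (y : N) (q : Ix P i),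
      pa P G c U B Bs i s p x y q = pa P G c' U B Bs i s p x y q := by
  intro i
  induction i with
  | zero => intro s p x y q; rfl
  | succ i ih =>
    intro s p x y q
    have hAl : ∀ R : Set V, Al (gs G c U) B R Bs = Al (gs G c' U) B R Bs := by
      intro R
      funext u v
      unfold Al Mt gs
      by_cases hu : u ∈ U
      · simp [hu]
      · simp only [hc u hu]
    unfold pa Prt
    rw [hAl]
    exact ih _ _ _ _ _

/-- T29. First kind: weight. -/
theorem T29 {V : Type} [Fintype V] {b K M i n : ℕ} (P : Par) (G : Base V b K)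
    (e : EG P V b K M i n) (z0 : V → Fin M) :
    {z : V → Fin M | badG P G e z ∧ ∀ x, x ∉ UG P G e → z x = z0 x}.ncard ≤
      Fintype.card (Pt P i) ^ P.Nn i := by
  classical
  have hex : ∀ z : {z : V → Fin M |
      badG P G e z ∧ ∀ x, x ∉ UG P G e → z x = z0 x},
      ∃ p : Fin (P.Nn i) → Pt P i, ∀ q : Fin (P.Nn i) × Ix P i,
      z.1 (eG P G e q) = (sD e.2.1).c (pG P G z.1 e p q) := fun z => z.2.1.2.2.2
  choose p hp using hex
  have hinj : Function.Injective p := by
    intro z z' hzz
    apply Subtype.ext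
    have hout : ∀ x, x ∉ UG P G e → z.1 x = z'.1 x := fun x hx =>
      (z.2.2 x hx).trans (z'.2.2 x hx).symm
    have hout2 : ∀ x, x ∉ Set.range (eG P G e) → z.1 x = z'.1 x := by
      intro x hx
      apply hout
      intro hmem
      unfold UG at hmem
      rw [Finset.mem_image] at hmem
      obtain ⟨q, _, hq⟩ := hmem
      exact hx ⟨q, hq⟩
    funext x
    by_cases hx : x ∈ UG P G e
    · unfold UG at hx
      rw [Finset.mem_image] at hx
      obtain ⟨q, _, rfl⟩ := hx
      have h1 := hp z q
      have h2 := hp z' q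
      have h3 : pG P G z.1 e (p z) q = pG P G z'.1 e (p z') q := by
        rw [hzz]
        exact T29_pa P G z.1 z'.1 _ _ _ hout2 i _ _ _ _ _
      rw [h1, h2, h3]
    · exact hout x hx
  rw [← Nat.card_coe_set_eq]
  refine (Nat.card_le_card_of_injective p hinj).trans (le_of_eq ?_)
  rw [Nat.card_eq_fintype_card, Fintype.card_fun, Fintype.card_fin]

end Pool.Agent.SXG
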