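import Pool.Agent.SXG.Defs
import Pool.Agent.LSN.J01
/-!
# SXG: target T30 (first kind: number of events at a variable)
-/

set_option autoImplicit false

namespace Pool.Agent.SXG

open Pool.Agent.LSN (W Base Rch PW sel lf reg GC Rt tw)

/-- T30. First kind: number of events containing a variable (LSN/J30, `T30`): the root is in a ball
around the vertex (`hbal`, `W_symm`), the other data are free. -/
theorem T30 {V : Type} [Fintype V] {b K M i n : ℕ} (P : Par) (G : Base V b K)
    (hbal : Bal P G) (x : V) :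
    {e : EG P V b K M i n | x ∈ DG P G e ∧ ∃ z : V → Fin M, badG P G e z}.ncard ≤
      P.ph (P.Nn i * (50 * P.rho i) + P.rho i) *
        ((2 ^ n) ^ n * (K ^ n * (M ^ n * 2 ^ n))) *
        ((P.Nn i * P.ph (50 * P.rho i)) ^ P.Nn i * (n ^ P.Nn i *
          Fintype.card (Sk P b i) ^ P.Nn i)) := by
  classical
  let Q : Type := Dat K M n × (Fin (P.Nn i) → Fin (P.Nn i) × Fin (P.ph (50 * P.rho i))) ×
    (Fin (P.Nn i) → Fin n) × (Fin (P.Nn i) → Sk P b i)
  let S : Set V := {u | W G.r (P.Nn i * (50 * P.rho i) + P.rho i) x u}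
  have hS : S.ncard ≤ P.ph (P.Nn i * (50 * P.rho i) + P.rho i) := hbal _ x
  let E : Set (V × Q) := {e : EG P V b K M i n | x ∈ DG P G e ∧
      ∃ z : V → Fin M, badG P G e z}
  have hsub : E ⊆ S ×ˢ (Set.univ : Set Q) := by
    rintro e ⟨h1, -⟩
    refine ⟨?_, Set.mem_univ _⟩
    unfold DG at h1
    rw [Finset.mem_filter] at h1
    exact Pool.Agent.LSN.W_symm G.symm h1.2
  have hQ : (Set.univ : Set Q).ncard =
      ((2 ^ n) ^ n * (K ^ n * (M ^ n * 2 ^ n))) *
        ((P.Nn i * P.ph (50 * P.rho i)) ^ P.Nn i * (n ^ P.Nn i *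
          Fintype.card (Sk P b i) ^ P.Nn i)) := by
    rw [Set.ncard_univ, Nat.card_eq_fintype_card]
    simp only [Q, Dat, Fintype.card_prod, Fintype.card_fun, Fintype.card_fin, Fintype.card_bool]
  calc E.ncard ≤ (S ×ˢ (Set.univ : Set Q)).ncard := Set.ncard_le_ncard hsub (Set.toFinite _)
    _ = S.ncard * (Set.univ : Set Q).ncard := Set.ncard_prod
    _ ≤ _ := by
      rw [hQ]
      refine (Nat.mul_le_mul_right _ hS).trans_eq ?_
      exact (Nat.mul_assoc _ _ _).symm

end Pool.Agent.SXG
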