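import Pool.Agent.SXG.J02
import Pool.Agent.SXG.J05
import Pool.Agent.SXG.J15
import Pool.Agent.SXG.J26
import Pool.Agent.SXG.Defs
/-!
# SXG: targets T31, T32 (second kind: support, number, locality)
-/

set_option autoImplicit false

namespace Pool.Agent.SXG

open Finset
open Pool.Agent.LSN (W Base Rch PW sel lf reg GC Rt tw)

lemma T31_bound {rho m rad l : ℕ} (hrad : (10 * rho + 1) * m ≤ rad + 1) (hl : l < m) :
    (10 * rho + 1) * l + 10 * rho ≤ rad := by
  have h1 : (10 * rho + 1) * (l + 1) ≤ (10 * rho + 1) * m := Nat.mul_le_mul_left _ hl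
  have h2 : (10 * rho + 1) * (l + 1) = (10 * rho + 1) * l + (10 * rho + 1) := by ring
  omega

lemma T31_near {V : Type} [Finite V] {b K i m : ℕ} (P : Par) (G : Base V b K) (rad : ℕ)
    (hrad : (10 * P.rho i + 1) * m ≤ rad + 1) (e : EC P V b i m) (q : Fin m × Ix P i) :
    W G.r rad e.1 (eC P G e q) := by
  have h1 := (T03 (k := 10 * P.rho i + 1) G e.2.2.1 e.1).2.2 q.1.val
  have h2 := T05 P G i (e.2.2.2 q.1) (ctr G.r (10 * P.rho i + 1) e.2.2.1 e.1 q.1.val) q.2
  have h3 := Pool.Agent.LSN.W_add h1 h2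
  have h4 := T31_bound hrad q.1.isLt
  exact Pool.Agent.LSN.W_mono G.refl (by omega) h3

open Classical in
lemma T31_D2 {V : Type} [Fintype V] {b K : ℕ} (G : Base V b K) (rad : ℕ) (x y : V)
    (u : V) : u ∈ D2 G rad x y ↔ W G.r rad x u ∨ W G.r rad y u := by
  unfold D2
  simp only [Finset.mem_filter, Finset.mem_univ, true_and]

/-- T31. Second kind: support and number. -/
theorem T31 {V : Type} [Fintype V] {b K M i m : ℕ} (P : Par) (hP : P.Ok) (G : Base V b K)
    (R rad : ℕ) (hrad : (10 * P.rho i + 1) * m ≤ rad + 1) (e : EC P V b i m) :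
    UC P G e ⊆ D2 G rad e.1 e.2.1 ∧
    ∀ z : V → Fin M, badC P G R rad e z → (UC P G e).card = m * P.g i := by
  classical
  constructor
  · intro x hx
    unfold UC at hx
    rw [Finset.mem_image] at hx
    obtain ⟨q, _, rfl⟩ := hx
    rw [T31_D2]
    exact Or.inl (T31_near P G rad hrad e q)
  · intro z hz
    have hinj : Function.Injective (eC P G e) := by
      intro q q' hq
      refine (T51 P hP G i _ _ hz.2.1).1 q q' ?_
      have h0 : G.r (eC P G e q) (eC P G e q') := by
        rw [← hq]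
        exact G.refl _
      exact h0
    unfold UC
    rw [Finset.card_image_of_injective _ hinj, Finset.card_univ, Fintype.card_prod,
      Fintype.card_fin, (T26 P b).1 i]

lemma T32_pC {V : Type} [Fintype V] {b K M i m : ℕ} (P : Par) (G : Base V b K)
    (rad : ℕ) (hrad : (10 * P.rho i + 1) * m ≤ rad + 1) (e : EC P V b i m)
    (z z' : V → Fin M) (h : ∀ x ∈ D2 G rad e.1 e.2.1, z x = z' x)
    (p : Fin m → Fin (P.Xi i) × Pt P i) (q : Fin m × Ix P i) :
    pC P G z rad e p q = pC P G z' rad e p q := by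
  have hz : ∀ u, W G.r rad e.1 u ∨ W G.r rad e.2.1 u → z u = z' u := by
    intro u hu
    exact h u ((T31_D2 G rad e.1 e.2.1 u).2 hu)
  have hAl : Al (gs G z (Set.range (eC P G e))) (gs G z ∅)
      (reg G.r (zC P G e) m (10 * P.rho i)) {v | W G.r rad e.2.1 v} =
      Al (gs G z' (Set.range (eC P G e))) (gs G z' ∅)
      (reg G.r (zC P G e) m (10 * P.rho i)) {v | W G.r rad e.2.1 v} := by
    funext u v
    apply propext
    unfold Al
    refine and_congr_right fun hu => and_congr_right fun hv => ?_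
    have hu' : W G.r rad e.1 u := by
      obtain ⟨l, hl, hlu⟩ := hu
      have h1 := (T03 (k := 10 * P.rho i + 1) G e.2.2.1 e.1).2.2 l
      exact Pool.Agent.LSN.W_mono G.refl (T31_bound hrad hl) (Pool.Agent.LSN.W_add h1 hlu)
    have hv' : W G.r rad e.2.1 v := hv
    unfold Mt gs
    refine and_congr_right fun _ => ?_
    simp only
    rw [hz u (Or.inl hu'), hz v (Or.inr hv')]
  have hPrt : ∀ u : V, Prt (gs G z (Set.range (eC P G e))) (gs G z ∅)
      (reg G.r (zC P G e) m (10 * P.rho i)) {v | W G.r rad e.2.1 v} e.1 e.2.1 u =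
      Prt (gs G z' (Set.range (eC P G e))) (gs G z' ∅)
      (reg G.r (zC P G e) m (10 * P.rho i)) {v | W G.r rad e.2.1 v} e.1 e.2.1 u := by
    intro u
    unfold Prt
    rw [hAl]
    rfl
  unfold pC
  rw [hPrt]
  refine T07 P G z z' (Set.range (eC P G e)) G.r G.col z z' (fun v => v ∈ (∅ : Set V))
    {v | W G.r rad e.2.1 v} i (e.2.2.2 q.1) (p q.1).2 (zC P G e q.1.val) _ q.2 ?_ ?_
  · intro v hv _
    have h1 := (T03 (k := 10 * P.rho i + 1) G e.2.2.1 e.1).2.2 q.1.val
    have h4 := T31_bound hrad q.1.isLt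
    exact hz v (Or.inl (Pool.Agent.LSN.W_mono G.refl (by omega) (Pool.Agent.LSN.W_add h1 hv)))
  · intro w hw
    exact hz w (Or.inr hw)

/-- T32. Second kind: locality. -/
theorem T32 {V : Type} [Fintype V] {b K M i m : ℕ} (P : Par) (G : Base V b K)
    (R rad : ℕ) (hrad : (10 * P.rho i + 1) * m ≤ rad + 1) (e : EC P V b i m)
    (z z' : V → Fin M) (h : ∀ x ∈ D2 G rad e.1 e.2.1, z x = z' x)
    (hz : badC P G R rad e z) : badC P G R rad e z' := by
  obtain ⟨h1, h2, p, hp⟩ := hz
  refine ⟨h1, h2, p, fun q => ?_⟩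
  obtain ⟨h3, h4⟩ := hp q
  have hpC := T32_pC P G rad hrad e z z' h p q
  have hcz : ∀ u, W G.r rad e.1 u ∨ W G.r rad e.2.1 u → z u = z' u := by
    intro u hu
    exact h u ((T31_D2 G rad e.1 e.2.1 u).2 hu)
  rw [← hpC]
  refine ⟨h3, ?_⟩
  rw [← hcz _ (Or.inl (T31_near P G rad hrad e q)), ← hcz _ (Or.inr h3)]
  exact h4

end Pool.Agent.SXG
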