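import Pool.Agent.SXG.J02
import Pool.Agent.SXG.J05
import Pool.Agent.SXG.Defs
/-!
# SXG, target T33 (weight of the events of the second kind)
-/

set_option autoImplicit false

namespace Pool.Agent.SXG

open Finset
open Pool.Agent.LSN (W Base Rch PW sel lf reg GC Rt tw W_add W_mono W_symm)

/-- erased vertices of an event of the second kind lie in the ball around the first root -/
lemma T33_near {V : Type} [Finite V] {b K i m : ℕ} (P : Par) (G : Base V b K)
    (rad : ℕ) (hrad : (10 * P.rho i + 1) * m ≤ rad + 1) (e : EC P V b i m)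
    (q : Fin m × Ix P i) : W G.r rad e.1 (eC P G e q) := by
  have h1 := (T03 (k := 10 * P.rho i + 1) G e.2.2.1 e.1).2.2 q.1.val
  have h2 := T05 P G i (e.2.2.2 q.1)
    (ctr G.r (10 * P.rho i + 1) e.2.2.1 e.1 q.1.val) q.2
  have h3 := W_add h1 h2
  refine W_mono G.refl ?_ h3
  have h4 : (10 * P.rho i + 1) * (q.1.val + 1) ≤ (10 * P.rho i + 1) * m :=
    Nat.mul_le_mul_left _ q.1.isLt
  have h5 : (10 * P.rho i + 1) * (q.1.val + 1) =
      (10 * P.rho i + 1) * q.1.val + (10 * P.rho i + 1) := by ring
  omega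

/-- partners sets depend only on the colours outside `U` and on the colours on `Bs` -/
lemma T33_Prt {V : Type} {b K M : ℕ} (G : Base V b K) (c c' : V → Fin M) (U : Set V)
    (R : Set V) (Bs : Set V) (hc : ∀ v, v ∉ U → c v = c' v) (hd : ∀ v ∈ Bs, c v = c' v)
    (x y u : V) :
    Prt (gs G c U) (gs G c ∅) R Bs x y u = Prt (gs G c' U) (gs G c' ∅) R Bs x y u := by
  have hAl : Al (gs G c U) (gs G c ∅) R Bs = Al (gs G c' U) (gs G c' ∅) R Bs := by
    funext a a'
    apply propext
    unfold Al Mt gs
    dsimp only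
    refine and_congr_right fun _ => and_congr_right fun ha' => and_congr_right fun _ => ?_
    by_cases haU : a ∈ U
    · simp [haU]
    · rw [hc a haU, hd a' ha']
  unfold Prt
  rw [hAl]
  rfl

/-- the partners of `z` and `z0` are equal -/
lemma T33_pC {V : Type} [Finite V] {b K M i m : ℕ} (P : Par) (G : Base V b K)
    (c c' : V → Fin M) (rad : ℕ) (e : EC P V b i m)
    (hc : ∀ v, v ∉ Set.range (eC P G e) → c v = c' v)
    (hd : ∀ v, W G.r rad e.2.1 v → c v = c' v)
    (p : Fin m → Fin (P.Xi i) × Pt P i) (q : Fin m × Ix P i) :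
    pC P G c rad e p q = pC P G c' rad e p q := by
  unfold pC
  rw [T33_Prt G c c' (Set.range (eC P G e)) _ {v | W G.r rad e.2.1 v} hc (fun v hv => hd v hv)]
  exact T07 P G c c' _ G.r G.col c c' (fun v => v ∈ (∅ : Set V)) _ i _ _ _ _ _
    (fun v _ hv => hc v hv) (fun v hv => hd v hv)

theorem T33 {V : Type} [Fintype V] {b K M i m : ℕ} (P : Par) (G : Base V b K)
    (R rad : ℕ) (hrad : (10 * P.rho i + 1) * m ≤ rad + 1) (e : EC P V b i m)
    (z0 : V → Fin M) :
    {z : V → Fin M | badC P G R rad e z ∧ ∀ x, x ∉ UC P G e → z x = z0 x}.ncard ≤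
      (P.Xi i * Fintype.card (Pt P i)) ^ m := by
  classical
  set F : (Fin m → Fin (P.Xi i) × Pt P i) → (V → Fin M) := fun p x =>
    if h : ∃ q, eC P G e q = x then
      z0 (pC P G z0 rad e p h.choose) else z0 x with hF
  have hsub : {z : V → Fin M | badC P G R rad e z ∧
      ∀ x, x ∉ UC P G e → z x = z0 x} ⊆ Set.range F := by
    rintro z ⟨⟨hRt, -, p, hp⟩, hz⟩
    have hmem : ∀ x, x ∈ UC P G e ↔ ∃ q, eC P G e q = x := by
      intro x
      unfold UC
      simp only [Finset.mem_image, Finset.mem_univ, true_and]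
    have hc : ∀ v, v ∉ Set.range (eC P G e) → z v = z0 v := by
      intro v hv
      apply hz
      intro hx
      exact hv ((hmem v).1 hx)
    have hd : ∀ v, W G.r rad e.2.1 v → z v = z0 v := by
      intro v hv
      apply hc
      rintro ⟨q', hq'⟩
      have h5 := T33_near P G rad hrad e q'
      rw [hq'] at h5
      have h6 := W_add h5 (W_symm G.symm hv)
      apply hRt.1
      rw [show 2 * rad = rad + rad by ring]
      exact h6
    have hpC : ∀ q, pC P G z rad e p q = pC P G z0 rad e p q := fun q =>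
      T33_pC P G z z0 rad e hc hd p q
    have hval : ∀ q, z (eC P G e q) = z0 (pC P G z0 rad e p q) := by
      intro q
      obtain ⟨h1, h2⟩ := hp q
      rw [hpC q] at h1 h2
      rw [h2]
      exact hd _ h1
    refine ⟨p, ?_⟩
    funext x
    rw [hF]
    dsimp only
    by_cases h : ∃ q, eC P G e q = x
    · rw [dif_pos h]
      rw [← hval h.choose, h.choose_spec]
    · rw [dif_neg h]
      exact (hz x (fun hx => h ((hmem x).1 hx))).symm
  have h1 := Set.ncard_le_ncard hsub (Set.toFinite _)
  have h2 : (Set.range F).ncard ≤ Fintype.card (Fin m → Fin (P.Xi i) × Pt P i) := by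
    rw [← Set.image_univ]
    refine (Set.ncard_image_le (Set.toFinite _)).trans ?_
    rw [Set.ncard_univ, Nat.card_eq_fintype_card]
  refine h1.trans (h2.trans ?_)
  rw [Fintype.card_fun, Fintype.card_prod, Fintype.card_fin, Fintype.card_fin]

end Pool.Agent.SXG
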