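import Pool.Agent.SXG.Defs
import Pool.Agent.LSN.J34

/-!
# SXG: targets T34, T35 (number of root pairs; second kind: number of events)
-/

set_option autoImplicit false

namespace Pool.Agent.SXG

open Finset
open Pool.Agent.LSN (W Base Rch PW sel lf reg GC Rt tw W_symm)

/-- T34. Number of root pairs. -/
theorem T34 {V : Type} [Fintype V] {b K : ℕ} (P : Par) (hP : P.Ok) (G : Base V b K)
    (hbal : Bal P G) (R rad m : ℕ) (hV : rad < R ∨ Fintype.card V ≤ 2 ^ m) (v : V) :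
    {p : V × V | (W G.r rad p.1 v ∨ W G.r rad p.2 v) ∧ Rt G R rad p.1 p.2}.ncard ≤
      2 * (P.ph rad * (P.ph (2 * rad + 2) * 2 ^ m)) := by
  classical
  let A : Set V := {u | W G.r rad v u}
  let F : V → Set V := fun x => {y | rad < R → W G.r (2 * rad + 2) x y}
  have hA : A.ncard ≤ P.ph rad := hbal rad v
  have h2m : 1 ≤ 2 ^ m := Nat.one_le_two_pow
  have hF : ∀ x, (F x).ncard ≤ P.ph (2 * rad + 2) * 2 ^ m := by
    intro x
    by_cases h : rad < R
    · have hx : F x = {y | W G.r (2 * rad + 2) x y} := by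
        ext y
        exact ⟨fun hy => hy h, fun hy _ => hy⟩
      rw [hx]
      exact (hbal (2 * rad + 2) x).trans (Nat.le_mul_of_pos_right _ (by omega))
    · have h1 : Fintype.card V ≤ 2 ^ m := hV.resolve_left h
      have h2 : (F x).ncard ≤ Fintype.card V := by
        rw [← Nat.card_eq_fintype_card, ← Set.ncard_univ]
        exact Set.ncard_le_ncard (Set.subset_univ _) (Set.toFinite _)
      exact (h2.trans h1).trans (Nat.le_mul_of_pos_left _ (hP.2.1 _))
  let S1 : Set (V × V) := {p | p.1 ∈ A ∧ p.2 ∈ F p.1}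
  have h1 : S1.ncard ≤ P.ph rad * (P.ph (2 * rad + 2) * 2 ^ m) :=
    Pool.Agent.LSN.T34_cnt A F _ _ hA hF
  have h2 : (Prod.swap '' S1).ncard ≤ P.ph rad * (P.ph (2 * rad + 2) * 2 ^ m) :=
    (Set.ncard_image_le (Set.toFinite _)).trans h1
  have hsub : {p : V × V | (W G.r rad p.1 v ∨ W G.r rad p.2 v) ∧ Rt G R rad p.1 p.2} ⊆
      S1 ∪ Prod.swap '' S1 := by
    rintro ⟨x, y⟩ ⟨h3 | h3, _, h4⟩
    · exact Or.inl ⟨W_symm G.symm h3, h4⟩
    · exact Or.inr ⟨(y, x), ⟨W_symm G.symm h3, fun h5 => W_symm G.symm (h4 h5)⟩, rfl⟩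
  calc _ ≤ (S1 ∪ Prod.swap '' S1).ncard := Set.ncard_le_ncard hsub (Set.toFinite _)
    _ ≤ S1.ncard + (Prod.swap '' S1).ncard := Set.ncard_union_le _ _
    _ ≤ _ := by omega

/-- T35. Second kind: number of events containing a variable. -/
theorem T35 {V : Type} [Fintype V] {b K M i m : ℕ} (P : Par) (hP : P.Ok) (G : Base V b K)
    (hbal : Bal P G) (R rad : ℕ) (hV : rad < R ∨ Fintype.card V ≤ 2 ^ m) (x : V) :
    {e : EC P V b i m | x ∈ D2 G rad e.1 e.2.1 ∧
      ∃ z : V → Fin M, badC P G R rad e z}.ncard ≤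
      2 * (P.ph rad * (P.ph (2 * rad + 2) * 2 ^ m)) *
        ((m * P.ph (10 * P.rho i + 1)) ^ m * Fintype.card (Sk P b i) ^ m) := by
  classical
  let Q : Type := (Fin m → Fin m × Fin (P.ph (10 * P.rho i + 1))) × (Fin m → Sk P b i)
  let E : Set (EC P V b i m) := {e | x ∈ D2 G rad e.1 e.2.1 ∧
      ∃ z : V → Fin M, badC P G R rad e z}
  let S : Set (V × V) :=
    {p | (W G.r rad p.1 x ∨ W G.r rad p.2 x) ∧ Rt G R rad p.1 p.2}
  have h34 : S.ncard ≤ 2 * (P.ph rad * (P.ph (2 * rad + 2) * 2 ^ m)) :=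
    T34 P hP G hbal R rad m hV x
  let φ : EC P V b i m → (V × V) × Q := fun e => ((e.1, e.2.1), e.2.2)
  have hinj : Function.Injective φ := by
    rintro ⟨a, c, q⟩ ⟨a', c', q'⟩ h
    have h1 : ((a, c), q) = ((a', c'), q') := h
    simp only [Prod.mk.injEq] at h1
    obtain ⟨⟨rfl, rfl⟩, rfl⟩ := h1
    rfl
  have hsub : φ '' E ⊆ S ×ˢ (Set.univ : Set Q) := by
    rintro _ ⟨e, ⟨h1, z, h2⟩, rfl⟩
    refine ⟨⟨?_, h2.1⟩, Set.mem_univ _⟩
    unfold D2 at h1
    rw [Finset.mem_filter] at h1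
    exact h1.2
  have hQ : (Set.univ : Set Q).ncard =
      (m * P.ph (10 * P.rho i + 1)) ^ m * Fintype.card (Sk P b i) ^ m := by
    rw [Set.ncard_univ, Nat.card_eq_fintype_card, Fintype.card_prod, Fintype.card_fun,
      Fintype.card_fun, Fintype.card_prod, Fintype.card_fin, Fintype.card_fin]
  calc E.ncard = (φ '' E).ncard := (Set.ncard_image_of_injective _ hinj).symm
    _ ≤ (S ×ˢ (Set.univ : Set Q)).ncard := Set.ncard_le_ncard hsub (Set.toFinite _)
    _ = S.ncard * (Set.univ : Set Q).ncard := Set.ncard_prod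
    _ ≤ _ := by
      rw [hQ]
      exact Nat.mul_le_mul_right _ h34

end Pool.Agent.SXG
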