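import Pool.Agent.SXG.Defs
set_option autoImplicit false

namespace Pool.Agent.SXG

open Pool.Agent.LSN (W Base Rch PW sel lf reg GC Rt tw)

theorem T37 (P : Par) (hP : P.Ok) (L rad : ℕ) (hL : 1 ≤ L)
    (hR : rad + 1 ≤ P.m (L - 1) * (10 * P.rho (L - 1) + 1)) (h : 22 ≤ rad + 1) :
    ∃ i < L, ∃ m, 2 ≤ m ∧ m ≤ P.m i ∧ (10 * P.rho i + 1) * m ≤ rad + 1 ∧
      rad + 1 ≤ 22 * m * (10 * P.rho i + 1) ∧
      (rad + 1 = P.m (L - 1) * (10 * P.rho (L - 1) + 1) → m = P.m (L - 1)) := by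
  classical
  have hr0 : P.rho 0 = 1 := rfl
  have h0 : 2 * (10 * P.rho 0 + 1) ≤ rad + 1 := by rw [hr0]; omega
  let p : ℕ → Prop := fun i => 2 * (10 * P.rho i + 1) ≤ rad + 1
  let i := Nat.findGreatest p (L - 1)
  have hi : p i := Nat.findGreatest_spec (P := p) (Nat.zero_le (L - 1)) h0
  have hiL : i ≤ L - 1 := Nat.findGreatest_le (P := p) (L - 1)
  have hmax : ∀ j, i < j → j ≤ L - 1 → ¬ p j := fun j h1 h2 =>
    Nat.findGreatest_is_greatest (P := p) h1 h2
  have hi' : 2 * (10 * P.rho i + 1) ≤ rad + 1 := hi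
  clear_value i
  have hpos : 0 < 10 * P.rho i + 1 := Nat.succ_pos _
  have hm2 : 2 ≤ P.m i := hP.1 i
  refine ⟨i, by omega, min ((rad + 1) / (10 * P.rho i + 1)) (P.m i), ?_, min_le_right _ _,
    ?_, ?_, ?_⟩
  · exact le_min ((Nat.le_div_iff_mul_le hpos).2 hi') hm2
  · calc (10 * P.rho i + 1) * min ((rad + 1) / (10 * P.rho i + 1)) (P.m i)
        ≤ (10 * P.rho i + 1) * ((rad + 1) / (10 * P.rho i + 1)) :=
          Nat.mul_le_mul_left _ (min_le_left _ _)
      _ ≤ rad + 1 := Nat.mul_div_le _ _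
  · rcases le_total ((rad + 1) / (10 * P.rho i + 1)) (P.m i) with hc | hc
    · rw [min_eq_left hc]
      have h1 : rad + 1 < (10 * P.rho i + 1) * ((rad + 1) / (10 * P.rho i + 1) + 1) :=
        Nat.lt_mul_div_succ _ hpos
      have h2 : 2 ≤ (rad + 1) / (10 * P.rho i + 1) := (Nat.le_div_iff_mul_le hpos).2 hi'
      generalize (rad + 1) / (10 * P.rho i + 1) = m at h1 h2
      generalize 10 * P.rho i + 1 = a at h1 hpos
      nlinarith [Nat.mul_le_mul_left a h2]
    · rw [min_eq_right hc]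
      rcases Nat.lt_or_ge i (L - 1) with hlt | hge
      · have h1 : ¬ p (i + 1) := hmax (i + 1) (Nat.lt_succ_self i) hlt
        have h2 : rad + 1 < 2 * (10 * P.rho (i + 1) + 1) := not_le.1 h1
        have h3 : P.rho (i + 1) = P.m i * (10 * P.rho i + 1) := rfl
        rw [h3] at h2
        have h4 : 2 * 1 ≤ P.m i * (10 * P.rho i + 1) := Nat.mul_le_mul hm2 hpos
        nlinarith
      · have hiL' : i = L - 1 := le_antisymm hiL hge
        rw [← hiL'] at hR
        have h4 : P.m i * 1 ≤ P.m i * (10 * P.rho i + 1) := Nat.mul_le_mul_left _ hpos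
        nlinarith
  · intro hE
    have hLm : 2 ≤ P.m (L - 1) := hP.1 (L - 1)
    have hpL : p (L - 1) := by
      change 2 * (10 * P.rho (L - 1) + 1) ≤ rad + 1
      rw [hE]
      exact Nat.mul_le_mul_right _ hLm
    have hiE : i = L - 1 := by
      by_contra hne
      exact hmax (L - 1) (lt_of_le_of_ne hiL hne) le_rfl hpL
    have hposL : 0 < 10 * P.rho (L - 1) + 1 := Nat.succ_pos _
    rw [hiE, hE, Nat.mul_div_cancel _ hposL, min_self]

end Pool.Agent.SXG
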