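import Pool.Agent.SXG.Defs
set_option autoImplicit false

namespace Pool.Agent.SXG

open Pool.Agent.LSN (W Base Rch PW sel lf reg GC Rt tw)

lemma T38_rho (ph : ℕ → ℕ) (i : ℕ) : (tP ph).rho i = (gr i).2 := by
  induction i with
  | zero => rfl
  | succ i ih =>
    show (tP ph).m i * (10 * (tP ph).rho i + 1) = _
    rw [ih]
    rfl

lemma T38_g (ph : ℕ → ℕ) (i : ℕ) : (tP ph).g i = (gr i).1 := by
  induction i with
  | zero => rfl
  | succ i ih =>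
    show (tP ph).m i * (tP ph).g i = _
    rw [ih]
    rfl

lemma T38_m (ph : ℕ → ℕ) (i : ℕ) : (tP ph).m i = 2 ^ ((gr i).1 / 2 ^ i + 1) := rfl

lemma T38_gs (i : ℕ) : (gr (i + 1)).1 = 2 ^ ((gr i).1 / 2 ^ i + 1) * (gr i).1 := rfl

lemma T38_rs (i : ℕ) : (gr (i + 1)).2 = 2 ^ ((gr i).1 / 2 ^ i + 1) * (10 * (gr i).2 + 1) := rfl

lemma T38_pow (i : ℕ) : 2 ^ i ≤ (gr i).1 := by
  induction i with
  | zero => exact le_refl 1
  | succ i ih =>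
    rw [T38_gs, pow_succ, mul_comm (2 ^ i) 2]
    refine Nat.mul_le_mul ?_ ih
    rw [pow_succ]
    have h := Nat.one_le_two_pow (n := (gr i).1 / 2 ^ i)
    omega

lemma T38_h1 (i : ℕ) : 1 ≤ (gr i).1 / 2 ^ i :=
  (Nat.one_le_div_iff (by positivity)).2 (T38_pow i)

lemma T38_hs (i : ℕ) : 2 ^ ((gr i).1 / 2 ^ i) ≤ (gr (i + 1)).1 / 2 ^ (i + 1) := by
  rw [Nat.le_div_iff_mul_le (by positivity), T38_gs]
  have h1 : 1 * 2 ^ i ≤ (gr i).1 := by rw [one_mul]; exact T38_pow i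
  calc 2 ^ ((gr i).1 / 2 ^ i) * 2 ^ (i + 1)
      = 2 ^ ((gr i).1 / 2 ^ i + 1) * (1 * 2 ^ i) := by ring
    _ ≤ 2 ^ ((gr i).1 / 2 ^ i + 1) * (gr i).1 := Nat.mul_le_mul_left _ h1

lemma T38_hi (i : ℕ) : i ≤ (gr i).1 / 2 ^ i := by
  induction i with
  | zero => exact Nat.zero_le _
  | succ i ih =>
    have h1 := T38_hs i
    have h2 : (gr i).1 / 2 ^ i < 2 ^ ((gr i).1 / 2 ^ i) := Nat.lt_two_pow_self
    omega

lemma T38_gr (i : ℕ) : (gr i).1 ≤ (gr i).2 := by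
  induction i with
  | zero => exact le_refl 1
  | succ i ih =>
    rw [T38_gs, T38_rs]
    exact Nat.mul_le_mul_left _ (by omega)

/-- T38. Basic facts on the actual parameters. -/
theorem T38 (ph : ℕ → ℕ) :
    (∀ i, (tP ph).rho i = (gr i).2) ∧ (∀ i, (tP ph).g i = (gr i).1) ∧
    (∀ i, 2 ^ i ≤ (gr i).1) ∧ (∀ i, 4 ≤ (tP ph).m i) ∧ (∀ i, i + 1 ≤ (tP ph).m i) ∧
    (∀ i, 1 ≤ (gr i).2) ∧ (∀ i, (gr i).2 ≤ 11 ^ i * (gr i).1) ∧
    (∀ i, (tP ph).m i ^ (2 ^ i) ≤ 2 ^ (2 * (gr i).1)) := by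
  have hr1 : ∀ i, 1 ≤ (gr i).2 := fun i =>
    (Nat.one_le_two_pow.trans (T38_pow i)).trans (T38_gr i)
  refine ⟨T38_rho ph, T38_g ph, T38_pow, ?_, ?_, hr1, ?_, ?_⟩
  · intro i
    rw [T38_m]
    calc 4 = 2 ^ (1 + 1) := by norm_num
      _ ≤ _ := Nat.pow_le_pow_right (by norm_num) (Nat.succ_le_succ (T38_h1 i))
  · intro i
    rw [T38_m]
    have h1 := T38_hi i
    have h2 : (gr i).1 / 2 ^ i + 1 < 2 ^ ((gr i).1 / 2 ^ i + 1) := Nat.lt_two_pow_self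
    omega
  · intro i
    induction i with
    | zero => exact le_refl 1
    | succ i ih =>
      rw [T38_gs, T38_rs]
      have h1 := hr1 i
      calc 2 ^ ((gr i).1 / 2 ^ i + 1) * (10 * (gr i).2 + 1)
          ≤ 2 ^ ((gr i).1 / 2 ^ i + 1) * (11 * (11 ^ i * (gr i).1)) :=
            Nat.mul_le_mul_left _ (by omega)
        _ = 11 ^ (i + 1) * (2 ^ ((gr i).1 / 2 ^ i + 1) * (gr i).1) := by ring
  · intro i
    rw [T38_m, ← pow_mul]
    refine Nat.pow_le_pow_right (by norm_num) ?_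
    have h1 := T38_pow i
    have h2 : (gr i).1 / 2 ^ i * 2 ^ i ≤ (gr i).1 := Nat.div_mul_le_self _ _
    calc ((gr i).1 / 2 ^ i + 1) * 2 ^ i = (gr i).1 / 2 ^ i * 2 ^ i + 2 ^ i := by ring
      _ ≤ 2 * (gr i).1 := by omega

lemma T38b_h (n k0 : ℕ) : tw n k0 ≤ (gr (n + k0)).1 / 2 ^ (n + k0) := by
  induction n with
  | zero =>
    rw [zero_add]
    exact T38_hi k0
  | succ n ih =>
    show 2 ^ tw n k0 ≤ _
    have h1 : n + 1 + k0 = n + k0 + 1 := by omega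
    rw [h1]
    exact (Nat.pow_le_pow_right (by norm_num) ih).trans (T38_hs (n + k0))

/-- T38b. Tower growth. -/
theorem T38b (n k0 : ℕ) : tw n k0 ≤ (gr (n + k0)).2 :=
  (T38b_h n k0).trans ((Nat.div_le_self _ _).trans (T38_gr (n + k0)))

end Pool.Agent.SXG
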