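import Pool.Agent.SXG.J26
import Pool.Agent.SXG.J38
import Pool.Agent.SXG.Defs

set_option autoImplicit false

namespace Pool.Agent.SXG

open Pool.Agent.LSN (W Base Rch PW sel lf reg GC Rt tw)

/-- arithmetic of the induction step -/
lemma T39_step (m f S g b C k A : ℕ) (hm : m ^ (k + 1) ≤ 2 ^ (2 * g))
    (hf : f ^ (k + 1) ≤ 2 ^ (C * g))
    (hS : S ^ (k + 1) ≤ 2 ^ ((b * (k + 1) + (16 + 10 * C) * k) * g))
    (hA : A ≤ (m ^ 4 * f ^ 5 * S) ^ m) :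
    A ^ (2 * (k + 1)) ≤
      2 ^ ((b * (2 * (k + 1)) + (16 + 10 * C) * (2 * k + 1)) * (m * g)) := by
  have h1 : (m ^ 4 * f ^ 5 * S) ^ (k + 1) ≤
      (2 ^ (2 * g)) ^ 4 * (2 ^ (C * g)) ^ 5 * 2 ^ ((b * (k + 1) + (16 + 10 * C) * k) * g) := by
    have e : (m ^ 4 * f ^ 5 * S) ^ (k + 1) =
        (m ^ (k + 1)) ^ 4 * (f ^ (k + 1)) ^ 5 * S ^ (k + 1) := by
      rw [mul_pow, mul_pow, ← pow_mul, ← pow_mul, ← pow_mul, ← pow_mul, mul_comm 4 (k + 1),
        mul_comm 5 (k + 1)]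
    rw [e]
    exact Nat.mul_le_mul (Nat.mul_le_mul (Nat.pow_le_pow_left hm 4) (Nat.pow_le_pow_left hf 5)) hS
  calc A ^ (2 * (k + 1)) ≤ ((m ^ 4 * f ^ 5 * S) ^ m) ^ (2 * (k + 1)) := Nat.pow_le_pow_left hA _
    _ = ((m ^ 4 * f ^ 5 * S) ^ (k + 1)) ^ (2 * m) := by
      rw [← pow_mul, ← pow_mul]
      congr 1
      ring
    _ ≤ ((2 ^ (2 * g)) ^ 4 * (2 ^ (C * g)) ^ 5 *
        2 ^ ((b * (k + 1) + (16 + 10 * C) * k) * g)) ^ (2 * m) := Nat.pow_le_pow_left h1 _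
    _ = 2 ^ ((b * (2 * (k + 1)) + (16 + 10 * C) * (2 * k + 1)) * (m * g)) := by
      rw [← pow_mul, ← pow_mul, ← pow_add, ← pow_add, ← pow_mul]
      congr 1
      ring

theorem T39_pow (b C : ℕ) (ph : ℕ → ℕ) (hph : (tP ph).Ok) (hg : Gro ph C) (i : ℕ) :
    (Fintype.card (Sk (tP ph) b i) * Fintype.card (Pt (tP ph) i)) ^ (2 ^ i) ≤
      2 ^ ((b * 2 ^ i + (16 + 10 * C) * (2 ^ i - 1)) * (gr i).1) := by
  obtain ⟨-, h0, h0', hS, hP⟩ := T26 (tP ph) b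
  obtain ⟨hrho, hgg, -, -, -, hr1, -, hm⟩ := T38 ph
  induction i with
  | zero =>
    rw [h0, h0']
    have e : (b * 2 ^ 0 + (16 + 10 * C) * (2 ^ 0 - 1)) * (gr 0).1 = b := by
      show (b * 2 ^ 0 + (16 + 10 * C) * (2 ^ 0 - 1)) * 1 = b
      simp
    rw [e]
    simpa using (Nat.lt_two_pow_self (n := b)).le
  | succ i ih =>
    have hmono : ∀ j k, j ≤ k → ph j ≤ ph k := hph.2.2.2
    have hr : 1 ≤ (tP ph).rho i := by
      rw [hrho]
      exact hr1 i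
    have hgi : ph (50 * (tP ph).rho i) ^ (2 ^ i) ≤ 2 ^ (C * (gr i).1) := by
      rw [hrho]
      exact hg i
    obtain ⟨k, hk⟩ : ∃ k, 2 ^ i = k + 1 := ⟨2 ^ i - 1, by have : 0 < 2 ^ i := by positivity
                                                          omega⟩
    have hk2 : 2 ^ (i + 1) = 2 * (k + 1) := by rw [pow_succ, hk, mul_comm]
    have hk3 : 2 ^ (i + 1) - 1 = 2 * k + 1 := by omega
    have hg1 : (gr (i + 1)).1 = (tP ph).m i * (gr i).1 := rfl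
    have hX : (tP ph).Xi i =
        ((tP ph).m i * ph (10 * (tP ph).rho i)) ^ 3 * ph (28 * (tP ph).rho i) := rfl
    have hmi := hm i
    rw [hk3, hk2, hg1, hS, hP, hX]
    rw [hk] at ih hgi hmi
    have hk4 : k + 1 - 1 = k := rfl
    rw [hk4] at ih
    refine T39_step _ _ _ _ b C k _ hmi hgi ih ?_
    show ((tP ph).m i * ph (10 * (tP ph).rho i + 1)) ^ (tP ph).m i *
      Fintype.card (Sk (tP ph) b i) ^ (tP ph).m i *
      (((tP ph).m i * ph (10 * (tP ph).rho i)) ^ 3 * ph (28 * (tP ph).rho i) *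
        Fintype.card (Pt (tP ph) i)) ^ (tP ph).m i ≤ _
    rw [← mul_pow, ← mul_pow]
    refine Nat.pow_le_pow_left ?_ _
    have a1 : ph (10 * (tP ph).rho i + 1) ≤ ph (50 * (tP ph).rho i) := hmono _ _ (by omega)
    have a2 : ph (10 * (tP ph).rho i) ≤ ph (50 * (tP ph).rho i) := hmono _ _ (by omega)
    have a3 : ph (28 * (tP ph).rho i) ≤ ph (50 * (tP ph).rho i) := hmono _ _ (by omega)
    generalize ph (10 * (tP ph).rho i + 1) = x1 at *
    generalize ph (10 * (tP ph).rho i) = x2 at *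
    generalize ph (28 * (tP ph).rho i) = x3 at *
    generalize ph (50 * (tP ph).rho i) = f at *
    generalize (tP ph).m i = m at *
    generalize Fintype.card (Sk (tP ph) b i) = Sc at *
    generalize Fintype.card (Pt (tP ph) i) = Pc at *
    calc m * x1 * Sc * ((m * x2) ^ 3 * x3 * Pc)
        ≤ m * f * Sc * ((m * f) ^ 3 * f * Pc) :=
          Nat.mul_le_mul (Nat.mul_le_mul_right _ (Nat.mul_le_mul_left _ a1))
            (Nat.mul_le_mul_right _ (Nat.mul_le_mul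
              (Nat.pow_le_pow_left (Nat.mul_le_mul_left _ a2) 3) a3))
      _ = m ^ 4 * f ^ 5 * (Sc * Pc) := by ring

theorem T39 (b C : ℕ) (hb : 1 ≤ b) (ph : ℕ → ℕ) (hph : (tP ph).Ok) (hg : Gro ph C) (i : ℕ) :
    Fintype.card (Sk (tP ph) b i) * Fintype.card (Pt (tP ph) i) ≤
      2 ^ ((b + 16 + 10 * C) * (gr i).1) := by
  have h2 : 2 ^ i ≠ 0 := by positivity
  have h := T39_pow b C ph hph hg i
  rw [← Nat.pow_le_pow_iff_left h2]
  refine h.trans ?_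
  rw [← pow_mul]
  refine Nat.pow_le_pow_right (by norm_num) ?_
  calc (b * 2 ^ i + (16 + 10 * C) * (2 ^ i - 1)) * (gr i).1
      ≤ (b * 2 ^ i + (16 + 10 * C) * 2 ^ i) * (gr i).1 :=
        Nat.mul_le_mul_right _ (Nat.add_le_add_left (Nat.mul_le_mul_left _ (Nat.sub_le _ _)) _)
    _ = (b + 16 + 10 * C) * (gr i).1 * 2 ^ i := by ring

end Pool.Agent.SXG
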