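import Pool.Agent.SXG.J38
import Pool.Agent.SXG.J39
import Pool.Agent.SXG.Defs
/-!
# SXG, target T40: weight of the events of the first kind
-/

set_option autoImplicit false

namespace Pool.Agent.SXG

open Finset
open Pool.Agent.LSN (W Base Rch PW sel lf reg GC Rt tw)

/-- powers of a submultiplicative function -/
theorem T40_pow (ph : ℕ → ℕ) (h2 : ∀ j k, ph (j + k) ≤ ph j * ph k)
    (hmono : ∀ j k, j ≤ k → ph j ≤ ph k) (k N ρ : ℕ) (hρ : ρ ≤ k) (hN : 1 ≤ N) :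
    ph (N * k + ρ) ≤ ph k ^ (N + 1) := by
  have h : ∀ n, 1 ≤ n → ph (n * k) ≤ ph k ^ n := by
    intro n hn
    induction n, hn using Nat.le_induction with
    | base => simp
    | succ n hn ih =>
      calc ph ((n + 1) * k) = ph (n * k + k) := by ring_nf
        _ ≤ ph (n * k) * ph k := h2 _ _
        _ ≤ ph k ^ n * ph k := Nat.mul_le_mul_right _ ih
        _ = ph k ^ (n + 1) := (pow_succ _ _).symm
  calc ph (N * k + ρ) ≤ ph (N * k) * ph ρ := h2 _ _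
    _ ≤ ph k ^ N * ph k := Nat.mul_le_mul (h N hN) (hmono _ _ hρ)
    _ = ph k ^ (N + 1) := (pow_succ _ _).symm

/-- the exponents -/
theorem T40_exp (b K C i g ξ N n mu : ℕ) (hg : 2 ^ i ≤ g) (hξ4 : 4 ≤ ξ) (hN : N = ξ ^ 3)
    (hn : n ≤ ξ) (hmu : mu = 100 * (C + K + b + 1)) :
    C * g * (2 * N) + N + K * N + (mu + 1) * n + (6 + 4 * C) * g * N + (2 + C) * g * N +
      (b + 16 + 10 * C) * g * N + (3 + i + ξ) ≤ mu * (N * g) := by
  have hig : i + 1 ≤ g := le_trans (Nat.succ_le_of_lt Nat.lt_two_pow_self) hg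
  have hg1 : 1 ≤ g := by omega
  have h16 : 16 * ξ ≤ N := by
    rw [hN, pow_succ]
    exact Nat.mul_le_mul_right _ (by nlinarith)
  have hN1 : N ≤ N * g := Nat.le_mul_of_pos_right _ hg1
  have h1 : 16 * ((mu + 1) * n) ≤ (mu + 1) * (N * g) := by
    calc 16 * ((mu + 1) * n) = (mu + 1) * (16 * n) := by ring
      _ ≤ (mu + 1) * (N * g) := Nat.mul_le_mul_left _ (by omega)
  have h2 : 3 + i + ξ ≤ N * g := by
    have : 16 * ξ * g ≤ N * g := Nat.mul_le_mul_right _ h16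
    have h3 : ξ ≤ ξ * g := Nat.le_mul_of_pos_right _ hg1
    have h4 : 4 * g ≤ ξ * g := Nat.mul_le_mul_right _ hξ4
    nlinarith
  have h3 : K * N ≤ K * (N * g) := Nat.mul_le_mul_left _ hN1
  have e1 : C * g * (2 * N) = 2 * (C * (N * g)) := by ring
  have e2 : (6 + 4 * C) * g * N = 6 * (N * g) + 4 * (C * (N * g)) := by ring
  have e3 : (2 + C) * g * N = 2 * (N * g) + C * (N * g) := by ring
  have e4 : (b + 16 + 10 * C) * g * N = b * (N * g) + 16 * (N * g) + 10 * (C * (N * g)) := by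
    ring
  have e5 : mu * (N * g) = 100 * (C * (N * g)) + 100 * (K * (N * g)) + 100 * (b * (N * g)) +
      100 * (N * g) := by rw [hmu]; ring
  have e6 : (mu + 1) * (N * g) = mu * (N * g) + N * g := by ring
  rw [e1, e2, e3, e4]
  rw [e6] at h1
  generalize mu * (N * g) = X at *
  generalize C * (N * g) = a1 at *
  generalize K * (N * g) = a2 at *
  generalize b * (N * g) = a3 at *
  generalize N * g = a4 at *
  omega

/-- the inequality in natural numbers -/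
theorem T40_nat (b K C i g F ξ N n S P Φ mu : ℕ) (hg : 2 ^ i ≤ g)
    (hF : F ≤ 2 ^ (C * g)) (hξ : ξ ≤ 2 ^ ((2 + C) * g)) (hξ4 : 4 ≤ ξ) (hN : N = ξ ^ 3)
    (hn : n ≤ ξ) (hS : S * P ≤ 2 ^ ((b + 16 + 10 * C) * g)) (hmu : mu = 100 * (C + K + b + 1))
    (hΦ : Φ ≤ F ^ (N + 1)) :
    Φ * ((2 ^ n) ^ n * (K ^ n * ((2 ^ (mu + 1)) ^ n * 2 ^ n))) *
      ((N * F) ^ N * (n ^ N * S ^ N)) * P ^ N * (8 * 2 ^ i * (ξ + 1)) ≤ 2 ^ (mu * (N * g)) := by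
  have h16 : 16 * ξ ≤ N := by
    rw [hN, pow_succ]
    exact Nat.mul_le_mul_right _ (by nlinarith)
  have hN1 : 1 ≤ N := by omega
  have a1 : Φ ≤ 2 ^ (C * g * (2 * N)) := by
    calc Φ ≤ F ^ (N + 1) := hΦ
      _ ≤ (2 ^ (C * g)) ^ (N + 1) := Nat.pow_le_pow_left hF _
      _ = 2 ^ (C * g * (N + 1)) := (pow_mul _ _ _).symm
      _ ≤ 2 ^ (C * g * (2 * N)) :=
        Nat.pow_le_pow_right (by norm_num) (Nat.mul_le_mul_left _ (by omega))
  have a2 : (2 ^ n) ^ n * 2 ^ n ≤ 2 ^ N := by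
    rw [← pow_mul, ← pow_add]
    refine Nat.pow_le_pow_right (by norm_num) ?_
    calc n * n + n ≤ ξ * ξ + ξ := Nat.add_le_add (Nat.mul_le_mul hn hn) hn
      _ ≤ ξ * ξ * ξ := by nlinarith
      _ = N := by rw [hN]; ring
  have a3 : K ^ n ≤ 2 ^ (K * N) := by
    calc K ^ n ≤ (2 ^ K) ^ n := Nat.pow_le_pow_left Nat.lt_two_pow_self.le _
      _ = 2 ^ (K * n) := by rw [pow_mul]
      _ ≤ 2 ^ (K * N) :=
        Nat.pow_le_pow_right (by norm_num) (Nat.mul_le_mul_left _ (by omega))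
  have a4 : (2 ^ (mu + 1)) ^ n = 2 ^ ((mu + 1) * n) := by rw [pow_mul]
  have a5 : (N * F) ^ N ≤ 2 ^ ((6 + 4 * C) * g * N) := by
    rw [pow_mul]
    refine Nat.pow_le_pow_left ?_ _
    calc N * F ≤ (2 ^ ((2 + C) * g)) ^ 3 * 2 ^ (C * g) := by
          rw [hN]; exact Nat.mul_le_mul (Nat.pow_le_pow_left hξ _) hF
      _ = 2 ^ ((6 + 4 * C) * g) := by rw [← pow_mul, ← pow_add]; ring_nf
  have a6 : n ^ N ≤ 2 ^ ((2 + C) * g * N) := by
    rw [pow_mul]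
    exact Nat.pow_le_pow_left (hn.trans hξ) _
  have a7 : S ^ N * P ^ N ≤ 2 ^ ((b + 16 + 10 * C) * g * N) := by
    rw [← mul_pow, pow_mul]
    exact Nat.pow_le_pow_left hS _
  have a8 : 8 * 2 ^ i * (ξ + 1) ≤ 2 ^ (3 + i + ξ) := by
    have : ξ + 1 ≤ 2 ^ ξ := Nat.succ_le_of_lt Nat.lt_two_pow_self
    calc 8 * 2 ^ i * (ξ + 1) ≤ 8 * 2 ^ i * 2 ^ ξ := Nat.mul_le_mul_left _ this
      _ = 2 ^ (3 + i + ξ) := by rw [pow_add, pow_add]; norm_num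
  calc Φ * ((2 ^ n) ^ n * (K ^ n * ((2 ^ (mu + 1)) ^ n * 2 ^ n))) *
      ((N * F) ^ N * (n ^ N * S ^ N)) * P ^ N * (8 * 2 ^ i * (ξ + 1))
      = Φ * ((2 ^ n) ^ n * 2 ^ n) * K ^ n * (2 ^ (mu + 1)) ^ n * (N * F) ^ N * n ^ N *
        (S ^ N * P ^ N) * (8 * 2 ^ i * (ξ + 1)) := by ring
    _ ≤ 2 ^ (C * g * (2 * N)) * 2 ^ N * 2 ^ (K * N) * 2 ^ ((mu + 1) * n) *
        2 ^ ((6 + 4 * C) * g * N) * 2 ^ ((2 + C) * g * N) * 2 ^ ((b + 16 + 10 * C) * g * N) *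
        2 ^ (3 + i + ξ) := by
        rw [a4]
        gcongr
    _ = 2 ^ (C * g * (2 * N) + N + K * N + (mu + 1) * n + (6 + 4 * C) * g * N +
        (2 + C) * g * N + (b + 16 + 10 * C) * g * N + (3 + i + ξ)) := by
        simp only [← pow_add]
    _ ≤ 2 ^ (mu * (N * g)) :=
        Nat.pow_le_pow_right (by norm_num) (T40_exp b K C i g ξ N n mu hg hξ4 hN hn hmu)

/-- the last step, real numbers -/
theorem T40_real (X Y i ξ mu E : ℕ) (key : X * Y * (8 * 2 ^ i * (ξ + 1)) ≤ 2 ^ (mu * E)) :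
    (X : ℝ) * (Y : ℝ) * (2 / ((2 ^ (mu + 1) : ℕ) : ℝ)) ^ E ≤ 1 / (8 * 2 ^ i * ((ξ : ℝ) + 1)) := by
  have hkey : (X : ℝ) * (Y : ℝ) * (8 * 2 ^ i * ((ξ : ℝ) + 1)) ≤ (2 : ℝ) ^ (mu * E) := by
    exact_mod_cast key
  have hpow : (2 / ((2 ^ (mu + 1) : ℕ) : ℝ)) ^ E = 1 / (2 : ℝ) ^ (mu * E) := by
    have : (2 : ℝ) / ((2 ^ (mu + 1) : ℕ) : ℝ) = 1 / (2 : ℝ) ^ mu := by
      push_cast
      rw [pow_succ]
      field_simp
    rw [this, one_div_pow, ← pow_mul]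
  have p1 : (0 : ℝ) < (2 : ℝ) ^ (mu * E) := by positivity
  have p2 : (0 : ℝ) < 8 * 2 ^ i * ((ξ : ℝ) + 1) := by positivity
  rw [hpow, mul_one_div, div_le_div_iff₀ p1 p2, one_mul]
  exact hkey

/-- T40: weight of the events of the first kind -/
theorem T40 (b K C : ℕ) (hb : 1 ≤ b) (hK : 1 ≤ K) (ph : ℕ → ℕ) (hph : (tP ph).Ok)
    (hg : Gro ph C) (i n : ℕ) (hn : n ≤ (tP ph).xi i) :
    (((tP ph).ph ((tP ph).Nn i * (50 * (tP ph).rho i) + (tP ph).rho i) *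
        ((2 ^ n) ^ n * (K ^ n * (Mm b K C ^ n * 2 ^ n))) *
        (((tP ph).Nn i * (tP ph).ph (50 * (tP ph).rho i)) ^ (tP ph).Nn i * (n ^ (tP ph).Nn i *
          Fintype.card (Sk (tP ph) b i) ^ (tP ph).Nn i)) : ℕ) : ℝ) *
      ((Fintype.card (Pt (tP ph) i) ^ (tP ph).Nn i : ℕ) : ℝ) *
      (2 / (Mm b K C : ℕ)) ^ ((tP ph).Nn i * (tP ph).g i) ≤
      1 / (8 * 2 ^ i * ((tP ph).xi i + 1)) := by
  obtain ⟨hr, hgg, h2g, hm4, -, hr1, -, hmm⟩ := T38 ph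
  have hS := T39 b C hb ph hph hg i
  obtain ⟨-, o2, o3, o4⟩ := hph
  have hF : (tP ph).ph (50 * (tP ph).rho i) ≤ 2 ^ (C * (gr i).1) := by
    rw [hr i]
    exact (Nat.le_self_pow (by positivity) _).trans (hg i)
  have hm2 : (tP ph).m i ≤ 2 ^ (2 * (gr i).1) :=
    (Nat.le_self_pow (by positivity) _).trans (hmm i)
  have hρ1 : 1 ≤ (tP ph).rho i := by rw [hr i]; exact hr1 i
  have hph10 : (tP ph).ph (10 * (tP ph).rho i) ≤ (tP ph).ph (50 * (tP ph).rho i) :=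
    o4 _ _ (by omega)
  have hξ : (tP ph).xi i ≤ 2 ^ ((2 + C) * (gr i).1) := by
    calc (tP ph).xi i = (tP ph).m i * (tP ph).ph (10 * (tP ph).rho i) := rfl
      _ ≤ 2 ^ (2 * (gr i).1) * 2 ^ (C * (gr i).1) := Nat.mul_le_mul hm2 (hph10.trans hF)
      _ = 2 ^ ((2 + C) * (gr i).1) := by rw [← pow_add]; ring_nf
  have hξ4 : 4 ≤ (tP ph).xi i :=
    (hm4 i).trans (Nat.le_mul_of_pos_right _ (o2 _))
  have hN1 : 1 ≤ (tP ph).Nn i := Nat.one_le_pow _ _ (by omega)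
  have hΦ := T40_pow (tP ph).ph o3 o4 (50 * (tP ph).rho i) ((tP ph).Nn i) ((tP ph).rho i)
    (by omega) hN1
  have key := T40_nat b K C i (gr i).1 ((tP ph).ph (50 * (tP ph).rho i)) ((tP ph).xi i)
    ((tP ph).Nn i) n (Fintype.card (Sk (tP ph) b i)) (Fintype.card (Pt (tP ph) i))
    ((tP ph).ph ((tP ph).Nn i * (50 * (tP ph).rho i) + (tP ph).rho i)) (mu b K C) (h2g i) hF hξ
    hξ4 rfl hn hS rfl hΦ
  rw [hgg i]
  have hMm : Mm b K C = 2 ^ (mu b K C + 1) := rfl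
  rw [hMm]
  generalize hX : (tP ph).ph ((tP ph).Nn i * (50 * (tP ph).rho i) + (tP ph).rho i) *
        ((2 ^ n) ^ n * (K ^ n * ((2 ^ (mu b K C + 1)) ^ n * 2 ^ n))) *
        (((tP ph).Nn i * (tP ph).ph (50 * (tP ph).rho i)) ^ (tP ph).Nn i * (n ^ (tP ph).Nn i *
          Fintype.card (Sk (tP ph) b i) ^ (tP ph).Nn i)) = X at key ⊢
  generalize hY : Fintype.card (Pt (tP ph) i) ^ (tP ph).Nn i = Y at key ⊢
  generalize (tP ph).Nn i * (gr i).1 = E at key ⊢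
  generalize (tP ph).xi i = ξ at key ⊢
  exact T40_real X Y i ξ (mu b K C) E key

end Pool.Agent.SXG
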