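import Pool.Agent.SXG.J38
import Pool.Agent.SXG.J39
import Pool.Agent.SXG.Defs
/-!
# SXG, target T41: weight of the events of the second kind
-/

set_option autoImplicit false

namespace Pool.Agent.SXG

open Pool.Agent.LSN (W Base Rch PW sel lf reg GC Rt tw)

open Finset

/-- submultiplicativity, iterated -/
theorem T41_pow (f : ℕ → ℕ) (hsub : ∀ j k, f (j + k) ≤ f j * f k) (n k : ℕ) :
    f ((k + 1) * n) ≤ f n ^ (k + 1) := by
  induction k with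
  | zero => simp
  | succ k ih =>
    calc f ((k + 1 + 1) * n) = f ((k + 1) * n + n) := by congr 1; ring
      _ ≤ f ((k + 1) * n) * f n := hsub _ _
      _ ≤ f n ^ (k + 1) * f n := Nat.mul_le_mul_right _ ih
      _ = f n ^ (k + 1 + 1) := (pow_succ _ _).symm

/-- bound for the balls -/
theorem T41_ball (f : ℕ → ℕ) (hsub : ∀ j k, f (j + k) ≤ f j * f k)
    (hmono : ∀ j k, j ≤ k → f j ≤ f k) (m ρ C g rad : ℕ) (hm : 1 ≤ m) (hρ : 1 ≤ ρ)
    (hF : f (50 * ρ) ≤ 2 ^ (C * g)) (hrad : rad + 1 ≤ 22 * m * (10 * ρ + 1)) :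
    f rad * f (2 * rad + 2) ≤ 2 ^ (66 * C * g * m) := by
  have h1 : f (rad + 1) ≤ 2 ^ (22 * C * g * m) := by
    obtain ⟨k, hk⟩ : ∃ k, 22 * m = k + 1 := ⟨22 * m - 1, by omega⟩
    calc f (rad + 1) ≤ f ((k + 1) * (10 * ρ + 1)) := hmono _ _ (by rw [← hk]; exact hrad)
      _ ≤ f (10 * ρ + 1) ^ (k + 1) := T41_pow f hsub _ _
      _ ≤ (2 ^ (C * g)) ^ (k + 1) :=
          Nat.pow_le_pow_left ((hmono _ _ (by omega)).trans hF) _
      _ = 2 ^ (22 * C * g * m) := by rw [← hk, ← pow_mul]; congr 1; ring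
  have h2 : f (2 * rad + 2) ≤ f (rad + 1) * f (rad + 1) := by
    calc f (2 * rad + 2) = f ((rad + 1) + (rad + 1)) := by congr 1; ring
      _ ≤ _ := hsub _ _
  calc f rad * f (2 * rad + 2) ≤ f (rad + 1) * (f (rad + 1) * f (rad + 1)) :=
        Nat.mul_le_mul (hmono _ _ (by omega)) h2
    _ ≤ 2 ^ (22 * C * g * m) * (2 ^ (22 * C * g * m) * 2 ^ (22 * C * g * m)) := by gcongr
    _ = 2 ^ (66 * C * g * m) := by rw [← pow_add, ← pow_add]; congr 1; ring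

/-- the inequality in natural numbers -/
theorem T41_nat (b K C m mi ρ g rad F1 F2 P1 Xi Sk Pt : ℕ) (hg : 1 ≤ g) (hρ1 : 1 ≤ ρ)
    (hmi : mi ≤ 2 ^ (2 * g)) (hρ : ρ ≤ 2 ^ (5 * g))
    (hball : F1 * F2 ≤ 2 ^ (66 * C * g * m)) (hP : P1 ≤ 2 ^ (C * g))
    (hXi : Xi ≤ 2 ^ ((6 + 4 * C) * g)) (hS : Sk * Pt ≤ 2 ^ ((b + 16 + 10 * C) * g))
    (hm : 2 ≤ m) (hmm : m ≤ mi) (hrad : rad + 1 ≤ 22 * m * (10 * ρ + 1)) :
    (2 * (F1 * (F2 * 2 ^ m)) * ((m * P1) ^ m * Sk ^ m)) * (Xi * Pt) ^ m *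
      (8 * (rad + 1) ^ 2) ≤ 2 ^ (mu b K C * (m * g)) := by
  have h2 : 8 * (rad + 1) ^ 2 ≤ 2 ^ (19 + 2 * m + 10 * g) := by
    have e1 : m ≤ 2 ^ m := Nat.lt_two_pow_self.le
    have e2 : rad + 1 ≤ 2 ^ (8 + m + 5 * g) := by
      calc rad + 1 ≤ 22 * m * (10 * ρ + 1) := hrad
        _ ≤ 22 * m * (11 * ρ) := by gcongr; omega
        _ = 242 * m * ρ := by ring
        _ ≤ 2 ^ 8 * 2 ^ m * 2 ^ (5 * g) := by gcongr; norm_num
        _ = 2 ^ (8 + m + 5 * g) := by rw [← pow_add, ← pow_add]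
    calc 8 * (rad + 1) ^ 2 ≤ 2 ^ 3 * (2 ^ (8 + m + 5 * g)) ^ 2 := by gcongr; norm_num
      _ = 2 ^ (19 + 2 * m + 10 * g) := by rw [← pow_mul, ← pow_add]; congr 1; ring
  have h3 : (m * P1) * (Sk * Pt) * Xi ≤ 2 ^ ((b + 24 + 15 * C) * g) := by
    calc (m * P1) * (Sk * Pt) * Xi
        ≤ (2 ^ (2 * g) * 2 ^ (C * g)) * 2 ^ ((b + 16 + 10 * C) * g) *
          2 ^ ((6 + 4 * C) * g) := by
          have : m ≤ 2 ^ (2 * g) := hmm.trans hmi
          gcongr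
      _ = 2 ^ ((b + 24 + 15 * C) * g) := by
          rw [← pow_add, ← pow_add, ← pow_add]; congr 1; ring
  have hmg : m ≤ m * g := Nat.le_mul_of_pos_right _ (by omega)
  have hgm : 2 * g ≤ m * g := Nat.mul_le_mul_right _ hm
  calc (2 * (F1 * (F2 * 2 ^ m)) * ((m * P1) ^ m * Sk ^ m)) * (Xi * Pt) ^ m *
      (8 * (rad + 1) ^ 2)
      = 2 ^ (1 + m) * (F1 * F2) * ((m * P1) * (Sk * Pt) * Xi) ^ m *
          (8 * (rad + 1) ^ 2) := by
        rw [pow_add, pow_one, mul_pow ((m * P1) * (Sk * Pt)), mul_pow (m * P1),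
          mul_pow Sk, mul_pow Xi]
        ring
    _ ≤ 2 ^ (1 + m) * 2 ^ (66 * C * g * m) * (2 ^ ((b + 24 + 15 * C) * g)) ^ m *
          2 ^ (19 + 2 * m + 10 * g) := by gcongr
    _ = 2 ^ (20 + 3 * m + 10 * g + (b + 24 + 81 * C) * (m * g)) := by
        rw [← pow_mul, ← pow_add, ← pow_add, ← pow_add]
        congr 1
        ring
    _ ≤ 2 ^ (mu b K C * (m * g)) := by
        apply Nat.pow_le_pow_right (by norm_num)
        have e1 : 20 + 3 * m + 10 * g ≤ 18 * (m * g) := by omega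
        calc 20 + 3 * m + 10 * g + (b + 24 + 81 * C) * (m * g)
            ≤ 18 * (m * g) + (b + 24 + 81 * C) * (m * g) := Nat.add_le_add_right e1 _
          _ = (b + 42 + 81 * C) * (m * g) := by ring
          _ ≤ mu b K C * (m * g) := by
              apply Nat.mul_le_mul_right
              unfold mu
              omega

/-- the passage to real numbers -/
theorem T41_real (X Y rad u E : ℕ) (key : X * Y * (8 * (rad + 1) ^ 2) ≤ 2 ^ (u * E)) :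
    (X : ℝ) * (Y : ℝ) * (2 / ((2 ^ (u + 1) : ℕ) : ℝ)) ^ E ≤ 1 / (8 * ((rad : ℝ) + 1) ^ 2) := by
  have h2M : (2 : ℝ) / ((2 ^ (u + 1) : ℕ) : ℝ) = 1 / (2 : ℝ) ^ u := by
    rw [Nat.cast_pow, Nat.cast_ofNat, pow_succ]
    field_simp
  have hkey : (X : ℝ) * (Y : ℝ) * (8 * ((rad : ℝ) + 1) ^ 2) ≤ (2 : ℝ) ^ (u * E) := by
    have h := (Nat.cast_le (α := ℝ)).2 key
    simpa only [Nat.cast_mul, Nat.cast_pow, Nat.cast_add, Nat.cast_one, Nat.cast_ofNat] using h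
  rw [h2M, one_div_pow, ← pow_mul, mul_one_div, div_le_div_iff₀ (by positivity) (by positivity),
    one_mul]
  exact hkey

/-- T41: weight of the events of the second kind -/
theorem T41 (b K C : ℕ) (hb : 1 ≤ b) (hK : 1 ≤ K) (ph : ℕ → ℕ) (hph : (tP ph).Ok)
    (hg : Gro ph C) (i m rad : ℕ) (hm : 2 ≤ m) (hmi : m ≤ (tP ph).m i)
    (hrad : rad + 1 ≤ 22 * m * (10 * (tP ph).rho i + 1)) :
    ((2 * ((tP ph).ph rad * ((tP ph).ph (2 * rad + 2) * 2 ^ m)) *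
        ((m * (tP ph).ph (10 * (tP ph).rho i + 1)) ^ m *
          Fintype.card (Sk (tP ph) b i) ^ m) : ℕ) : ℝ) *
      ((((tP ph).Xi i * Fintype.card (Pt (tP ph) i)) ^ m : ℕ) : ℝ) *
      (2 / (Mm b K C : ℕ)) ^ (m * (tP ph).g i) ≤ 1 / (8 * ((rad : ℝ) + 1) ^ 2) := by
  obtain ⟨hrho, hgg, h2g, -, -, hρ1, hρ11, hmp⟩ := T38 ph
  have hS := T39 b C hb ph hph hg i
  obtain ⟨-, -, hsub, hmono⟩ := hph
  have hg1 : 1 ≤ (gr i).1 := Nat.one_le_two_pow.trans (h2g i)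
  have hpos : 2 ^ i ≠ 0 := by positivity
  have hF : ph (50 * (gr i).2) ≤ 2 ^ (C * (gr i).1) :=
    (Nat.le_self_pow hpos _).trans (hg i)
  have hmm : (tP ph).m i ≤ 2 ^ (2 * (gr i).1) := (Nat.le_self_pow hpos _).trans (hmp i)
  have hρ5 : (gr i).2 ≤ 2 ^ (5 * (gr i).1) := by
    have hi : i ≤ (gr i).1 := Nat.lt_two_pow_self.le.trans (h2g i)
    calc (gr i).2 ≤ 11 ^ i * (gr i).1 := hρ11 i
      _ ≤ (2 ^ 4) ^ (gr i).1 * 2 ^ (gr i).1 := by
          apply Nat.mul_le_mul _ Nat.lt_two_pow_self.le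
          exact (Nat.pow_le_pow_left (by norm_num) _).trans
            (Nat.pow_le_pow_right (by norm_num) hi)
      _ = 2 ^ (5 * (gr i).1) := by rw [← pow_mul, ← pow_add]; congr 1; ring
  rw [hrho i] at hrad ⊢
  rw [hgg i]
  have hball := T41_ball ph hsub hmono m (gr i).2 C (gr i).1 rad (by omega) (hρ1 i) hF hrad
  have hP : ph (10 * (gr i).2 + 1) ≤ 2 ^ (C * (gr i).1) :=
    (hmono _ _ (by have := hρ1 i; omega)).trans hF
  have hXi : (tP ph).Xi i ≤ 2 ^ ((6 + 4 * C) * (gr i).1) := by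
    have e1 : ph (10 * (tP ph).rho i) ≤ 2 ^ (C * (gr i).1) := by
      rw [hrho i]; exact (hmono _ _ (by omega)).trans hF
    have e2 : ph (28 * (tP ph).rho i) ≤ 2 ^ (C * (gr i).1) := by
      rw [hrho i]; exact (hmono _ _ (by omega)).trans hF
    calc (tP ph).Xi i = ((tP ph).m i * ph (10 * (tP ph).rho i)) ^ 3 *
          ph (28 * (tP ph).rho i) := rfl
      _ ≤ (2 ^ (2 * (gr i).1) * 2 ^ (C * (gr i).1)) ^ 3 * 2 ^ (C * (gr i).1) := by gcongr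
      _ = 2 ^ ((6 + 4 * C) * (gr i).1) := by
          rw [← pow_add, ← pow_mul, ← pow_add]; congr 1; ring
  have key := T41_nat b K C m ((tP ph).m i) (gr i).2 (gr i).1 rad (ph rad) (ph (2 * rad + 2))
    (ph (10 * (gr i).2 + 1)) ((tP ph).Xi i) (Fintype.card (Sk (tP ph) b i))
    (Fintype.card (Pt (tP ph) i)) hg1 (hρ1 i) hmm hρ5 hball hP hXi hS hm hmi hrad
  exact T41_real _ _ rad (mu b K C) (m * (gr i).1) key

end Pool.Agent.SXG
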