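import Pool.Agent.SXG.J15
import Pool.Agent.SXG.J26
import Pool.Agent.SXG.J28
import Pool.Agent.SXG.J29
import Pool.Agent.SXG.J30
import Pool.Agent.SXG.J31
import Pool.Agent.SXG.J33
import Pool.Agent.SXG.J34
import Pool.Agent.SXG.J38
import Pool.Agent.SXG.J40
import Pool.Agent.SXG.J41
import Pool.Agent.SXG.Defs
import Pool.Agent.LSN.J20
import Pool.Agent.LSN.J42
set_option autoImplicit false

namespace Pool.Agent.SXG

open Finset
open Pool.Agent.LSN (W Base Rch PW sel lf reg GC Rt tw)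

/-- classes of the events of the first kind -/
abbrev T44_I1 (P : Par) (L : ℕ) : Type := (i : Fin L) × Fin (P.xi i + 1)

/-- classes of the events of the second kind, the radius is `r + 1` -/
abbrev T44_I2 (R : ℕ) : Type := {r : Fin R // 22 ≤ (r.val + 1) + 1}

/-- the types of the events -/
abbrev T44_E (P : Par) (V : Type) (b K M L R : ℕ) (ci cm : ℕ → ℕ) :
    T44_I1 P L ⊕ T44_I2 R → Type
  | Sum.inl k => EG P V b K M k.1.val k.2.val
  | Sum.inr k => EC P V b (ci (k.1.val + 1)) (cm (k.1.val + 1))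

noncomputable instance T44_inst {P : Par} {V : Type} [Fintype V] {b K M L R : ℕ}
    {ci cm : ℕ → ℕ} : (k : T44_I1 P L ⊕ T44_I2 R) → Fintype (T44_E P V b K M L R ci cm k)
  | Sum.inl k => inferInstanceAs (Fintype (EG P V b K M k.1.val k.2.val))
  | Sum.inr k => inferInstanceAs (Fintype (EC P V b (ci (k.1.val + 1)) (cm (k.1.val + 1))))

lemma T44_sum (R : ℕ) (p : Fin R → Prop) [DecidablePred p] (f : {r : Fin R // p r} → ℝ)
    (hf : ∀ k, f k ≤ 1 / (8 * (((k.1.val + 1 : ℕ) : ℝ) + 1) ^ 2)) : ∑ k, f k ≤ 1 / 8 := by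
  have h1 : ∑ k, f k ≤ ∑ k : {r : Fin R // p r},
      (fun r : Fin R => (1 : ℝ) / (8 * (((r.val + 1 : ℕ) : ℝ) + 1) ^ 2)) k.1 :=
    sum_le_sum fun k _ => hf k
  have h2 : ∑ k : {r : Fin R // p r},
      (fun r : Fin R => (1 : ℝ) / (8 * (((r.val + 1 : ℕ) : ℝ) + 1) ^ 2)) k.1 =
      ∑ r ∈ univ.filter p, (1 : ℝ) / (8 * (((r.val + 1 : ℕ) : ℝ) + 1) ^ 2) :=
    (Finset.sum_subtype (p := p) (univ.filter p) (fun x => by simp)
      (fun r : Fin R => (1 : ℝ) / (8 * (((r.val + 1 : ℕ) : ℝ) + 1) ^ 2))).symm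
  have h3 : ∑ r ∈ univ.filter p, (1 : ℝ) / (8 * (((r.val + 1 : ℕ) : ℝ) + 1) ^ 2) ≤
      ∑ r : Fin R, (1 : ℝ) / (8 * (((r.val + 1 : ℕ) : ℝ) + 1) ^ 2) :=
    sum_le_sum_of_subset_of_nonneg (filter_subset _ _) fun i _ _ => by positivity
  have h4 : ∑ r : Fin R, (1 : ℝ) / (8 * (((r.val + 1 : ℕ) : ℝ) + 1) ^ 2) =
      ∑ r ∈ range R, (1 : ℝ) / (8 * (((r + 1 : ℕ) : ℝ) + 1) ^ 2) :=
    Fin.sum_univ_eq_sum_range (fun r => (1 : ℝ) / (8 * (((r + 1 : ℕ) : ℝ) + 1) ^ 2)) R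
  have h5 := Pool.Agent.LSN.T43 R
  linarith

lemma T44_geo (L : ℕ) : ∑ i ∈ range L, (1 : ℝ) / (8 * 2 ^ i) = 1 / 4 - 1 / (4 * 2 ^ L) := by
  induction L with
  | zero => norm_num
  | succ n ih =>
    rw [sum_range_succ, ih, pow_succ]
    have h : (0 : ℝ) < 2 ^ n := by positivity
    field_simp
    ring

lemma T44_sum1 (P : Par) (L : ℕ) (f : T44_I1 P L → ℝ)
    (hf : ∀ k, f k ≤ 1 / (8 * 2 ^ k.1.val * ((P.xi k.1 : ℕ) + 1))) : ∑ k, f k ≤ 1 / 4 := by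
  have h1 : ∑ k, f k ≤ ∑ k : T44_I1 P L, (1 : ℝ) / (8 * 2 ^ k.1.val * ((P.xi k.1 : ℕ) + 1)) :=
    sum_le_sum fun k _ => hf k
  have h0 : ∑ k : T44_I1 P L, (1 : ℝ) / (8 * 2 ^ k.1.val * ((P.xi k.1 : ℕ) + 1)) =
      ∑ i : Fin L, ∑ _n : Fin (P.xi i + 1), (1 : ℝ) / (8 * 2 ^ i.val * ((P.xi i : ℕ) + 1)) :=
    Fintype.sum_sigma _
  rw [h0] at h1
  have h2 : ∀ i : Fin L, ∑ _n : Fin (P.xi i + 1), (1 : ℝ) / (8 * 2 ^ i.val *
      ((P.xi i : ℕ) + 1)) = 1 / (8 * 2 ^ i.val) := by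
    intro i
    rw [sum_const, card_univ, Fintype.card_fin, nsmul_eq_mul]
    have h4 : (0 : ℝ) < (P.xi i : ℕ) + 1 := by positivity
    have h5 : (0 : ℝ) < 2 ^ i.val := by positivity
    rw [Nat.cast_add, Nat.cast_one]
    field_simp
  have h6 : ∑ i : Fin L, ∑ _n : Fin (P.xi i + 1), (1 : ℝ) / (8 * 2 ^ i.val *
      ((P.xi i : ℕ) + 1)) = ∑ i : Fin L, (1 : ℝ) / (8 * 2 ^ i.val) :=
    sum_congr rfl fun i _ => h2 i
  have h7 : ∑ i : Fin L, (1 : ℝ) / (8 * 2 ^ i.val) = ∑ i ∈ range L, (1 : ℝ) / (8 * 2 ^ i) :=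
    Fin.sum_univ_eq_sum_range (fun i => (1 : ℝ) / (8 * 2 ^ i)) L
  have h8 := T44_geo L
  have h9 : (0 : ℝ) ≤ 1 / (4 * 2 ^ L) := by positivity
  linarith

theorem T44 {V : Type} [Fintype V] (b K C L : ℕ) (hb : 1 ≤ b) (hK : 1 ≤ K) (hL : 1 ≤ L)
    (ph : ℕ → ℕ) (hph : (tP ph).Ok) (hg : Gro ph C) [NeZero (Mm b K C)] (G : Base V b K)
    (hbal : Bal (tP ph) G) (R : ℕ)
    (hR : R + 1 = (tP ph).m (L - 1) * (10 * (tP ph).rho (L - 1) + 1))
    (hV : Fintype.card V ≤ 2 ^ (tP ph).m (L - 1)) (ci cm : ℕ → ℕ)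
    (hc : ∀ rad, 22 ≤ rad + 1 → rad ≤ R →
      ci rad < L ∧ 2 ≤ cm rad ∧ cm rad ≤ (tP ph).m (ci rad) ∧
      (10 * (tP ph).rho (ci rad) + 1) * cm rad ≤ rad + 1 ∧
      rad + 1 ≤ 22 * cm rad * (10 * (tP ph).rho (ci rad) + 1) ∧
      (rad = R → cm rad = (tP ph).m (L - 1))) :
    ∃ z : V → Fin (Mm b K C),
      (∀ i < L, ∀ n ≤ (tP ph).xi i, ∀ e : EG (tP ph) V b K (Mm b K C) i n,
        ¬ badG (tP ph) G e z) ∧
      (∀ rad, 22 ≤ rad + 1 → rad ≤ R → ∀ e : EC (tP ph) V b (ci rad) (cm rad),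
          ¬ badC (tP ph) G R rad e z) := by
  classical
  obtain ⟨-, hgg, h2g, -, -, -, -, -⟩ := T38 ph
  obtain ⟨-, -, -, -, hN, -⟩ := T15 (tP ph) hph
  have hgpos : ∀ i, 0 < (tP ph).g i := fun i => by
    rw [hgg i]
    exact lt_of_lt_of_le (by positivity) (h2g i)
  set P := tP ph with hP
  set M := Mm b K C with hM
  have hc2 : ∀ k : T44_I2 R, ci (k.1.val + 1) < L ∧ 2 ≤ cm (k.1.val + 1) ∧
      cm (k.1.val + 1) ≤ P.m (ci (k.1.val + 1)) ∧
      (10 * P.rho (ci (k.1.val + 1)) + 1) * cm (k.1.val + 1) ≤ (k.1.val + 1) + 1 ∧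
      (k.1.val + 1) + 1 ≤ 22 * cm (k.1.val + 1) * (10 * P.rho (ci (k.1.val + 1)) + 1) ∧
      (k.1.val + 1 = R → cm (k.1.val + 1) = P.m (L - 1)) :=
    fun k => hc (k.1.val + 1) k.2 k.1.2
  have hV2 : ∀ k : T44_I2 R, k.1.val + 1 < R ∨ Fintype.card V ≤ 2 ^ (cm (k.1.val + 1)) := by
    intro k
    rcases lt_or_eq_of_le (show k.1.val + 1 ≤ R from k.1.2) with h | h
    · exact Or.inl h
    · right
      rw [(hc2 k).2.2.2.2.2 h]
      exact hV
  let U : (k : T44_I1 P L ⊕ T44_I2 R) → T44_E P V b K M L R ci cm k → Finset V := fun k =>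
    match k with
    | Sum.inl _ => fun e => UG P G e
    | Sum.inr _ => fun e => UC P G e
  let D : (k : T44_I1 P L ⊕ T44_I2 R) → T44_E P V b K M L R ci cm k → Finset V := fun k =>
    match k with
    | Sum.inl _ => fun e => DG P G e
    | Sum.inr k => fun e => D2 G (k.1.val + 1) e.1 e.2.1
  let bad : (k : T44_I1 P L ⊕ T44_I2 R) → T44_E P V b K M L R ci cm k → (V → Fin M) → Prop :=
    fun k =>
    match k with
    | Sum.inl _ => fun e z => badG P G e z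
    | Sum.inr k => fun e z => badC P G R (k.1.val + 1) e z
  let u : T44_I1 P L ⊕ T44_I2 R → ℕ := fun k =>
    match k with
    | Sum.inl k => P.Nn k.1 * P.g k.1
    | Sum.inr k => cm (k.1.val + 1) * P.g (ci (k.1.val + 1))
  let w : T44_I1 P L ⊕ T44_I2 R → ℕ := fun k =>
    match k with
    | Sum.inl k => Fintype.card (Pt P k.1) ^ P.Nn k.1
    | Sum.inr k => (P.Xi (ci (k.1.val + 1)) *
        Fintype.card (Pt P (ci (k.1.val + 1)))) ^ cm (k.1.val + 1)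
  let nn : T44_I1 P L ⊕ T44_I2 R → ℕ := fun k =>
    match k with
    | Sum.inl k => P.ph (P.Nn k.1 * (50 * P.rho k.1) + P.rho k.1) *
        ((2 ^ k.2.val) ^ k.2.val * (K ^ k.2.val * (M ^ k.2.val * 2 ^ k.2.val))) *
        ((P.Nn k.1 * P.ph (50 * P.rho k.1)) ^ P.Nn k.1 * (k.2.val ^ P.Nn k.1 *
          Fintype.card (Sk P b k.1) ^ P.Nn k.1))
    | Sum.inr k => 2 * (P.ph (k.1.val + 1) * (P.ph (2 * (k.1.val + 1) + 2) *
          2 ^ (cm (k.1.val + 1)))) *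
        ((cm (k.1.val + 1) * P.ph (10 * P.rho (ci (k.1.val + 1)) + 1)) ^ cm (k.1.val + 1) *
          Fintype.card (Sk P b (ci (k.1.val + 1))) ^ cm (k.1.val + 1))
  obtain ⟨z, hz⟩ := Pool.Agent.LSN.T20 (Z := V) (T44_E P V b K M L R ci cm) M U D bad
    u w nn
    (by
      rintro (k | k)
      · have h1 := hN k.1
        have h2 := hgpos k.1
        exact Nat.mul_pos (by omega) h2
      · have h1 := (hc2 k).2.1
        have h2 := hgpos (ci (k.1.val + 1))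
        exact Nat.mul_pos (by omega) h2)
    (by
      rintro (k | k) e
      · exact (T27 (M := M) P hph G e).1
      · exact (T31 (M := M) P hph G R (k.1.val + 1) (hc2 k).2.2.2.1 e).1)
    (by
      rintro (k | k) e z z' h hz
      · exact T28 P G e z z' h hz
      · exact T32 P G R (k.1.val + 1) (hc2 k).2.2.2.1 e z z' h hz)
    (by
      rintro (k | k) e z hz
      · exact (T27 (M := M) P hph G e).2 z hz
      · exact (T31 (M := M) P hph G R (k.1.val + 1) (hc2 k).2.2.2.1 e).2 z hz)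
    (by
      rintro (k | k) e z0
      · exact T29 P G e z0
      · exact T33 P G R (k.1.val + 1) (hc2 k).2.2.2.1 e z0)
    (by
      rintro (k | k) x
      · exact T30 P G hbal x
      · exact T35 P hph G hbal R (k.1.val + 1) (hV2 k) x)
    (by
      rw [Fintype.sum_sum_type]
      have h1 := T44_sum1 P L (fun k => (nn (Sum.inl k) : ℝ) * w (Sum.inl k) *
        (2 / M) ^ u (Sum.inl k)) (fun k => by
          have h := T40 b K C hb hK ph hph hg k.1.val k.2.val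
            (Nat.lt_succ_iff.1 k.2.2)
          exact h)
      have h2 := T44_sum R (fun r => 22 ≤ (r.val + 1) + 1)
        (fun k => (nn (Sum.inr k) : ℝ) * w (Sum.inr k) *
        (2 / M) ^ u (Sum.inr k)) (fun k => by
          have h := T41 b K C hb hK ph hph hg (ci (k.1.val + 1)) (cm (k.1.val + 1))
            (k.1.val + 1) (hc2 k).2.1 (hc2 k).2.2.1 (hc2 k).2.2.2.2.1
          exact h)
      linarith)
  refine ⟨z, ?_, ?_⟩
  · intro i hi n hn e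
    exact hz (Sum.inl ⟨⟨i, hi⟩, ⟨n, Nat.lt_succ_iff.2 hn⟩⟩) e
  · intro rad h1 h2
    obtain ⟨r, rfl⟩ : ∃ r, rad = r + 1 := ⟨rad - 1, by omega⟩
    intro e
    exact hz (Sum.inr ⟨⟨r, h2⟩, h1⟩) e

end Pool.Agent.SXG
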