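import Pool.Agent.SXG.J15
import Pool.Agent.SXG.J21
import Pool.Agent.SXG.J24
import Pool.Agent.SXG.J37
import Pool.Agent.SXG.J38
import Pool.Agent.SXG.J44
import Pool.Agent.SXG.Defs
set_option autoImplicit false

namespace Pool.Agent.SXG

open Pool.Agent.LSN (W Base Rch PW sel lf reg GC Rt tw)

/-- choice of levels and numbers of windows -/
lemma T45_choice (P : Par) (hP : P.Ok) (L R : ℕ) (hL : 1 ≤ L)
    (hR : R + 1 = P.m (L - 1) * (10 * P.rho (L - 1) + 1)) :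
    ∃ ci cm : ℕ → ℕ, ∀ rad, 22 ≤ rad + 1 → rad ≤ R →
      ci rad < L ∧ 2 ≤ cm rad ∧ cm rad ≤ P.m (ci rad) ∧
      (10 * P.rho (ci rad) + 1) * cm rad ≤ rad + 1 ∧
      rad + 1 ≤ 22 * cm rad * (10 * P.rho (ci rad) + 1) ∧
      (rad = R → cm rad = P.m (L - 1)) := by
  have h : ∀ rad : ℕ, ∃ p : ℕ × ℕ, 22 ≤ rad + 1 → rad ≤ R →
      p.1 < L ∧ 2 ≤ p.2 ∧ p.2 ≤ P.m p.1 ∧
      (10 * P.rho p.1 + 1) * p.2 ≤ rad + 1 ∧
      rad + 1 ≤ 22 * p.2 * (10 * P.rho p.1 + 1) ∧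
      (rad = R → p.2 = P.m (L - 1)) := by
    intro rad
    by_cases h1 : 22 ≤ rad + 1 ∧ rad ≤ R
    · obtain ⟨i, hi, m, h2, h3, h4, h5, h6⟩ := T37 P hP L rad hL (by omega) h1.1
      exact ⟨(i, m), fun _ _ => ⟨hi, h2, h3, h4, h5, fun h7 => h6 (by omega)⟩⟩
    · exact ⟨(0, 0), fun h2 h3 => absurd ⟨h2, h3⟩ h1⟩
  choose p hp using h
  exact ⟨fun r => (p r).1, fun r => (p r).2, fun rad h1 h2 => hp rad h1 h2⟩

/-- in a bad stroll all pairs are different -/
lemma T45_all {V : Type} {b K : ℕ} (G : Base V b K) (t : ℕ) (x : ℕ → V)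
    (hx : ∀ i, i + 1 < 2 * t → G.r (x i) (x (i + 1)))
    (hcol : ∀ i < t, G.col (x i) = G.col (x (i + t))) (i0 : ℕ) (hi0 : i0 < t)
    (hne : x i0 ≠ x (i0 + t)) : ∀ j < t, x j ≠ x (j + t) := by
  have step1 : ∀ j, j + 1 < t → x j = x (j + t) → x (j + 1) = x (j + 1 + t) := by
    intro j hj h
    refine G.loc (x j) _ _ (hx j (by omega)) ?_ (hcol (j + 1) hj)
    rw [h, show j + 1 + t = j + t + 1 by omega]
    exact hx (j + t) (by omega)
  have step2 : ∀ j, j + 1 < t → x (j + 1) = x (j + 1 + t) → x j = x (j + t) := by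
    intro j hj h
    refine G.loc (x (j + 1)) _ _ (G.symm _ _ (hx j (by omega))) ?_ (hcol j (by omega))
    rw [h, show j + 1 + t = j + t + 1 by omega]
    exact G.symm _ _ (hx (j + t) (by omega))
  have h0 : ∀ j, j < t → (x j = x (j + t) ↔ x 0 = x (0 + t)) := by
    intro j
    induction j with
    | zero => intro _; rfl
    | succ j ih =>
      intro hj
      rw [← ih (by omega)]
      exact ⟨step2 j hj, step1 j hj⟩
  intro j hj h
  exact hne ((h0 i0 hi0).2 ((h0 j hj).1 h))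

theorem T45 {V : Type} [Fintype V] (b K C : ℕ) (hb : 1 ≤ b) (hK : 1 ≤ K)
    (ph : ℕ → ℕ) (hph : (tP ph).Ok) (hg : Gro ph C) (G : Base V b K)
    (hbal : Bal (tP ph) G) (hQ : Q42 G) :
    ∃ c : V → Fin K × Fin (Mm b K C), ∀ (t : ℕ) (x : ℕ → V),
      (∀ i, i + 1 < 2 * t → G.r (x i) (x (i + 1))) →
      (∀ i < t, c (x i) = c (x (i + t))) → ∀ i < t, x i = x (i + t) := by
  have : NeZero (Mm b K C) := ⟨by unfold Mm; positivity⟩
  obtain ⟨-, -, -, hm4, hmi1, hrho1, -, -⟩ := T38 ph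
  obtain ⟨L, hLdef⟩ : ∃ L, L = Fintype.card V + 1 := ⟨_, rfl⟩
  have hL : 1 ≤ L := by omega
  have hV : Fintype.card V ≤ 2 ^ (tP ph).m (L - 1) := by
    have h1 := hmi1 (L - 1)
    have h2 : (tP ph).m (L - 1) < 2 ^ (tP ph).m (L - 1) := Nat.lt_two_pow_self
    omega
  obtain ⟨R, hR⟩ : ∃ R, R + 1 = (tP ph).m (L - 1) * (10 * (tP ph).rho (L - 1) + 1) := by
    refine ⟨(tP ph).m (L - 1) * (10 * (tP ph).rho (L - 1) + 1) - 1, ?_⟩
    have h1 : 1 ≤ (tP ph).m (L - 1) * (10 * (tP ph).rho (L - 1) + 1) :=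
      Nat.mul_pos (lt_of_lt_of_le (by norm_num) (hm4 (L - 1))) (Nat.succ_pos _)
    omega
  have hrho : 1 ≤ (tP ph).rho (L - 1) := (T15 (tP ph) hph).1 (L - 1)
  have hR22 : 21 ≤ R := by
    have h1 : 4 * 11 ≤ (tP ph).m (L - 1) * (10 * (tP ph).rho (L - 1) + 1) :=
      Nat.mul_le_mul (hm4 (L - 1)) (by omega)
    omega
  obtain ⟨ci, cm, hc⟩ := T45_choice (tP ph) hph L R hL hR
  obtain ⟨z, hz1, hz2⟩ := T44 b K C L hb hK hL ph hph hg G hbal R hR hV ci cm hc
  -- all bounds hold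
  have hCl : ∀ i, i < L → Cl (tP ph) G z i := by
    intro i
    induction i using Nat.strong_induction_on with
    | _ i ih =>
      intro hi
      by_contra hnot
      obtain ⟨n, hn, e, he⟩ := T21 (tP ph) hph G hbal z i
        (fun j hj => ih j hj (by omega)) hnot
      exact hz1 i hi n hn e he
  refine ⟨fun v => (G.col v, z v), ?_⟩
  intro t x hx hcc
  by_contra hcon
  push Not at hcon
  obtain ⟨i0, hi0, hne⟩ := hcon
  have hcol : ∀ i < t, G.col (x i) = G.col (x (i + t)) := fun i hi =>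
    congrArg Prod.fst (hcc i hi)
  have hall := T45_all G t x hx hcol i0 hi0 hne
  have ht : 1 ≤ t := by omega
  set X : ℕ → V := x with hX
  set Y : ℕ → V := fun j => x (j + t) with hY
  have hW : PW G.r G.r (Mt (gs G z ∅) (gs G z ∅)) X Y (t - 1) := by
    refine ⟨fun j hj => ⟨hx j (by omega), ?_⟩, fun j hj => ⟨hcol j (by omega), ?_⟩⟩
    · show G.r (x (j + t)) (x (j + 1 + t))
      rw [show j + 1 + t = j + t + 1 by omega]
      exact hx (j + t) (by omega)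
    · exact Or.inr (Or.inr (congrArg Prod.snd (hcc j (by omega))))
  have hY0 : Y 0 = x t := by simp [hY]
  have hne0 : X 0 ≠ Y 0 := by
    have := hall 0 (by omega)
    simpa [hY] using this
  have hnear : G.r (X (t - 1)) (Y 0) := by
    rw [hY0]
    have := hx (t - 1) (by omega)
    rwa [show t - 1 + 1 = t by omega] at this
  have hcol0 : G.col (X 0) = G.col (Y 0) := by
    have := hcol 0 (by omega)
    simpa [hY] using this
  have hW2 : ¬ W G.r (2 * 21) (X 0) (Y 0) := fun h => hne0 (hQ _ _ h hcol0)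
  classical
  set rad : ℕ := Nat.findGreatest (fun r => ¬ W G.r (2 * r) (X 0) (Y 0)) R with hrad
  have hrad1 : 21 ≤ rad :=
    Nat.le_findGreatest (P := fun r => ¬ W G.r (2 * r) (X 0) (Y 0)) hR22 hW2
  have hradR : rad ≤ R := Nat.findGreatest_le _
  have hradP : ¬ W G.r (2 * rad) (X 0) (Y 0) :=
    Nat.findGreatest_spec (P := fun r => ¬ W G.r (2 * r) (X 0) (Y 0)) hR22 hW2
  have hRt : Rt G R rad (X 0) (Y 0) := by
    refine ⟨hradP, fun hlt => ?_⟩
    by_contra hno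
    have := Nat.findGreatest_is_greatest (P := fun r => ¬ W G.r (2 * r) (X 0) (Y 0))
      (n := R) (k := rad + 1) (by omega) (by omega)
    apply this
    show ¬ W G.r (2 * (rad + 1)) (X 0) (Y 0)
    rwa [show 2 * (rad + 1) = 2 * rad + 2 by ring]
  have hXT : ¬ W G.r (2 * rad - 1) (X 0) (X (t - 1)) := by
    intro h
    apply hradP
    have h1 := Pool.Agent.LSN.W_add h (Pool.Agent.LSN.W_one.2 hnear)
    rwa [show 2 * rad - 1 + 1 = 2 * rad by omega] at h1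
  obtain ⟨c1, c2, c3, c4, c5, -⟩ := hc rad (by omega) hradR
  have hfar : ∃ u ≤ t - 1, ¬ W G.r ((10 * (tP ph).rho (ci rad) + 1) * (cm rad - 1) - 1)
      (X 0) (X u) := by
    refine ⟨t - 1, le_rfl, fun h => hXT (Pool.Agent.LSN.W_mono G.refl ?_ h)⟩
    have h1 : (10 * (tP ph).rho (ci rad) + 1) * (cm rad - 1) ≤
        (10 * (tP ph).rho (ci rad) + 1) * cm rad := Nat.mul_le_mul le_rfl (Nat.sub_le _ _)
    omega
  obtain ⟨ev, hev⟩ := T24 (tP ph) hph G hbal z (ci rad) (cm rad) R rad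
    c2 c3 c4 (fun j hj => hCl j (by omega)) X Y (t - 1) hW hRt hfar
  exact hz2 rad (by omega) hradR ev hev

end Pool.Agent.SXG
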