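import Pool.Agent.CayNR.Disjoint
import Pool.Agent.SXG.Defs
import Pool.Agent.LSN.J01
import Pool.Agent.LSN.J46
/-!
# SXG, target T46: the base graph of a simple graph
-/

set_option autoImplicit false

namespace Pool.Agent.SXG

open Pool.Agent.LSN (W Base Rch PW sel lf reg GC Rt tw)
open Pool.Agent.CayNR

theorem T46 {V : Type} [Fintype V] (G : SimpleGraph V) (Δ : ℕ)
    (hΔ : ∀ v, (G.neighborSet v).ncard ≤ Δ) :
    ∃ B : Base V (Δ + 2) ((Δ + 2) ^ 42 + 1),
      (∀ x y, B.r x y ↔ (x = y ∨ G.Adj x y)) ∧ Q42 B := by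
  classical
  have h0 : Dist2 G (Fintype.equivFin V) := fun x y y' _ _ h =>
    (Fintype.equivFin V).injective h
  obtain ⟨B0, hB0, -⟩ := Pool.Agent.LSN.T46 G Δ (Fintype.card V) hΔ _ h0
  obtain ⟨a, ha⟩ := greedy (fun x y => W B0.r 42 x y)
    (fun x y h => Pool.Agent.LSN.W_symm (fun u v => B0.symm u v) h) ((Δ + 2) ^ 42)
    (fun x => (Pool.Agent.LSN.T01 B0 42 x).2)
  have hinj : ∀ x y, W B0.r 42 x y → a x = a y → x = y := by
    intro x y h1 h2
    by_contra hne
    exact ha x y hne h1 h2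
  have h1 : Dist2 G a := by
    intro x y y' h1 h2 h3
    refine hinj y y' ?_ h3
    have e1 : B0.r y x := by
      rcases h1 with h | h
      · exact (hB0 _ _).2 (Or.inr h.symm)
      · exact (hB0 _ _).2 (Or.inl h.symm)
    have e2 : B0.r x y' := by
      rcases h2 with h | h
      · exact (hB0 _ _).2 (Or.inr h)
      · exact (hB0 _ _).2 (Or.inl h)
    have h4 : W B0.r 2 y y' := ⟨x, ⟨y, rfl, e1⟩, e2⟩
    exact Pool.Agent.LSN.W_mono B0.refl (by norm_num) h4
  obtain ⟨B, hB, hcol⟩ := Pool.Agent.LSN.T46 G Δ ((Δ + 2) ^ 42 + 1) hΔ a h1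
  refine ⟨B, hB, ?_⟩
  have hr : B.r = B0.r := by
    funext x y
    exact propext ((hB x y).trans (hB0 x y).symm)
  intro x y h2 h3
  rw [hr] at h2
  rw [hcol] at h3
  exact hinj x y h2 h3

end Pool.Agent.SXG
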