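import Pool.Agent.SXG.Defs
import Pool.Agent.SXG.J38
import Pool.Agent.LSN.J01

set_option autoImplicit false

namespace Pool.Agent.SXG

open Pool.Agent.LSN (W Base Rch PW sel lf reg GC Rt tw)

/-- The largest ball of radius `k`. -/
noncomputable def T47_ph {V : Type} [Fintype V] {b K : ℕ} (G : Base V b K) (k : ℕ) : ℕ :=
  Finset.univ.sup fun v => {u | W G.r k v u}.ncard

lemma T47_ball {V : Type} [Fintype V] {b K : ℕ} (G : Base V b K) (k : ℕ) (v : V) :
    {u | W G.r k v u}.ncard ≤ T47_ph G k :=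
  Finset.le_sup (f := fun v => {u | W G.r k v u}.ncard) (Finset.mem_univ v)

lemma T47_ex {V : Type} [Fintype V] [Nonempty V] {b K : ℕ} (G : Base V b K) (k : ℕ) :
    ∃ v : V, T47_ph G k = {u | W G.r k v u}.ncard := by
  obtain ⟨v, -, hv⟩ := Finset.exists_mem_eq_sup (Finset.univ : Finset V) Finset.univ_nonempty
    (fun v => {u | W G.r k v u}.ncard)
  exact ⟨v, hv⟩

lemma T47_pos {V : Type} [Fintype V] [Nonempty V] {b K : ℕ} (G : Base V b K) (k : ℕ) :
    1 ≤ T47_ph G k := by
  obtain ⟨v⟩ := ‹Nonempty V›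
  refine le_trans ?_ (T47_ball G k v)
  have h : {u | W G.r k v u}.Nonempty := ⟨v, Pool.Agent.LSN.W_refl G.refl k v⟩
  exact (Set.ncard_pos (Set.toFinite _)).2 h

lemma T47_mono {V : Type} [Fintype V] [Nonempty V] {b K : ℕ} (G : Base V b K) {j k : ℕ}
    (h : j ≤ k) : T47_ph G j ≤ T47_ph G k := by
  obtain ⟨v, hv⟩ := T47_ex G j
  rw [hv]
  refine le_trans ?_ (T47_ball G k v)
  exact Set.ncard_le_ncard (fun u hu => Pool.Agent.LSN.W_mono G.refl h hu) (Set.toFinite _)

lemma T47_split {V : Type} {r : V → V → Prop} {j k : ℕ} {u v : V} (h : W r (j + k) u v) :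
    ∃ x, W r j u x ∧ W r k x v := by
  induction k generalizing v with
  | zero => exact ⟨v, h, rfl⟩
  | succ k ih =>
    obtain ⟨x, h1, h2⟩ := h
    obtain ⟨y, h3, h4⟩ := ih h1
    exact ⟨y, h3, x, h4, h2⟩

lemma T47_sub {V : Type} [Fintype V] [Nonempty V] {b K : ℕ} (G : Base V b K) (j k : ℕ) :
    T47_ph G (j + k) ≤ T47_ph G j * T47_ph G k := by
  classical
  obtain ⟨v, hv⟩ := T47_ex G (j + k)
  rw [hv]
  have h1 : {u | W G.r (j + k) v u} ⊆
      (((Set.toFinite {u | W G.r j v u}).toFinset.biUnion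
        fun x => (Set.toFinite {u | W G.r k x u}).toFinset : Finset V) : Set V) := by
    intro u hu
    obtain ⟨x, h2, h3⟩ := T47_split hu
    rw [Finset.mem_coe, Finset.mem_biUnion]
    exact ⟨x, by simpa using h2, by simpa using h3⟩
  refine (Set.ncard_le_ncard h1 (Set.toFinite _)).trans ?_
  rw [Set.ncard_coe_finset]
  refine (Finset.card_biUnion_le_card_mul _ _ (T47_ph G k) ?_).trans ?_
  · intro x _
    rw [← Set.ncard_eq_toFinset_card]
    exact T47_ball G k x
  · rw [← Set.ncard_eq_toFinset_card]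
    exact Nat.mul_le_mul_right _ (T47_ball G j v)

/-- T47. The growth function. -/
theorem T47 {V : Type} [Fintype V] [Nonempty V] (b K k0 : ℕ) (hb : 2 ≤ b) (G : Base V b K)
    (hgr : ∀ v n k, tw n k0 ≤ k → {u | W G.r k v u}.ncard ^ (22 ^ n) ≤ 2 ^ k) :
    ∃ ph : ℕ → ℕ, (tP ph).Ok ∧ Bal (tP ph) G ∧ Gro ph (50 * 22 ^ k0 * b) := by
  refine ⟨T47_ph G, ⟨?_, ?_, ?_, ?_⟩, ?_, ?_⟩
  · intro i
    have := (T38 (T47_ph G)).2.2.2.1 i
    omega
  · exact fun k => T47_pos G k
  · exact fun j k => T47_sub G j k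
  · exact fun j k h => T47_mono G h
  · exact fun k v => T47_ball G k v
  · intro i
    have hr := (T38 (T47_ph G)).2.2.2.2.2.2.1 i
    obtain ⟨v, hv⟩ := T47_ex G (50 * (gr i).2)
    rw [hv]
    set p := {u | W G.r (50 * (gr i).2) v u}.ncard with hp
    set g := (gr i).1 with hg
    rcases le_or_gt k0 i with hi | hi
    · obtain ⟨n, rfl⟩ : ∃ n, i = n + k0 := ⟨i - k0, by omega⟩
      have h1 : p ^ (22 ^ n) ≤ 2 ^ (50 * (gr (n + k0)).2) := by
        refine hgr v n _ ?_
        have := T38b n k0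
        omega
      have h2 : (p ^ (2 ^ (n + k0))) ^ (22 ^ n) ≤ (2 ^ (50 * 22 ^ k0 * g)) ^ (22 ^ n) := by
        calc (p ^ (2 ^ (n + k0))) ^ (22 ^ n) = (p ^ (22 ^ n)) ^ (2 ^ (n + k0)) := by
              rw [← pow_mul, ← pow_mul, mul_comm]
          _ ≤ (2 ^ (50 * (gr (n + k0)).2)) ^ (2 ^ (n + k0)) := Nat.pow_le_pow_left h1 _
          _ = 2 ^ (50 * (gr (n + k0)).2 * 2 ^ (n + k0)) := by rw [← pow_mul]
          _ ≤ 2 ^ (50 * (11 ^ (n + k0) * g) * 2 ^ (n + k0)) := by
              refine Nat.pow_le_pow_right (by norm_num) ?_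
              gcongr
          _ = (2 ^ (50 * 22 ^ k0 * g)) ^ (22 ^ n) := by
              rw [← pow_mul]
              congr 1
              have e : (22 : ℕ) ^ (n + k0) = 11 ^ (n + k0) * 2 ^ (n + k0) := by
                rw [← mul_pow]
                norm_num
              rw [pow_add 22 n k0] at e
              calc 50 * (11 ^ (n + k0) * g) * 2 ^ (n + k0)
                  = 50 * (11 ^ (n + k0) * 2 ^ (n + k0)) * g := by ring
                _ = 50 * (22 ^ n * 22 ^ k0) * g := by rw [e]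
                _ = 50 * 22 ^ k0 * g * 22 ^ n := by ring
      have h3 := (Nat.pow_le_pow_iff_left (by positivity : (22 : ℕ) ^ n ≠ 0)).1 h2
      refine h3.trans (Nat.pow_le_pow_right (by norm_num) ?_)
      calc 50 * 22 ^ k0 * g = 50 * 22 ^ k0 * 1 * g := by ring
        _ ≤ 50 * 22 ^ k0 * b * g := by
            gcongr
            omega
    · have h1 : p ≤ b ^ (50 * (gr i).2) := (Pool.Agent.LSN.T01 G (50 * (gr i).2) v).2
      calc p ^ (2 ^ i) ≤ (b ^ (50 * (gr i).2)) ^ (2 ^ i) := Nat.pow_le_pow_left h1 _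
        _ ≤ ((2 ^ b) ^ (50 * (gr i).2)) ^ (2 ^ i) := by
            gcongr
            exact Nat.lt_two_pow_self.le
        _ = 2 ^ (50 * b * (gr i).2 * 2 ^ i) := by
            rw [← pow_mul, ← pow_mul]
            congr 1
            ring
        _ ≤ 2 ^ (50 * b * (11 ^ i * g) * 2 ^ i) := by
            refine Nat.pow_le_pow_right (by norm_num) ?_
            gcongr
        _ = 2 ^ (50 * 22 ^ i * b * g) := by
            congr 1
            have e : (22 : ℕ) ^ i = 11 ^ i * 2 ^ i := by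
              rw [← mul_pow]
              norm_num
            rw [e]
            ring
        _ ≤ 2 ^ (50 * 22 ^ k0 * b * g) := by
            refine Nat.pow_le_pow_right (by norm_num) ?_
            gcongr
            · norm_num

end Pool.Agent.SXG
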