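import Pool.Agent.SXG.J45
import Pool.Agent.SXG.J46
import Pool.Agent.SXG.J47
import Pool.Agent.SXG.Defs
import Pool.Agent.CayNR.Base
/-!
# SXG, targets T48, T49: walks, the final theorem
-/

set_option autoImplicit false

namespace Pool.Agent.SXG

open Pool.Agent.LSN (W Base Rch PW sel lf reg GC Rt tw)
open Pool.Agent.CayNR

lemma T48_walk {V : Type} (G : SimpleGraph V) (r : V → V → Prop)
    (hr : ∀ x y, r x y ↔ (x = y ∨ G.Adj x y)) {u v : V} (p : G.Walk u v) :
    W r p.length u v := by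
  induction p with
  | nil => exact rfl
  | cons h p ih =>
    rw [SimpleGraph.Walk.length_cons, Nat.add_comm]
    exact Pool.Agent.LSN.W_add (Pool.Agent.LSN.W_one.2 ((hr _ _).2 (Or.inr h))) ih

theorem T48 {V : Type} (G : SimpleGraph V) (r : V → V → Prop)
    (hr : ∀ x y, r x y ↔ (x = y ∨ G.Adj x y)) (k : ℕ) (u v : V) :
    W r k u v ↔ ∃ p : G.Walk u v, p.length ≤ k := by
  constructor
  · induction k generalizing v with
    | zero =>
      intro h
      have h' : u = v := h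
      subst h'
      exact ⟨SimpleGraph.Walk.nil, le_refl _⟩
    | succ k ih =>
      rintro ⟨x, h1, h2⟩
      obtain ⟨p, hp⟩ := ih x h1
      rcases (hr x v).1 h2 with h | h
      · subst h
        exact ⟨p, by omega⟩
      · refine ⟨p.concat h, ?_⟩
        rw [SimpleGraph.Walk.length_concat]
        omega
  · rintro ⟨p, hp⟩
    exact Pool.Agent.LSN.W_mono (fun v => (hr v v).2 (Or.inl rfl)) hp (T48_walk G r hr p)

theorem T49 (Δ k0 : ℕ) : ∃ N : ℕ, ∀ (V : Type) [Fintype V] (G : SimpleGraph V),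
    (∀ v, (G.neighborSet v).ncard ≤ Δ) →
    (∀ (v : V) (n k : ℕ), tw n k0 ≤ k →
      {u | ∃ p : G.Walk v u, p.length ≤ k}.ncard ^ (22 ^ n) ≤ 2 ^ k) →
    HasBoringColouring G N := by
  refine ⟨((Δ + 2) ^ 42 + 1) * Mm (Δ + 2) ((Δ + 2) ^ 42 + 1) (50 * 22 ^ k0 * (Δ + 2)), ?_⟩
  intro V _ G hΔ hgr
  rcases isEmpty_or_nonempty V with hV | hV
  · exact ⟨fun v => hV.elim v, fun t x _ _ i _ => hV.elim (x i)⟩
  · obtain ⟨B, hB, hQ⟩ := T46 G Δ hΔ
    obtain ⟨ph, hph, hbal, hg⟩ := T47 (Δ + 2) ((Δ + 2) ^ 42 + 1) k0 (by omega) B (by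
      intro v n k hk
      have h := hgr v n k hk
      have h2 : {u | W B.r k v u} = {u | ∃ p : G.Walk v u, p.length ≤ k} := by
        ext u
        exact T48 G B.r hB k v u
      rw [h2]
      exact h)
    obtain ⟨c, hc⟩ := T45 (Δ + 2) ((Δ + 2) ^ 42 + 1) (50 * 22 ^ k0 * (Δ + 2)) (by omega)
      (by omega) ph hph hg B hbal hQ
    refine boring_of_card G c _ (by simp) ?_
    intro t x hx hcx
    exact hc t x (fun i hi => (hB _ _).2 (hx i hi)) hcx

end Pool.Agent.SXG
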