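import Pool.Agent.SXG.Defs
import Pool.Agent.CayNR.Disjoint

/-!
# SXG: targets for the theorem on graphs of growth `2 ^ (k / 22 ^ (log* k))` (MP_e379d7_co)

Paper proof: ideas row 2581.  Every target carries its complete proof in the docstring; most are
ports of proved targets of LSN: `Pool/Agent/LSN/Jxx.lean` contains the Lean proof of the LSN
target (copy it and change it).  Differences: ONE random coordinate (assignments are `z : V → Fin M`,
no orders `e`, no `cz`), wild sets, `10 * rho` instead of `2 * rho`, `ph` instead of `b ^ _`,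
chain codes by index in the ball.

HOW TO HAND IN target `Txx`: file `Pool/Agent/SXG/Jxx.lean`, `import Pool.Agent.SXG.Defs` (and
`Pool.Agent.SXG.Targets` if you use another target, written `Targets.Tyy`), namespace
`Pool.Agent.SXG`, theorem `Txx` with the statement copied verbatim (helper lemmas `Txx_...`).
-/

set_option autoImplicit false

namespace Pool.Agent.SXG.Targets

open Finset Pool.Agent.SXG
open Pool.Agent.LSN (W Base Rch PW sel lf reg GC Rt tw)

/-! ## A. Centres and windows -/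

/-- T02. `reg G.r z m k` is the union over `l < m` of balls with at most `ph k` points
(LSN/J01, `T02`). -/
theorem T02 {V : Type} [Finite V] {b K : ℕ} (P : Par) (G : Base V b K) (hbal : Bal P G)
    (z : ℕ → V) (m k : ℕ) : (reg G.r z m k).ncard ≤ m * P.ph k := by
  sorry

/-- T03. Elementary facts on `tab` and `ctr` (LSN/J03, `T03`). `tab n l = ctr l` for `l ≤ n`;
`tab n l = x` for `l > n`. Every `sel d j A` with `d ∈ A` is in `A` (`sel` is an element of the
list or the default `d`), and the centre itself is in its ball (`W_refl`), so the centre `l + 1` is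
within `k` of an older centre or of `x`. -/
theorem T03 {V : Type} [Finite V] {b K m p k : ℕ} (G : Base V b K) (ch : Fin m → Fin m × Fin p)
    (x : V) :
    (∀ n l, l ≤ n → tab G.r k ch x n l = ctr G.r k ch x l) ∧ ctr G.r k ch x 0 = x ∧
    ∀ l, W G.r (k * l) x (ctr G.r k ch x l) := by
  sorry

/-- T04. Chains have codes (LSN/J03, `T04`). For `1 ≤ l < m` choose `a < l` with
`W k (z a) (z l)`; by LSN `T06` (`Pool.Agent.LSN.T06` in LSN/J05) there is `j < ncard (ball)` with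
`sel (z a) j (ball) = z l`, and `ncard ≤ p`. For `l = 0` any code (`p ≥ 1` since the ball of `z 0`
is not empty). Then `ctr l = z l` by strong induction on `l < m`. -/
theorem T04 {V : Type} [Finite V] {b K : ℕ} (G : Base V b K) (z : ℕ → V) (m k p : ℕ)
    (hp : ∀ v, {u | W G.r k v u}.ncard ≤ p)
    (hz : ∀ l, 1 ≤ l → l < m → ∃ a < l, W G.r k (z a) (z l)) :
    ∃ ch : Fin m → Fin m × Fin p, ∀ l < m, ctr G.r k ch (z 0) l = z l := by
  sorry

/-- T05. Erased vertices are near the centre (LSN/J05, `T05`). `i = 0`: `G.nb x a` is adjacent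
(`G.nb_r`). `i + 1`: T03, `(10 rho_i + 1) * l + rho_i ≤ m_i (10 rho_i + 1)` for `l < m_i`. -/
theorem T05 {V : Type} [Finite V] {b K : ℕ} (P : Par) (G : Base V b K) (i : ℕ) (s : Sk P b i)
    (x : V) (q : Ix P i) : W G.r (P.rho i) x (er P G i s x q) := by
  sorry

/-- T07. The partners depend only on the colours outside `U` of the ball of radius `rho_i` around
`x`, and on the colours on `Bs` (LSN/J07, `T07`). Induction on `i`. `i = 0`: no colours are used.
`i + 1`: the two predicates `Al` are equal: for `u` in the region (so `W rho_(i+1) x u`, as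
`(10 rho_i + 1) l + 10 rho_i ≤ rho_(i+1)`) and `v ∈ Bs`, if `u ∈ U` both matchings hold as soon as
the base colours agree, otherwise `c u = c' u`, `d v = d' v`. So the sets `Prt` are equal; then the
induction hypothesis for the window `l`. -/
theorem T07 {V N : Type} {b K M : ℕ} [Finite V] [Finite N] (P : Par) (G : Base V b K)
    (c c' : V → Fin M) (U : Set V) (r' : N → N → Prop) (col' : N → Fin K) (d d' : N → Fin M)
    (w : N → Prop) (Bs : Set N) (i : ℕ) (s : Sk P b i) (p : Pt P i) (x : V) (y : N)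
    (q : Ix P i) (hc : ∀ v, W G.r (P.rho i) x v → v ∉ U → c v = c' v)
    (hd : ∀ v ∈ Bs, d v = d' v) :
    pa P G c U ⟨r', col', d, w⟩ Bs i s p x y q = pa P G c' U ⟨r', col', d', w⟩ Bs i s p x y q := by
  sorry

/-- T08. `Gd` is the conjunction of the bounds `Bd` of smaller levels (LSN/J08, `T08`). -/
theorem T08 {V : Type} {b K M : ℕ} (P : Par) (G : Base V b K) (i n : ℕ) (A : Str K M (Fin n)) :
    Gd P G i n A ↔ ∀ j < i, Bd P G j A := by
  sorry

/-- T10. Heredity of `Bd` to structures induced on a subset (LSN/J10, `T10`). -/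
theorem T10 {V : Type} {b K M n : ℕ} [Finite V] (P : Par) (G : Base V b K) (c : V → Fin M)
    (U : Set V) (j : ℕ) (f : Fin n → V) (hf : Function.Injective f)
    (h : Bd P G j (gs G c U)) :
    Bd P G j (⟨fun a b => G.r (f a) (f b), fun a => G.col (f a), fun a => c (f a),
      fun a => f a ∈ U⟩ : Str K M (Fin n)) := by
  sorry

/-- T11. Bound for the number of partners in a small region `R` (LSN/J10, `T11`; use
`Targets.T10`, `Targets.T08`). The structure induced by `gs G c U` on `R` is admissible: embedding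
`f`, symmetry of `G.r`, and two adjacent wild points are equal by `hU` and injectivity of `f`. -/
theorem T11 {V N : Type} {b K M : ℕ} [Finite V] [Finite N] (P : Par) (G : Base V b K)
    (c : V → Fin M) (U : Set V) (hU : AF G U) (i : ℕ) (hG : ∀ j < i, Bd P G j (gs G c U))
    (B : Str K M N) (hB : Bd P G i B) (Bs : Set N) (R : Set V) (hR : R.ncard ≤ P.xi i)
    (hXi : 0 < P.Xi i) (x : V) (y : N) (u : V) :
    (Prt (gs G c U) B R Bs x y u).ncard < P.Xi i := by
  sorry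

/-- T15. `1 ≤ rho_i`, `rho_j ≤ rho_i` for `j ≤ i`, `20 rho_j ≤ rho_i` for `j < i`
(`rho_(i+1) = m_i (10 rho_i + 1) ≥ 20 rho_i`), `0 < xi_i`, `2 ≤ Nn_i`, `0 < Xi_i`. -/
theorem T15 (P : Par) (hP : P.Ok) :
    (∀ i, 1 ≤ P.rho i) ∧ (∀ j i, j ≤ i → P.rho j ≤ P.rho i) ∧
    (∀ j i, j < i → 20 * P.rho j ≤ P.rho i) ∧ (∀ i, 2 ≤ P.xi i) ∧ (∀ i, 2 ≤ P.Nn i) ∧
    ∀ i, 0 < P.Xi i := by
  sorry

/-- T16. The lift at level 0. If some `w` is a neighbour of `y` in `B` with base colour `k` then the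
chosen one is equal to `y'`: the images under the embedding `f` are both in the closed
neighbourhood of `f y` (`G.refl` if `y' = y`) with equal base colours, `G.loc`. Otherwise `y'` is
not a neighbour of `y`, so `y' = y`, and `lf` stays at `y`. -/
theorem T16 {V N : Type} {b K M : ℕ} (G : Base V b K) (B : Str K M N) (hB : Adm G B)
    (y y' : N) (h : y' = y ∨ B.r y y') (k : Fin K) (hk : B.col y' = k) :
    lf B.r B.col (fun _ => k) y 1 = y' := by
  sorry

/-- T17. Window lemma of level 0. Let `t0 + 1` be the first time with `X ≠ X 0` (exists by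
`hfar`, `G.refl`). For `t ≤ t0`: `Y t = Y 0` (base colours of `Y t` equal `col (X 0)`, two adjacent
points of `B` with equal base colours are equal: embedding, `G.loc`, `G.refl`). Put `x' = X (t0+1)`,
`y' = Y (t0+1)`: `B.r (Y 0) y'`, and `y' ≠ Y 0` (otherwise `col x' = col x`, `G.loc`). So by `Adm`
not both are wild. If `Y 0` is not wild: `tm = 0`, skeleton `a` with `G.nb x a = x`; otherwise
`tm = t0 + 1`, `G.nb x a = x'`. Partner by T16. -/
theorem T17 {V : Type} {b K M : ℕ} [Finite V] (P : Par) (G : Base V b K)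
    (c : V → Fin M) : WL P G c 0 := by
  sorry

/-- T18. Window lemma, step `i → i + 1` (LSN/J18, `T18`, `T18_win`, `T18_mono`, `T18_far`).
Greedy centres (`Pool.Agent.LSN.T12`, `T13` in LSN/J12) with `k = 10 rho_i`, `m = m_i`; chain code
T04 (balls of radius `10 rho_i + 1` by `hbal`). For each `l` the walk from `tau l` to the time of
another centre (forwards or backwards) leaves the ball of radius `rho_i`, so `h` gives `s_l`,
`tm_l` (times shifted by `tau l`, all `≤ T`). `WF (i+1)`: clause 3 of `GC` and `WF i` of the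
windows. Skeleton `(ch, s)`, times `(l, q) ↦ time`. Now let `U` be given with `AF` and
`Bd j (gs G c U)` for `j + 1 < i + 1`: `h` gives `p_l`; the pointer to `Y (tau l)`: the walk up to
`tau (m-1)` is a walk in `Al (gs G c U) B region Bs` (a match in `gs G c ∅` is a match in
`gs G c U`), T11 and LSN `T06`. -/
theorem T18 {V : Type} {b K M : ℕ} [Finite V] (P : Par) (hP : P.Ok)
    (G : Base V b K) (hbal : Bal P G) (c : V → Fin M) (i : ℕ) (h : WL P G c i) :
    WL P G c (i + 1) := by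
  sorry

/-- T19. All window lemmas: induction, T17, T18. -/
theorem T19 {V : Type} {b K M : ℕ} [Finite V] (P : Par) (hP : P.Ok)
    (G : Base V b K) (hbal : Bal P G) (c : V → Fin M) (i : ℕ) : WL P G c i := by
  sorry

/-! ## B. Separation -/

/-- T50. Well formed windows, by induction on `i`. Level 0: `Ix` has one element; `j = 0`:
`Z = {x}`. Level `i + 1`, `x_l` the sub-centres (`W ((10 rho_i + 1) l) x x_l` by T03, so
everything within `rho_i` of `x_l` is within `rho_(i+1)` of `x`). First part: for `l ≠ l'` the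
erased vertices are within `rho_i` of `x_l`, `x_l'` (T05), adjacency would give
`W (2 rho_i + 1) x_l x_l'`, but `2 rho_i + 1 ≤ 10 rho_i`; for `l = l'` induction. Second part:
`j = i + 1`: `Z = {x}` (T05). `j = i`: `Z = {x_l : l}` (T05, first clause of `WF`). `j < i`:
`Z = ⋃ Z_l` (induction hypothesis); for `z ∈ Z_l`, `z' ∈ Z_l'`, `l ≠ l'`, `W (10 rho_j) z z'` would
give `W (2 rho_i + 10 rho_j) x_l x_l'` and `2 rho_i + 10 rho_j ≤ 10 rho_i` (T15). -/
theorem T50 {V : Type} [Finite V] {b K : ℕ} (P : Par) (hP : P.Ok) (G : Base V b K) (i : ℕ)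
    (s : Sk P b i) (x : V) (h : WF P G i s x) :
    (∀ q q' : Ix P i, G.r (er P G i s x q) (er P G i s x q') → q = q') ∧
    ∀ j ≤ i, ∃ Z : Set V, (∀ z ∈ Z, W G.r (P.rho i) x z) ∧
      (∀ z ∈ Z, ∀ z' ∈ Z, z ≠ z' → ¬ W G.r (10 * P.rho j) z z') ∧
      ∀ q, ∃ z ∈ Z, W G.r (P.rho j) z (er P G i s x q) := by
  sorry

/-- T51. The same for families of windows, from T50 by the same argument as its induction step
(`j = i`: `Z = range z`). The third conclusion follows from the first (`AF`). -/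
theorem T51 {V κ : Type} [Finite V] {b K : ℕ} (P : Par) (hP : P.Ok) (G : Base V b K) (i : ℕ)
    (z : κ → V) (s : κ → Sk P b i) (h : Fam P G i z s) :
    (∀ a a' : κ × Ix P i, G.r (er P G i (s a.1) (z a.1) a.2) (er P G i (s a'.1) (z a'.1) a'.2) →
      a = a') ∧
    (∀ j ≤ i, Sep P G j (Set.range (fun a : κ × Ix P i => er P G i (s a.1) (z a.1) a.2))) ∧
    AF G (Set.range (fun a : κ × Ix P i => er P G i (s a.1) (z a.1) a.2)) := by
  sorry

/-! ## C. A violated claim or a bad stroll gives an event -/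

/-- T21a. Cleaning. If no point of `U` is within `3 rho` of `X t0`: `t = t0`. Otherwise, with `Z`
from `Sep`, some `z ∈ Z` satisfies `W (4 rho) z (X t0)`; not `W (4 rho) z (X t1)` (else
`W (8 rho) (X t0) (X t1)`). Going from `t0` towards `t1` (in either direction) let `t` be the first
time with not `W (4 rho) z (X t)`; the time before is within `4 rho`, so `W (4 rho + 1) z (X t)` and
`W (8 rho + 1) (X t0) (X t)`, `8 rho + 1 ≤ 9 rho`. If `W (3 rho) (X t) v` with `v ∈ U`, take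
`z' ∈ Z` with `W rho z' v`: `W (4 rho) z' (X t)`, so `z' ≠ z`, and `W (8 rho + 1) z z'`,
contradiction. -/
theorem T21a {V : Type} {b K : ℕ} (P : Par) (G : Base V b K) (i : ℕ) (hrho : 1 ≤ P.rho i)
    (U : Set V) (hU : Sep P G i U) (X : ℕ → V) (T : ℕ) (hX : ∀ t < T, G.r (X t) (X (t + 1)))
    (t0 t1 : ℕ) (h0 : t0 ≤ T) (h1 : t1 ≤ T) (hfar : ¬ W G.r (28 * P.rho i) (X t0) (X t1)) :
    ∃ t ≤ T, W G.r (9 * P.rho i) (X t0) (X t) ∧ ∀ v, W G.r (3 * P.rho i) (X t) v → v ∉ U := by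
  sorry

/-- T21b. Window at a clean place. Follow the walk from `t0` towards `t1` (forwards: shift,
backwards: `PW_rev`-like, `B.r` and `G.r` are symmetric) up to the first time with not
`W rho_i (X t0) _`; all these times are within `rho_i + 1 ≤ 3 rho_i` of `X t0`, so not in `U`, and
the pairs are matched for `gs G c ∅`. Apply `h` with `Bs = univ`. The erased vertices are within
`rho_i` of `X t0` (T05), so not in `U`, and `Y (tm q)` is not wild: the matching gives equal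
colours. -/
theorem T21b {V N : Type} {b K M : ℕ} [Finite V] [Finite N] (P : Par) (G : Base V b K)
    (c : V → Fin M) (i : ℕ) (hrho : 1 ≤ P.rho i) (h : WL P G c i) (B : Str K M N)
    (hB : Adm G B) (hBd : ∀ j < i, Bd P G j B) (U : Set V) (X : ℕ → V) (Y : ℕ → N) (T : ℕ)
    (hW : PW G.r B.r (Mt (gs G c U) B) X Y T) (t0 t1 : ℕ) (h0 : t0 ≤ T) (h1 : t1 ≤ T)
    (hclean : ∀ v, W G.r (3 * P.rho i) (X t0) v → v ∉ U)
    (hfar : ¬ W G.r (P.rho i) (X t0) (X t1)) :
    ∃ (s : Sk P b i) (tm : Ix P i → ℕ), WF P G i s (X t0) ∧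
      (∀ q, c (er P G i s (X t0) q) = B.c (Y (tm q))) ∧
      ∀ U' : Set V, AF G U' → (∀ j, j + 1 < i → Bd P G j (gs G c U')) →
        ∃ p : Pt P i, ∀ q, pa P G c U' B Set.univ i s p (X t0) (Y t0) q = Y (tm q) := by
  sorry

/-- T21c. A tour of a large component. `Bd` fails for `gs G c U`: `n ≤ xi_i`, an admissible
structure `A` on `Fin n` with `Gd i n A`, and a component with at least `Xi_i` second coordinates.
There is a pair walk `Y, X, T` in `Fin n × V` visiting all these second coordinates (LSN/J21,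
`T21_tour`, `T21_append`, `T21_swap`, they are generic), swapped: `X` in `V`, `Y` in `Fin n`, with
matching `Mt (gs G c U) A`. LSN `T12` for `X` with `k = 28 rho_i`, `m = Nn_i`: the second
alternative would cover `Xi_i = Nn_i ph (28 rho_i)` vertices by less than `Nn_i` balls. -/
theorem T21c {V : Type} {b K M : ℕ} [Finite V] (P : Par) (hP : P.Ok)
    (G : Base V b K) (hbal : Bal P G) (c : V → Fin M) (i : ℕ) (U : Set V)
    (hnot : ¬ Bd P G i (gs G c U)) :
    ∃ n ≤ P.xi i, ∃ A : Str K M (Fin n), Adm G A ∧ Gd P G i n A ∧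
      ∃ (X : ℕ → V) (Y : ℕ → Fin n) (T : ℕ), PW G.r A.r (Mt (gs G c U) A) X Y T ∧
        ∃ tau, GC G.r X (28 * P.rho i) (P.Nn i) tau ∧ tau (P.Nn i - 1) ≤ T := by
  sorry

/-- T21. A violated claim gives an event of the first kind. `U` with `Sep i U` and not
`Bd i (gs G c U)`; T21c. `N = Nn_i ≥ 2` (T15). For `l < N` let `l'` be another index (`0` or `1`);
`GC` gives not `W (28 rho) (X (tau l)) (X (tau l'))`; T21a gives `t_l` (all times `≤ T`, LSN/J18
`T18_mono`). Put `z_l = X (t_l)`, `a_l = Y (t_l)`. For `l ≠ l'`: not `W (10 rho) z_l z_l'` since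
`9 + 10 + 9 = 28`. For `1 ≤ l`: `W (50 rho) z_a z_l` for the `a < l` of clause 4 of `GC`
(`28 rho + 1 + 18 rho`). T04 gives the chain code (root `z_0`). T21b for `t_l` and the time
`tau l'` (not `W rho z_l (X (tau l'))` since `9 + 1 < 28`) gives `s_l`, `tm_l`. With
`e = (z_0, d, ch, a, s)`, `sD d = A` (`decide` of `A.r`, `A.w`): `Fam` holds, so by T51 the set
`U' = range (eG P G e)` is `AF` and `Sep j` for `j ≤ i`; `hlow` gives `Bd j (gs G c U')` for
`j < i`; T21b gives the pointers. -/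
theorem T21 {V : Type} {b K M : ℕ} [Finite V] (P : Par) (hP : P.Ok)
    (G : Base V b K) (hbal : Bal P G) (c : V → Fin M) (i : ℕ)
    (hlow : ∀ j < i, Cl P G c j) (hnot : ¬ Cl P G c i) :
    ∃ n ≤ P.xi i, ∃ e : EG P V b K M i n, badG P G e c := by
  sorry

/-- T23. Crossing, one-sided (LSN/J23, `T23`). Put `x_l = X (tau l)`, `y_l = Y (tau l)`, `l < m`.
T04: chain code. For each `l` the walk from `tau l` to the time of another centre (all times
`≤ tau (m-1)`) leaves the ball of radius `rho_i` around `x_l` and lies in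
`Al (gs G c ∅) (gs G c ∅) univ {v | W rad (Y 0) v}` by `hY`; window lemma T19 of level `i` with
`B = gs G c ∅` (admissible; `Bd j` from `hCl` and `Sep j ∅`), giving `s_l`, `tm_l`. `Fam` holds by
`GC`. Let `U = range (eC P G ev)`: T51, `AF G U`, `Sep j U` for `j ≤ i`, so `Bd j (gs G c U)` by
`hCl`. Pointers: T19 for the windows, T11 with `gs G c U` for `y_l` as in T18 (region of `m ≤ m_i`
centres: T02, `≤ xi_i`). -/
theorem T23 {V : Type} {b K M : ℕ} [Finite V] (P : Par) (hP : P.Ok)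
    (G : Base V b K) (hbal : Bal P G) (c : V → Fin M) (i m rad : ℕ) (hm : 2 ≤ m)
    (hmi : m ≤ P.m i) (hCl : ∀ j ≤ i, Cl P G c j) (X Y : ℕ → V) (T : ℕ)
    (hW : PW G.r G.r (Mt (gs G c ∅) (gs G c ∅)) X Y T) (tau : ℕ → ℕ)
    (hGC : GC G.r X (10 * P.rho i) m tau) (hT : tau (m - 1) ≤ T)
    (hY : ∀ t ≤ tau (m - 1), W G.r rad (Y 0) (Y t)) :
    ∃ ev : EC P V b i m, ev.1 = X 0 ∧ ev.2.1 = Y 0 ∧
      Fam P G i (fun k : Fin m => zC P G ev k.val) ev.2.2.2 ∧
      ∃ p : Fin m → Fin (P.Xi i) × Pt P i, ∀ q : Fin m × Ix P i,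
        ∃ t ≤ tau (m - 1), eC P G ev q = X t ∧ pC P G c rad ev p q = Y t := by
  sorry

/-- T24. Crossing event (LSN/J24, `T24`; `Pool.Agent.LSN.T14` in LSN/J14 with `k = 10 rho_i`). -/
theorem T24 {V : Type} {b K M : ℕ} [Finite V] (P : Par) (hP : P.Ok)
    (G : Base V b K) (hbal : Bal P G) (z : V → Fin M) (i m R rad : ℕ)
    (hm : 2 ≤ m) (hmi : m ≤ P.m i) (hrad : (10 * P.rho i + 1) * m ≤ rad + 1)
    (hCl : ∀ j ≤ i, Cl P G z j) (X Y : ℕ → V) (T : ℕ)
    (hW : PW G.r G.r (Mt (gs G z ∅) (gs G z ∅)) X Y T) (hRt : Rt G R rad (X 0) (Y 0))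
    (hfar : ∃ t ≤ T, ¬ W G.r ((10 * P.rho i + 1) * (m - 1) - 1) (X 0) (X t)) :
    ∃ ev : EC P V b i m, badC P G R rad ev z := by
  sorry

/-! ## D. Properties of the events -/

/-- T26. `Fintype.card (Ix P i) = P.g i`; `Sk`, `Pt` recursions (LSN/J26, `T26`). -/
theorem T26 (P : Par) (b : ℕ) :
    (∀ i, Fintype.card (Ix P i) = P.g i) ∧
    Fintype.card (Sk P b 0) = b ∧ Fintype.card (Pt P 0) = 1 ∧
    (∀ i, Fintype.card (Sk P b (i + 1)) =
      (P.m i * P.ph (10 * P.rho i + 1)) ^ P.m i * Fintype.card (Sk P b i) ^ P.m i) ∧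
    ∀ i, Fintype.card (Pt P (i + 1)) = (P.Xi i * Fintype.card (Pt P i)) ^ P.m i := by
  sorry

/-- T27. First kind: erased vertices lie in `DG` (T03, T05), and their number (T51: injective,
since `G.r` is reflexive; T26) (LSN/J26, `T27`). -/
theorem T27 {V : Type} [Fintype V] {b K M i n : ℕ} (P : Par) (hP : P.Ok) (G : Base V b K)
    (e : EG P V b K M i n) :
    UG P G e ⊆ DG P G e ∧
    ∀ z : V → Fin M, badG P G e z → (UG P G e).card = P.Nn i * P.g i := by
  sorry

/-- T28. First kind: locality (LSN/J28, `T28`; T07, T03, T05). -/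
theorem T28 {V : Type} [Fintype V] {b K M i n : ℕ} (P : Par) (G : Base V b K)
    (e : EG P V b K M i n) (z z' : V → Fin M)
    (h : ∀ x ∈ DG P G e, z x = z' x) (hz : badG P G e z) : badG P G e z' := by
  sorry

/-- T29. First kind: weight (LSN/J29, `T29`). For `z = z0` outside `UG` and pointers `p`, the
partners `pG P G z e p` and `pG P G z0 e p` are equal by T07 (the wild set of the decoder is
`range (eG P G e)`, the set of members of `UG`), so `z` is determined by `p`. -/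
theorem T29 {V : Type} [Fintype V] {b K M i n : ℕ} (P : Par) (G : Base V b K)
    (e : EG P V b K M i n) (z0 : V → Fin M) :
    {z : V → Fin M | badG P G e z ∧ ∀ x, x ∉ UG P G e → z x = z0 x}.ncard ≤
      Fintype.card (Pt P i) ^ P.Nn i := by
  sorry

/-- T30. First kind: number of events containing a variable (LSN/J30, `T30`): the root is in a ball
around the vertex (`hbal`, `W_symm`), the other data are free. -/
theorem T30 {V : Type} [Fintype V] {b K M i n : ℕ} (P : Par) (G : Base V b K)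
    (hbal : Bal P G) (x : V) :
    {e : EG P V b K M i n | x ∈ DG P G e ∧ ∃ z : V → Fin M, badG P G e z}.ncard ≤
      P.ph (P.Nn i * (50 * P.rho i) + P.rho i) *
        ((2 ^ n) ^ n * (K ^ n * (M ^ n * 2 ^ n))) *
        ((P.Nn i * P.ph (50 * P.rho i)) ^ P.Nn i * (n ^ P.Nn i *
          Fintype.card (Sk P b i) ^ P.Nn i)) := by
  sorry

/-- T31. Second kind: erased vertices lie in `D2` (`(10 rho_i + 1) l + rho_i ≤ rad` for `l < m`),
and their number (LSN/J31, `T31`; T51, T26). -/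
theorem T31 {V : Type} [Fintype V] {b K M i m : ℕ} (P : Par) (hP : P.Ok) (G : Base V b K)
    (R rad : ℕ) (hrad : (10 * P.rho i + 1) * m ≤ rad + 1) (e : EC P V b i m) :
    UC P G e ⊆ D2 G rad e.1 e.2.1 ∧
    ∀ z : V → Fin M, badC P G R rad e z → (UC P G e).card = m * P.g i := by
  sorry

/-- T32. Second kind: locality (LSN/J31, `T32`). -/
theorem T32 {V : Type} [Fintype V] {b K M i m : ℕ} (P : Par) (G : Base V b K)
    (R rad : ℕ) (hrad : (10 * P.rho i + 1) * m ≤ rad + 1) (e : EC P V b i m)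
    (z z' : V → Fin M) (h : ∀ x ∈ D2 G rad e.1 e.2.1, z x = z' x)
    (hz : badC P G R rad e z) : badC P G R rad e z' := by
  sorry

/-- T33. Second kind: weight (LSN/J33, `T33`). The decoder reads the first structure outside
`range (eC P G e)` only, and the second one on the ball `B(y, rad)`, which is disjoint from
`range (eC P G e) ⊆ B(x, rad)` by `Rt` (`W_add`, `W_symm`). So for `z = z0` outside `UC` the
partners are those of `z0`, and `z (eC q) = z (pC q) = z0 (pC q)` since `pC q` is in `B(y, rad)`. -/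
theorem T33 {V : Type} [Fintype V] {b K M i m : ℕ} (P : Par) (G : Base V b K)
    (R rad : ℕ) (hrad : (10 * P.rho i + 1) * m ≤ rad + 1) (e : EC P V b i m)
    (z0 : V → Fin M) :
    {z : V → Fin M | badC P G R rad e z ∧ ∀ x, x ∉ UC P G e → z x = z0 x}.ncard ≤
      (P.Xi i * Fintype.card (Pt P i)) ^ m := by
  sorry

/-- T34. Number of root pairs (LSN/J34, `T34`, `T34_cnt`). If `W rad x v` then `x` is one of
`ph rad` vertices, and `y` is one of `ph (2 rad + 2) * 2 ^ m`: for `rad < R` by `Rt`, otherwise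
since `card V ≤ 2 ^ m`. Symmetric for `W rad y v`. -/
theorem T34 {V : Type} [Fintype V] {b K : ℕ} (P : Par) (hP : P.Ok) (G : Base V b K)
    (hbal : Bal P G) (R rad m : ℕ) (hV : rad < R ∨ Fintype.card V ≤ 2 ^ m) (v : V) :
    {p : V × V | (W G.r rad p.1 v ∨ W G.r rad p.2 v) ∧ Rt G R rad p.1 p.2}.ncard ≤
      2 * (P.ph rad * (P.ph (2 * rad + 2) * 2 ^ m)) := by
  sorry

/-- T35. Second kind: number of events containing a variable (T34; the other data are free)
(LSN/J34, `T35`). -/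
theorem T35 {V : Type} [Fintype V] {b K M i m : ℕ} (P : Par) (hP : P.Ok) (G : Base V b K)
    (hbal : Bal P G) (R rad : ℕ) (hV : rad < R ∨ Fintype.card V ≤ 2 ^ m) (x : V) :
    {e : EC P V b i m | x ∈ D2 G rad e.1 e.2.1 ∧
      ∃ z : V → Fin M, badC P G R rad e z}.ncard ≤
      2 * (P.ph rad * (P.ph (2 * rad + 2) * 2 ^ m)) *
        ((m * P.ph (10 * P.rho i + 1)) ^ m * Fintype.card (Sk P b i) ^ m) := by
  sorry

/-! ## E. Numbers -/

/-- T37. Choice of the level and the number of windows for a given radius (LSN/J37, `T37`). Let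
`i < L` be the largest index with `2 (10 rho_i + 1) ≤ rad + 1` (`i = 0` is one: `rho_0 = 1`),
`m = min ((rad + 1) / (10 rho_i + 1)) (m_i)`. If `m = (rad+1) / (10 rho_i + 1)` then
`rad + 1 < (m + 1) (10 rho_i + 1)`. If `m = m_i` and `i + 1 < L` then
`rad + 1 < 2 (10 rho_(i+1) + 1) = 20 m_i (10 rho_i + 1) + 2 ≤ 22 m_i (10 rho_i + 1)`. If `m = m_i`
and `i = L - 1` use `hR`. If `rad + 1 = m_(L-1) (10 rho_(L-1) + 1)` then `i = L - 1` (`2 ≤ m`) and
`m = m_(L-1)`. -/
theorem T37 (P : Par) (hP : P.Ok) (L rad : ℕ) (hL : 1 ≤ L)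
    (hR : rad + 1 ≤ P.m (L - 1) * (10 * P.rho (L - 1) + 1)) (h : 22 ≤ rad + 1) :
    ∃ i < L, ∃ m, 2 ≤ m ∧ m ≤ P.m i ∧ (10 * P.rho i + 1) * m ≤ rad + 1 ∧
      rad + 1 ≤ 22 * m * (10 * P.rho i + 1) ∧
      (rad + 1 = P.m (L - 1) * (10 * P.rho (L - 1) + 1) → m = P.m (L - 1)) := by
  sorry

/-- T38. Basic facts on the actual parameters (LSN/J38, `T38`). `2 ^ i ≤ g_i` by induction
(`m_i ≥ 2`), so `g_i / 2 ^ i ≥ 1` and `4 ≤ m_i`; `rho_i ≤ 11 ^ i g_i` (`10 rho + 1 ≤ 11 rho`);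
`m_i ^ (2 ^ i) = 2 ^ ((g_i / 2^i + 1) 2^i) ≤ 2 ^ (2 g_i)`. -/
theorem T38 (ph : ℕ → ℕ) :
    (∀ i, (tP ph).rho i = (gr i).2) ∧ (∀ i, (tP ph).g i = (gr i).1) ∧
    (∀ i, 2 ^ i ≤ (gr i).1) ∧ (∀ i, 4 ≤ (tP ph).m i) ∧ (∀ i, i + 1 ≤ (tP ph).m i) ∧
    (∀ i, 1 ≤ (gr i).2) ∧ (∀ i, (gr i).2 ≤ 11 ^ i * (gr i).1) ∧
    (∀ i, (tP ph).m i ^ (2 ^ i) ≤ 2 ^ (2 * (gr i).1)) := by
  sorry

/-- T38b. Tower growth. `h_i = g_i / 2 ^ i` satisfies `1 ≤ h_i` and `h_(i+1) ≥ 2 ^ (h_i)`
(`g_(i+1) = 2 ^ (h_i + 1) g_i`, and `g_i ≥ h_i 2^i`), so `h_i ≥ i` and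
`tw n k0 ≤ h_(n + k0) ≤ g_(n + k0) ≤ rho_(n + k0)` (`tw` is monotone in the second argument). -/
theorem T38b (n k0 : ℕ) : tw n k0 ≤ (gr (n + k0)).2 := by
  sorry

/-- T39. `S_i = |Sk_i| |Pt_i|` (LSN/J38, `T39`, but with logarithms). Write `l = log2` (real). By T26
and `Xi = m^3 ph(10 rho)^3 ph(28 rho)`:
`l(S_(i+1)) = m_i (4 l(m_i) + l(ph (10 rho + 1)) + 3 l(ph (10 rho)) + l(ph (28 rho)) + l(S_i))`;
`ph` is monotone, so each `l(ph ..) ≤ l(ph (50 rho_i)) ≤ C g_i / 2^i` (`Gro`, `10 rho + 1 ≤ 50 rho`),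
`l(m_i) ≤ 2 g_i / 2^i` (T38). So `l(S_(i+1)) ≤ m_i ((8 + 5 C) g_i / 2^i + l(S_i))`, and by
induction `l(S_i) ≤ (b + (16 + 10 C) (1 - 1/2^i)) g_i` (`l(S_0) = l(b) ≤ b`). -/
theorem T39 (b C : ℕ) (hb : 1 ≤ b) (ph : ℕ → ℕ) (hph : (tP ph).Ok) (hg : Gro ph C) (i : ℕ) :
    Fintype.card (Sk (tP ph) b i) * Fintype.card (Pt (tP ph) i) ≤
      2 ^ ((b + 16 + 10 * C) * (gr i).1) := by
  sorry

/-- T40. Weight of the events of the first kind. Write `m, rho, g, xi, N` for the values at `i`,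
`l = log2`, `f = l(ph (50 rho))`, `mu = mu b K C`, `M = 2 ^ (mu + 1)`, `2 / M = 2 ^ (-mu)`. The
logarithm of the product is at most
`f (N + 1) + n^2 + n l(K) + n (mu + 1) + n + N (l(N) + f) + N l(n) + N l(S_i) - mu N g`, using
`ph (N (50 rho) + rho) ≤ ph (50 rho) ^ (N + 1)` (submultiplicative, monotone; induction). With
`f ≤ C g / 2^i ≤ C g`, `l(xi) ≤ l(m) + f ≤ (2 + C) g`, `l(N) = 3 l(xi)`, `n ≤ xi`,
`n^2 + n ≤ 2 xi^2 ≤ N` (`N = xi^3`, `xi ≥ 4`), `n l(K) ≤ N K`, `n (mu + 1) ≤ N (mu + 1) / 16`,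
`l(S_i) ≤ (b + 16 + 10 C) g` (T39) it is at most
`N g (2 C + 1 + K + (mu + 1)/16 + 6 + 4 C + 2 + C + b + 16 + 10 C - mu)
= N g (17 C + 25 + K + b + (mu + 1)/16 - mu) ≤ - N g` as `mu = 100 (C + K + b + 1)`. Finally
`8 * 2^i * (xi + 1) ≤ 2 ^ (N g)`: `3 + i + (xi + 1) ≤ N g` since `g ≥ 2^i ≥ i + 1`,
`N = xi^3 ≥ 16 xi`, `xi ≥ 4`. (The case `n = 0` is trivial: then `n ^ N = 0`.) -/
theorem T40 (b K C : ℕ) (hb : 1 ≤ b) (hK : 1 ≤ K) (ph : ℕ → ℕ) (hph : (tP ph).Ok)
    (hg : Gro ph C) (i n : ℕ) (hn : n ≤ (tP ph).xi i) :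
    (((tP ph).ph ((tP ph).Nn i * (50 * (tP ph).rho i) + (tP ph).rho i) *
        ((2 ^ n) ^ n * (K ^ n * (Mm b K C ^ n * 2 ^ n))) *
        (((tP ph).Nn i * (tP ph).ph (50 * (tP ph).rho i)) ^ (tP ph).Nn i * (n ^ (tP ph).Nn i *
          Fintype.card (Sk (tP ph) b i) ^ (tP ph).Nn i)) : ℕ) : ℝ) *
      ((Fintype.card (Pt (tP ph) i) ^ (tP ph).Nn i : ℕ) : ℝ) *
      (2 / (Mm b K C : ℕ)) ^ ((tP ph).Nn i * (tP ph).g i) ≤
      1 / (8 * 2 ^ i * ((tP ph).xi i + 1)) := by
  sorry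

/-- T41. Weight of the events of the second kind, notation as in T40, `m'` windows,
`rad + 1 ≤ 22 m' (10 rho + 1)`: `ph rad * ph (2 rad + 2) ≤ ph (rad + 1) ^ 3
≤ ph (10 rho + 1) ^ (66 m')` (submultiplicative, monotone), `ph (10 rho + 1) ≤ ph (50 rho)`. The
logarithm of the product is at most
`1 + 66 m' f + m' + m' (l(m') + f) + m' l(Xi) + m' l(S_i) - mu m' g` with `l(m') ≤ l(m_i) ≤ 2 g`,
`l(Xi) ≤ (6 + 4 C) g`, so at most `m' g (81 C + 26 + b - mu)`, and
`l(8 (rad+1)^2) ≤ 3 + 2 l(22 * 11 m' rho) ≤ 3 + 2 (8 + m' + 5 g) ≤ 31 m' g`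
(`l(rho_i) ≤ 4 i + l(g_i) ≤ 5 g_i` by T38). -/
theorem T41 (b K C : ℕ) (hb : 1 ≤ b) (hK : 1 ≤ K) (ph : ℕ → ℕ) (hph : (tP ph).Ok)
    (hg : Gro ph C) (i m rad : ℕ) (hm : 2 ≤ m) (hmi : m ≤ (tP ph).m i)
    (hrad : rad + 1 ≤ 22 * m * (10 * (tP ph).rho i + 1)) :
    ((2 * ((tP ph).ph rad * ((tP ph).ph (2 * rad + 2) * 2 ^ m)) *
        ((m * (tP ph).ph (10 * (tP ph).rho i + 1)) ^ m *
          Fintype.card (Sk (tP ph) b i) ^ m) : ℕ) : ℝ) *
      ((((tP ph).Xi i * Fintype.card (Pt (tP ph) i)) ^ m : ℕ) : ℝ) *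
      (2 / (Mm b K C : ℕ)) ^ (m * (tP ph).g i) ≤ 1 / (8 * ((rad : ℝ) + 1) ^ 2) := by
  sorry

/-! ## F. Assembly -/

/-- T44. Existence of an assignment avoiding all events (LSN/J44, `T44`), from
`Pool.Agent.LSN.T20` with `Z = V` and the classes `(i, n)` (`i < L`, `n ≤ xi_i`) and
`rad ∈ [21, R]`. Sum: `∑_i ∑_(n ≤ xi_i) 1 / (8 * 2^i (xi_i + 1)) ≤ 1/4`, and
`∑_rad 1 / (8 (rad + 1)^2) ≤ 1/8` (`Pool.Agent.LSN.T43`). `hV` of T35: for `rad < R` clear, for
`rad = R` by `hV`. -/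
theorem T44 {V : Type} [Fintype V] (b K C L : ℕ) (hb : 1 ≤ b) (hK : 1 ≤ K) (hL : 1 ≤ L)
    (ph : ℕ → ℕ) (hph : (tP ph).Ok) (hg : Gro ph C) [NeZero (Mm b K C)] (G : Base V b K)
    (hbal : Bal (tP ph) G) (R : ℕ)
    (hR : R + 1 = (tP ph).m (L - 1) * (10 * (tP ph).rho (L - 1) + 1))
    (hV : Fintype.card V ≤ 2 ^ (tP ph).m (L - 1)) (ci cm : ℕ → ℕ)
    (hc : ∀ rad, 22 ≤ rad + 1 → rad ≤ R →
      ci rad < L ∧ 2 ≤ cm rad ∧ cm rad ≤ (tP ph).m (ci rad) ∧
      (10 * (tP ph).rho (ci rad) + 1) * cm rad ≤ rad + 1 ∧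
      rad + 1 ≤ 22 * cm rad * (10 * (tP ph).rho (ci rad) + 1) ∧
      (rad = R → cm rad = (tP ph).m (L - 1))) :
    ∃ z : V → Fin (Mm b K C),
      (∀ i < L, ∀ n ≤ (tP ph).xi i, ∀ e : EG (tP ph) V b K (Mm b K C) i n,
        ¬ badG (tP ph) G e z) ∧
      (∀ rad, 22 ≤ rad + 1 → rad ≤ R → ∀ e : EC (tP ph) V b (ci rad) (cm rad),
          ¬ badC (tP ph) G R rad e z) := by
  sorry

/-- T45. The assignment of T44 gives a good colouring (LSN/J45, `T45`). `L = card V + 1`
(`card V ≤ 2 ^ card V ≤ 2 ^ (m_(L-1))` by T38), `R + 1 = m_(L-1) (10 rho_(L-1) + 1) ≥ 22`,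
`ci, cm` from T37. `Cl i` for all `i < L` by strong induction (T21). Let `x` be a bad stroll with
`x i ≠ x (i + t)` for some `i < t`. By `G.loc` then `x j ≠ x (j + t)` for all `j < t`
(`T45_all` of LSN/J45). Put `X j = x j`, `Y j = x (j + t)`, `T = t - 1`: a pair walk with matching
`Mt (gs G z ∅) (gs G z ∅)`. Not `W 42 (X 0) (Y 0)` by `hQ`. Let `rad` be the largest `rad ≤ R` with
not `W (2 rad) (X 0) (Y 0)`; `21 ≤ rad`. Then `Rt`. `X T` is adjacent or equal to `Y 0`, so not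
`W (2 rad - 1) (X 0) (X T)`. T24 with `i = ci rad`, `m = cm rad` gives a contradiction. -/
theorem T45 {V : Type} [Fintype V] (b K C : ℕ) (hb : 1 ≤ b) (hK : 1 ≤ K)
    (ph : ℕ → ℕ) (hph : (tP ph).Ok) (hg : Gro ph C) (G : Base V b K)
    (hbal : Bal (tP ph) G) (hQ : Q42 G) :
    ∃ c : V → Fin K × Fin (Mm b K C), ∀ (t : ℕ) (x : ℕ → V),
      (∀ i, i + 1 < 2 * t → G.r (x i) (x (i + 1))) →
      (∀ i < t, c (x i) = c (x (i + t))) → ∀ i < t, x i = x (i + t) := by
  sorry

open Pool.Agent.CayNR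

/-- T46. The base graph of a simple graph with an auxiliary colouring which is injective at
distance `≤ 42`: `Pool.Agent.LSN.T46` with a colouring `a` from `Pool.Agent.CayNR.greedy` for the
relation `W r 42` with `r x y = (x = y ∨ G.Adj x y)`; balls of radius 42 have at most
`(Δ + 2) ^ 42` points (`Pool.Agent.LSN.T01` for some base graph, or directly). `Dist2 G a` follows
from injectivity on `W 42` (two points of a closed neighbourhood are within 2). -/
theorem T46 {V : Type} [Fintype V] (G : SimpleGraph V) (Δ : ℕ)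
    (hΔ : ∀ v, (G.neighborSet v).ncard ≤ Δ) :
    ∃ B : Base V (Δ + 2) ((Δ + 2) ^ 42 + 1),
      (∀ x y, B.r x y ↔ (x = y ∨ G.Adj x y)) ∧ Q42 B := by
  sorry

/-- T47. The growth function `ph k = max ball of radius k` (as `Finset.univ.sup`; `V` not empty)
and its properties. `Ok`: `2 ≤ m_i` (T38), `1 ≤ ph k` (`W_refl`), submultiplicative
(`W (j+k) v u` splits as `W j v x`, `W k x u`: the ball of radius `j + k` is contained in the union
of the balls of radius `k` around the points of the ball of radius `j`), monotone (`W_mono`).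
`Gro`, with `l = log2`: for `i ≥ k0`, `n = i - k0`: `tw n k0 ≤ rho_i ≤ 50 rho_i` (T38b), so
`22^n l(ph (50 rho_i)) ≤ 50 rho_i ≤ 50 * 11^i g_i`, hence
`2^i l(ph (50 rho_i)) ≤ 50 * 22^(k0) g_i`. For `i < k0`: `ph k ≤ b ^ k` (`Pool.Agent.LSN.T01`),
`2^i l(ph (50 rho_i)) ≤ 2^i 50 * 11^i g_i l(b) ≤ 50 * 22^(k0) b g_i`. -/
theorem T47 {V : Type} [Fintype V] [Nonempty V] (b K k0 : ℕ) (hb : 2 ≤ b) (G : Base V b K)
    (hgr : ∀ v n k, tw n k0 ≤ k → {u | W G.r k v u}.ncard ^ (22 ^ n) ≤ 2 ^ k) :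
    ∃ ph : ℕ → ℕ, (tP ph).Ok ∧ Bal (tP ph) G ∧ Gro ph (50 * 22 ^ k0 * b) := by
  sorry

/-- T48. Walks of `k` steps along `r x y = (x = y ∨ G.Adj x y)` and walks of length `≤ k` in `G`:
induction on `k`, resp. on the walk (`W_mono`). -/
theorem T48 {V : Type} (G : SimpleGraph V) (r : V → V → Prop)
    (hr : ∀ x y, r x y ↔ (x = y ∨ G.Adj x y)) (k : ℕ) (u v : V) :
    W r k u v ↔ ∃ p : G.Walk u v, p.length ≤ k := by
  sorry

/-- T49. Final theorem: T46, T47, T48, T45 and `boring_of_card`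
(`card (Fin K × Fin M) = K * M`). If `V` is empty there is no stroll. -/
theorem T49 (Δ k0 : ℕ) : ∃ N : ℕ, ∀ (V : Type) [Fintype V] (G : SimpleGraph V),
    (∀ v, (G.neighborSet v).ncard ≤ Δ) →
    (∀ (v : V) (n k : ℕ), tw n k0 ≤ k →
      {u | ∃ p : G.Walk v u, p.length ≤ k}.ncard ^ (22 ^ n) ≤ 2 ^ k) →
    HasBoringColouring G N := by
  sorry

end Pool.Agent.SXG.Targets
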